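import Mathlib

/-! Elementary inequalities. -/

namespace H23A1

/-- tangent line from below -/
theorem exp_tangent (m Y : ℝ) : Real.exp (-m) * (1 - (Y - m)) ≤ Real.exp (-Y) := by
  have h1 := Real.add_one_le_exp (m - Y)
  have h2 : Real.exp (-Y) = Real.exp (-m) * Real.exp (m - Y) := by rw [← Real.exp_add]; ring_nf
  rw [h2]
  exact mul_le_mul_of_nonneg_left (by linarith) (Real.exp_pos _).le

/-- second order bound from above -/
theorem exp_second (m Y : ℝ) (hm : 0 ≤ m) (hY : 0 ≤ Y) :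
    Real.exp (-Y) ≤ Real.exp (-m) * (1 - (Y - m)) + (Y - m) ^ 2 := by
  rcases le_total m Y with h | h
  · have h0 : 0 ≤ Y - m := by linarith
    have h1 : Real.exp (-(Y - m)) ≤ 1 - (Y - m) + (Y - m) ^ 2 := by
      have h2 := Real.add_one_le_exp (Y - m)
      have h3 : 0 < Real.exp (Y - m) := Real.exp_pos _
      rw [Real.exp_neg, inv_eq_one_div, div_le_iff₀ h3]
      have h4 : 0 ≤ 1 - (Y - m) + (Y - m) ^ 2 := by nlinarith
      have h5 : (1 - (Y - m) + (Y - m) ^ 2) * (Y - m + 1) ≤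
          (1 - (Y - m) + (Y - m) ^ 2) * Real.exp (Y - m) := mul_le_mul_of_nonneg_left h2 h4
      have h6 : (1 - (Y - m) + (Y - m) ^ 2) * (Y - m + 1) = 1 + (Y - m) ^ 3 := by ring
      have h7 : 0 ≤ (Y - m) ^ 3 := by positivity
      linarith
    have h2 : Real.exp (-Y) = Real.exp (-m) * Real.exp (-(Y - m)) := by
      rw [← Real.exp_add]; ring_nf
    have h3 : Real.exp (-m) ≤ 1 := Real.exp_le_one_iff.mpr (by linarith)
    have h4 : 0 < Real.exp (-m) := Real.exp_pos _
    rw [h2]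
    have h5 := mul_le_mul_of_nonneg_left h1 h4.le
    have h6 : Real.exp (-m) * (Y - m) ^ 2 ≤ 1 * (Y - m) ^ 2 :=
      mul_le_mul_of_nonneg_right h3 (by positivity)
    linarith
  · set u := m - Y with hu
    have h0 : 0 ≤ u := by linarith
    have h1 : Real.exp (-Y) = Real.exp (-m) * Real.exp u := by
      rw [← Real.exp_add]; congr 1; rw [hu]; ring
    have h2 : Real.exp (-m) ≤ Real.exp (-u) := Real.exp_le_exp.mpr (by linarith)
    have h3 : (1 + u) * (1 - u) ≤ (1 + u) * Real.exp (-u) := by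
      apply mul_le_mul_of_nonneg_left _ (by linarith)
      have := Real.add_one_le_exp (-u); linarith
    have h4 : Real.exp u - 1 - u ≥ 0 := by have := Real.add_one_le_exp u; linarith
    have h5 : Real.exp (-m) * (Real.exp u - 1 - u) ≤ Real.exp (-u) * (Real.exp u - 1 - u) :=
      mul_le_mul_of_nonneg_right h2 h4
    have h6 : Real.exp (-u) * Real.exp u = 1 := by rw [← Real.exp_add]; simp
    have h7 : Real.exp (-u) * (Real.exp u - 1 - u) ≤ u ^ 2 := by nlinarith
    have h8 : (Y - m) ^ 2 = u ^ 2 := by rw [hu]; ring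
    rw [h1, h8]
    have h9 : Y - m = -u := by rw [hu]; ring
    rw [h9]
    nlinarith

/-- `1 - b >= exp (-(1 + 2 c) b)` for `0 <= b <= c <= 1/2` -/
theorem one_sub_ge_exp (b c : ℝ) (hb : 0 ≤ b) (hbc : b ≤ c) (hc : c ≤ 1 / 2) :
    Real.exp (-((1 + 2 * c) * b)) ≤ 1 - b := by
  have h1 : 0 < 1 - b := by linarith
  have h2 : Real.exp (-(b / (1 - b))) ≤ 1 - b := by
    have h3 := Real.add_one_le_exp (b / (1 - b))
    have h4 : b / (1 - b) + 1 = 1 / (1 - b) := by field_simp; ring
    rw [h4] at h3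
    rw [Real.exp_neg, inv_eq_one_div, div_le_iff₀ (Real.exp_pos _)]
    rw [div_le_iff₀ h1] at h3
    linarith
  refine le_trans (Real.exp_le_exp.mpr ?_) h2
  have h5 : b / (1 - b) ≤ (1 + 2 * c) * b := by
    rw [div_le_iff₀ h1]
    have h6 : 1 ≤ (1 + 2 * c) * (1 - b) := by nlinarith
    nlinarith
  linarith

/-- removing `c` from the exponent costs at most `c` -/
theorem exp_lip (R Y c : ℝ) (hR : 0 ≤ R) (hY : 0 ≤ Y) (hc : 0 ≤ c) (h : Y - c ≤ R) :
    Real.exp (-R) ≤ Real.exp (-Y) + c := by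
  rcases le_total Y c with h1 | h1
  · have h2 : Real.exp (-R) ≤ 1 := Real.exp_le_one_iff.mpr (by linarith)
    have h3 := Real.add_one_le_exp (-Y)
    linarith
  · have h2 : Real.exp (-R) ≤ Real.exp (-(Y - c)) := Real.exp_le_exp.mpr (by linarith)
    have h3 : Real.exp (-(Y - c)) ≤ 1 := Real.exp_le_one_iff.mpr (by linarith)
    have h4 : Real.exp (-Y) = Real.exp (-(Y - c)) * Real.exp (-c) := by
      rw [← Real.exp_add]; ring_nf
    have h5 := Real.add_one_le_exp (-c)
    have h6 : Real.exp (-(Y - c)) * (1 - Real.exp (-c)) ≤ 1 * c := by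
      apply mul_le_mul h3 (by linarith) _ (by norm_num)
      have : Real.exp (-c) ≤ 1 := Real.exp_le_one_iff.mpr (by linarith)
      linarith
    nlinarith

end H23A1
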