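import Mathlib

/-! Random assignment of the parts to the stages (row H). -/

namespace H23A1

open Finset

private theorem eprod {D T : Type} [Fintype D] [DecidableEq D] [Fintype T] (w : T → ℝ)
    (h : D → T → ℝ) :
    ∑ s : D → T, (∏ d, w (s d)) * ∏ d, h d (s d) = ∏ d, ∑ t, w t * h d t := by
  classical
  rw [Finset.prod_univ_sum]
  rw [Fintype.piFinset_univ]
  refine Finset.sum_congr rfl fun s _ => ?_
  rw [← Finset.prod_mul_distrib]

private theorem evar {D T : Type} [Fintype D] [DecidableEq D] [Fintype T] (w : T → ℝ)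
    (hw1 : ∑ t, w t = 1) (f : T → ℝ) (hf : ∑ t, w t * f t = 0) (v : ℝ)
    (hv : ∑ t, w t * f t ^ 2 ≤ v) (A : Finset D) :
    ∑ s : D → T, (∏ d, w (s d)) * (∑ d ∈ A, f (s d)) ^ 2 ≤ A.card * v := by
  classical
  have h1 : ∀ s : D → T, (∏ d, w (s d)) * (∑ d ∈ A, f (s d)) ^ 2 =
      ∑ d ∈ A, ∑ e ∈ A, (∏ d, w (s d)) * (f (s d) * f (s e)) := by
    intro s
    rw [sq, Finset.sum_mul_sum, Finset.mul_sum]
    refine Finset.sum_congr rfl fun d _ => ?_
    rw [Finset.mul_sum]
  have h2 : ∀ d e : D, d ≠ e →
      ∑ s : D → T, (∏ d, w (s d)) * (f (s d) * f (s e)) = 0 := by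
    intro d e hde
    have h3 := eprod w (fun i t => if i = d ∨ i = e then f t else 1)
    have h4 : ∏ i, ∑ t, w t * (if i = d ∨ i = e then f t else 1) = 0 := by
      apply Finset.prod_eq_zero (Finset.mem_univ d)
      simpa using hf
    rw [h4] at h3
    rw [← h3]
    refine Finset.sum_congr rfl fun s _ => ?_
    congr 1
    have h5 : ∀ i, (if i = d ∨ i = e then f (s i) else 1) =
        (if i = d then f (s i) else 1) * (if i = e then f (s i) else 1) := by
      intro i
      by_cases hi : i = d
      · subst hi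
        simp [hde]
      · simp [hi]
    simp only [h5]
    rw [Finset.prod_mul_distrib, Finset.prod_ite_eq', Finset.prod_ite_eq']
    simp
  have h6 : ∀ d : D, ∑ s : D → T, (∏ d, w (s d)) * (f (s d) * f (s d)) ≤ v := by
    intro d
    have h3 := eprod w (fun i t => if i = d then f t * f t else 1)
    have h4 : ∏ i, ∑ t, w t * (if i = d then f t * f t else 1) = ∑ t, w t * f t ^ 2 := by
      rw [Finset.prod_eq_single d]
      · simp [sq]
      · intro i _ hi
        simp [hi, hw1]
      · simp
    rw [h4] at h3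
    refine le_trans (le_of_eq ?_) hv
    rw [← h3]
    refine Finset.sum_congr rfl fun s _ => ?_
    congr 1
    rw [Finset.prod_ite_eq']
    simp
  calc ∑ s : D → T, (∏ d, w (s d)) * (∑ d ∈ A, f (s d)) ^ 2
      = ∑ d ∈ A, ∑ e ∈ A, ∑ s : D → T, (∏ d, w (s d)) * (f (s d) * f (s e)) := by
        simp only [h1]
        rw [Finset.sum_comm]
        refine Finset.sum_congr rfl fun d _ => ?_
        rw [Finset.sum_comm]
    _ ≤ ∑ d ∈ A, v := by
        refine Finset.sum_le_sum fun d hd => ?_
        rw [Finset.sum_eq_single d]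
        · exact h6 d
        · intro e _ hed
          exact h2 d e (Ne.symm hed)
        · intro h
          exact absurd hd h
    _ = A.card * v := by
        rw [Finset.sum_const, nsmul_eq_mul]

private noncomputable def wt (J : ℕ) (t : Fin (J + 1)) : ℝ :=
  if (t : ℕ) < J then 1 / 2 ^ ((t : ℕ) + 1) else 1 / 2 ^ J

private theorem wt_pos (J : ℕ) (t : Fin (J + 1)) : 0 < wt J t := by
  unfold wt
  split_ifs <;> positivity

private theorem geo (J : ℕ) : ∑ i ∈ range J, (1 : ℝ) / 2 ^ (i + 1) = 1 - 1 / 2 ^ J := by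
  induction J with
  | zero => simp
  | succ n ih =>
    rw [Finset.sum_range_succ, ih, pow_succ]
    field_simp
    ring

private theorem wt_sum (J : ℕ) : ∑ t, wt J t = 1 := by
  rw [Fin.sum_univ_castSucc]
  have h1 : ∀ i : Fin J, wt J i.castSucc = 1 / 2 ^ ((i : ℕ) + 1) := by
    intro i
    unfold wt
    rw [if_pos]
    · rfl
    · exact i.2
  have h2 : wt J (Fin.last J) = 1 / 2 ^ J := by
    unfold wt
    rw [if_neg]
    simp
  rw [h2]
  simp only [h1]
  rw [Fin.sum_univ_eq_sum_range (fun i => (1 : ℝ) / 2 ^ (i + 1)) J, geo]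
  ring

private theorem cheb {D : Type} [Fintype D] [DecidableEq D] (J M j : ℕ) (hM : 1 ≤ M)
    (hj : j < J) (A : Finset D) (hA : M ≤ A.card) :
    ∑ s : D → Fin (J + 1), (∏ d, wt J (s d)) *
      (if 2 ^ (j + 2) * (A.filter (fun d => (s d : ℕ) = j)).card < M then (1 : ℝ) else 0) ≤
      8 * 2 ^ j / M := by
  set p : ℝ := 1 / 2 ^ (j + 1) with hp
  have hp0 : 0 < p := by positivity
  set jj : Fin (J + 1) := ⟨j, by omega⟩ with hjj
  have hwj : wt J jj = p := by
    unfold wt
    rw [if_pos]
    · exact hj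
  set f : Fin (J + 1) → ℝ := fun t => (if t = jj then 1 else 0) - p with hf
  have hA1 : (M : ℝ) ≤ A.card := by exact_mod_cast hA
  have hM1 : (1 : ℝ) ≤ M := by exact_mod_cast hM
  have hf0 : ∑ t, wt J t * f t = 0 := by
    simp only [hf, mul_sub]
    rw [Finset.sum_sub_distrib, ← Finset.sum_mul, wt_sum]
    simp only [mul_ite, mul_one, mul_zero]
    rw [Finset.sum_ite_eq']
    simp [hwj]
  have hf2 : ∑ t, wt J t * f t ^ 2 ≤ p := by
    have h1 : ∀ t, wt J t * f t ^ 2 =
        (if t = jj then wt J t * (1 - 2 * p) else 0) + wt J t * p ^ 2 := by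
      intro t
      simp only [hf]
      split_ifs <;> ring
    simp only [h1]
    rw [Finset.sum_add_distrib, ← Finset.sum_mul, wt_sum, Finset.sum_ite_eq']
    simp only [Finset.mem_univ, if_true, hwj]
    nlinarith [sq_nonneg p]
  have hv := evar (wt J) (wt_sum J) f hf0 p hf2 A
  set m : ℝ := A.card * p with hm
  have hm0 : 0 < m := by
    have : (0 : ℝ) < A.card := by linarith
    positivity
  have hpt : ∀ s : D → Fin (J + 1),
      (if 2 ^ (j + 2) * (A.filter (fun d => (s d : ℕ) = j)).card < M then (1 : ℝ) else 0) ≤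
        4 / m ^ 2 * (∑ d ∈ A, f (s d)) ^ 2 := by
    intro s
    split_ifs with h
    · have h1 : ∑ d ∈ A, f (s d) = (A.filter (fun d => (s d : ℕ) = j)).card - m := by
        simp only [hf]
        rw [Finset.sum_sub_distrib, Finset.sum_const, nsmul_eq_mul, ← hm]
        congr 1
        rw [Finset.card_filter]
        push_cast
        refine Finset.sum_congr rfl fun d _ => ?_
        have : (s d = jj) ↔ ((s d : ℕ) = j) := by
          rw [Fin.ext_iff]
        by_cases hd : s d = jj
        · rw [if_pos hd, if_pos (this.1 hd)]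
        · rw [if_neg hd, if_neg (fun h => hd (this.2 h))]
      have h2 : (2 : ℝ) ^ (j + 2) * ((A.filter (fun d => (s d : ℕ) = j)).card : ℝ) < M := by
        exact_mod_cast h
      set N : ℝ := ((A.filter (fun d => (s d : ℕ) = j)).card : ℝ) with hN
      have h3 : N < m / 2 := by
        have h4 : (2 : ℝ) ^ (j + 2) * N < A.card := lt_of_lt_of_le h2 hA1
        have h5 : m / 2 = A.card / 2 ^ (j + 2) := by
          rw [hm, hp, pow_succ 2 (j + 1)]
          field_simp
        rw [h5, lt_div_iff₀ (by positivity)]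
        linarith
      rw [h1, div_mul_eq_mul_div, le_div_iff₀ (by positivity)]
      nlinarith
    · positivity
  have hW : ∀ s : D → Fin (J + 1), 0 ≤ ∏ d, wt J (s d) := fun s =>
    Finset.prod_nonneg fun d _ => (wt_pos J _).le
  calc _ ≤ ∑ s : D → Fin (J + 1), (∏ d, wt J (s d)) * (4 / m ^ 2 * (∑ d ∈ A, f (s d)) ^ 2) := by
        refine Finset.sum_le_sum fun s _ => ?_
        exact mul_le_mul_of_nonneg_left (hpt s) (hW s)
    _ = 4 / m ^ 2 * ∑ s : D → Fin (J + 1), (∏ d, wt J (s d)) * (∑ d ∈ A, f (s d)) ^ 2 := by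
        rw [Finset.mul_sum]
        refine Finset.sum_congr rfl fun s _ => ?_
        ring
    _ ≤ 4 / m ^ 2 * m := mul_le_mul_of_nonneg_left hv (by positivity)
    _ = 4 / m := by
        field_simp
    _ ≤ 8 * 2 ^ j / M := by
        have h6 : (M : ℝ) * p ≤ m := mul_le_mul_of_nonneg_right hA1 hp0.le
        have h7 : 8 * 2 ^ j / (M : ℝ) = 4 / (M * p) := by
          rw [hp, pow_succ]
          field_simp
          ring
        rw [h7]
        exact div_le_div_of_nonneg_left (by norm_num) (by positivity) h6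

theorem colour {X D : Type} [Fintype X] [DecidableEq X] [Fintype D] [DecidableEq D] (J M : ℕ)
    (hM : 1 ≤ M) (A : X → Finset D) (hA : ∀ x, M ≤ (A x).card) :
    ∃ s : D → ℕ, ((univ.filter (fun x => ∃ j < J,
        2 ^ (j + 2) * ((A x).filter (fun d => s d = j)).card < M)).card : ℝ) ≤
      8 * 2 ^ J / M * Fintype.card X := by
  classical
  by_contra hcon
  push Not at hcon
  have hM0 : (0 : ℝ) < M := by exact_mod_cast hM
  set B : ℝ := 8 * 2 ^ J / M * Fintype.card X with hB
  set bad : (D → Fin (J + 1)) → ℝ := fun s => ((univ.filter (fun x => ∃ j < J,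
        2 ^ (j + 2) * ((A x).filter (fun d => (s d : ℕ) = j)).card < M)).card : ℝ) with hbad
  have h1 : ∀ s, B < bad s := fun s => hcon (fun d => (s d : ℕ))
  have hWp : ∀ s : D → Fin (J + 1), 0 < ∏ d, wt J (s d) := fun s =>
    Finset.prod_pos fun d _ => wt_pos J _
  have hW1 : ∑ s : D → Fin (J + 1), (∏ d, wt J (s d)) = 1 := by
    have := eprod (D := D) (wt J) (fun _ _ => 1)
    simp only [Finset.prod_const_one, mul_one] at this
    rw [this, wt_sum]
    simp
  have h2 : B < ∑ s : D → Fin (J + 1), (∏ d, wt J (s d)) * bad s := by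
    calc B = ∑ s : D → Fin (J + 1), (∏ d, wt J (s d)) * B := by
          rw [← Finset.sum_mul, hW1, one_mul]
      _ < _ := by
          refine Finset.sum_lt_sum_of_nonempty ⟨fun _ => 0, Finset.mem_univ _⟩ fun s _ => ?_
          exact mul_lt_mul_of_pos_left (h1 s) (hWp s)
  have h3 : ∀ s, bad s ≤ ∑ x, ∑ j ∈ range J,
      (if 2 ^ (j + 2) * ((A x).filter (fun d => (s d : ℕ) = j)).card < M then (1 : ℝ) else 0) := by
    intro s
    simp only [hbad]
    rw [Finset.card_filter]
    push_cast
    refine Finset.sum_le_sum fun x _ => ?_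
    split_ifs with h
    · obtain ⟨j, hj, hlt⟩ := h
      have h4 := Finset.single_le_sum (f := fun j =>
        (if 2 ^ (j + 2) * ((A x).filter (fun d => (s d : ℕ) = j)).card < M
        then (1 : ℝ) else 0)) (fun i _ => by positivity) (Finset.mem_range.2 hj)
      simp only [if_pos hlt] at h4
      exact h4
    · refine Finset.sum_nonneg fun i _ => ?_
      split_ifs <;> norm_num
  have h5 : ∑ s : D → Fin (J + 1), (∏ d, wt J (s d)) * bad s ≤ B := by
    calc _ ≤ ∑ s : D → Fin (J + 1), (∏ d, wt J (s d)) * ∑ x, ∑ j ∈ range J,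
      (if 2 ^ (j + 2) * ((A x).filter (fun d => (s d : ℕ) = j)).card < M then (1 : ℝ) else 0) :=
          Finset.sum_le_sum fun s _ => mul_le_mul_of_nonneg_left (h3 s) (hWp s).le
      _ = ∑ x, ∑ j ∈ range J, ∑ s : D → Fin (J + 1), (∏ d, wt J (s d)) *
      (if 2 ^ (j + 2) * ((A x).filter (fun d => (s d : ℕ) = j)).card < M then (1 : ℝ) else 0) := by
          simp only [Finset.mul_sum]
          rw [Finset.sum_comm]
          refine Finset.sum_congr rfl fun x _ => ?_
          rw [Finset.sum_comm]
      _ ≤ ∑ x : X, ∑ j ∈ range J, 8 * 2 ^ j / (M : ℝ) :=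
          Finset.sum_le_sum fun x _ => Finset.sum_le_sum fun j hj =>
            cheb J M j hM (Finset.mem_range.1 hj) (A x) (hA x)
      _ ≤ ∑ x : X, 8 * 2 ^ J / (M : ℝ) := by
          refine Finset.sum_le_sum fun x _ => ?_
          have h6 : ∀ J : ℕ, ∑ j ∈ range J, 8 * 2 ^ j / (M : ℝ) = 8 * (2 ^ J - 1) / M := by
            intro J
            induction J with
            | zero => simp
            | succ n ih =>
              rw [Finset.sum_range_succ, ih, pow_succ]
              field_simp
              ring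
          rw [h6]
          apply div_le_div_of_nonneg_right _ hM0.le
          linarith
      _ = B := by
          rw [Finset.sum_const, nsmul_eq_mul, Finset.card_univ, hB]
          ring
  linarith

end H23A1
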