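import Mathlib

/-! Multi-stage gadget (MP_39270e, A1): definitions.

`mu` is a law on the subsets of the finite set `X` of atoms; `Law mu q del n` says that it looks
like the product law of density `q` on all sets of at most `n` atoms.  A `Stage` is one batch of
parts; the part `d` chooses one label `v`, and its tile `S d v` is the set of all atoms with
that label. -/

namespace H23A1

open Finset

section law

variable {X : Type} [Fintype X] [DecidableEq X]

/-- probability that the random set contains `S` -/
noncomputable def prb (μ : Finset X → ℝ) (S : Finset X) : ℝ :=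
  ∑ U, if S ⊆ U then μ U else 0

/-- the law `μ` looks like the product law of density `q` up to `n` elements, relative error `δ` -/
structure Law (μ : Finset X → ℝ) (q δ : ℝ) (n : ℕ) : Prop where
  nn : ∀ U, 0 ≤ μ U
  one : ∑ U, μ U = 1
  lo : ∀ S : Finset X, S.card ≤ n → (1 - δ) * q ^ S.card ≤ prb μ S
  up : ∀ S : Finset X, S.card ≤ n → prb μ S ≤ (1 + δ) * q ^ S.card

end law

/-- one stage: `T d x` is the label of the atom `x` in the part `d`, `P x` the parts in which `x`
counts, `B d` the allowed labels. -/
structure Stage (X D V : Type) [Fintype X] [DecidableEq X] [Fintype D] [DecidableEq D]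
    [DecidableEq V] where
  T : D → X → V
  P : X → Finset D
  B : D → Finset V
  p : ℕ
  g : ℕ
  K : ℕ
  N : ℕ
  hp : 1 ≤ p
  hg : 1 ≤ g
  hK : 1 ≤ K
  fib : ∀ d v, (univ.filter (fun x => T d x = v)).card ≤ K
  cod : ∀ x x', x ≠ x' → (univ.filter (fun d => T d x = T d x')).card ≤ g
  cP : ∀ x, (P x).card = N
  PB : ∀ x, ∀ d ∈ P x, T d x ∈ B d
  cB : ∀ d, (B d).card ≤ p
  cD : Fintype.card D ≤ g * p

namespace Stage

variable {X D V : Type} [Fintype X] [DecidableEq X] [Fintype D] [DecidableEq D]
  [DecidableEq V] (st : Stage X D V) (q : ℝ)

/-- the tile of the label `v` in the part `d` -/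
def S (d : D) (v : V) : Finset X := univ.filter (fun x => st.T d x = v)

/-- weight of the tile, given that `U` is the uncovered set -/
noncomputable def y (U : Finset X) (d : D) (v : V) : ℝ :=
  if st.S d v ⊆ U then 1 / (2 * st.p * q ^ (st.S d v).card) else 0

/-- total weight in the part `d` -/
noncomputable def Z (U : Finset X) (d : D) : ℝ := ∑ v ∈ st.B d, st.y q U d v

/-- the probability with which the part `d` chooses the label `v` -/
noncomputable def kap (U : Finset X) (d : D) (v : V) : ℝ :=
  if st.Z q U d ≤ 1 then st.y q U d v else 0

/-- total weight of the tiles through the atoms of `R` -/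
noncomputable def Ys (R : Finset X) (U : Finset X) : ℝ :=
  ∑ x ∈ R, ∑ d ∈ st.P x, st.y q U d (st.T d x)

/-- number of parts of too large total weight -/
noncomputable def F (U : Finset X) : ℕ := (univ.filter (fun d => ¬ st.Z q U d ≤ 1)).card

/-- largest possible weight -/
noncomputable def km : ℝ := 1 / (2 * st.p * q ^ st.K)

/-- the labels of the atoms of `R` which count in the part `d` -/
def lab (R : Finset X) (d : D) : Finset V := (R.filter (fun x => d ∈ st.P x)).image (st.T d)

/-- weights of the choices of one part -/
noncomputable def kw (U : Finset X) (d : D) (o : Option V) : ℝ :=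
  o.elim (1 - ∑ v ∈ st.B d, st.kap q U d v) (fun v => if v ∈ st.B d then st.kap q U d v else 0)

/-- the atoms of `U` which are not hit by the choice `e` (in the parts where they count) -/
def rem (U : Finset X) (e : D → Option V) : Finset X :=
  U.filter (fun x => ∀ d ∈ st.P x, e d ≠ some (st.T d x))

end Stage

/-- the factor by which one stage multiplies the error -/
noncomputable def Lam (g K n : ℕ) (q : ℝ) : ℝ :=
  24 * g * (n : ℝ) ^ 3 * K * Real.exp (2 * n) * (1 / q) ^ (n + 2 * K)

/-- the law after the stage -/
noncomputable def push {X D V : Type} [Fintype X] [DecidableEq X] [Fintype D] [DecidableEq D]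
    [Fintype V] [DecidableEq V] (st : Stage X D V) (q : ℝ) (μ : Finset X → ℝ)
    (A : Finset X) : ℝ :=
  ∑ U, ∑ e : D → Option V, if st.rem U e = A then μ U * ∏ d, st.kw q U d (e d) else 0

end H23A1
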