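import Mathlib

/-! Densities of the stages (row G1). -/

namespace H23A1

/-- densities -/
noncomputable def qs (p : ℕ) : ℕ → ℝ
  | 0 => 1
  | j + 1 => qs p j * Real.exp (-((⌈2 * p * qs p j⌉₊ : ℝ) / (2 * p * qs p j)))

/-- number of parts per atom in stage `j` -/
noncomputable def Ns (p j : ℕ) : ℕ := ⌈2 * p * qs p j⌉₊

theorem qs_bounds (p J : ℕ) (hp : Real.exp (2 * J) ≤ p) (j : ℕ) (hj : j ≤ J) :
    Real.exp (-(2 * j : ℝ)) ≤ qs p j ∧ qs p j ≤ Real.exp (-(j : ℝ)) := by
  induction j with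
  | zero => simp [qs]
  | succ j ih =>
    obtain ⟨h1, h2⟩ := ih (by omega)
    have hjJ : ((j : ℝ)) ≤ (J : ℝ) := by
      exact_mod_cast (show j ≤ J by omega)
    have hq : 0 < qs p j := lt_of_lt_of_le (Real.exp_pos _) h1
    have hp0 : (0 : ℝ) < p := lt_of_lt_of_le (Real.exp_pos _) hp
    have hpq : 1 ≤ (p : ℝ) * qs p j := by
      calc (1 : ℝ) = Real.exp (2 * J) * Real.exp (-(2 * J : ℝ)) := by
            rw [← Real.exp_add]; simp
        _ ≤ Real.exp (2 * J) * Real.exp (-(2 * j : ℝ)) := by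
            apply mul_le_mul_of_nonneg_left _ (Real.exp_pos _).le
            apply Real.exp_le_exp.mpr
            linarith
        _ ≤ (p : ℝ) * qs p j := by
            apply mul_le_mul hp h1 (Real.exp_pos _).le hp0.le
    have hpos : 0 < 2 * (p : ℝ) * qs p j := by positivity
    have hr1 : 1 ≤ (⌈2 * p * qs p j⌉₊ : ℝ) / (2 * p * qs p j) := by
      rw [le_div_iff₀ hpos, one_mul]
      exact Nat.le_ceil _
    have hr2 : (⌈2 * p * qs p j⌉₊ : ℝ) / (2 * p * qs p j) ≤ 2 := by
      rw [div_le_iff₀ hpos]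
      have := (Nat.ceil_lt_add_one hpos.le).le
      nlinarith
    constructor
    · calc Real.exp (-(2 * ((j + 1 : ℕ) : ℝ)))
          = Real.exp (-(2 * j : ℝ)) * Real.exp (-2) := by
            rw [← Real.exp_add]; congr 1; push_cast; ring
        _ ≤ qs p j * Real.exp (-((⌈2 * p * qs p j⌉₊ : ℝ) / (2 * p * qs p j))) := by
            apply mul_le_mul h1 _ (Real.exp_pos _).le hq.le
            apply Real.exp_le_exp.mpr
            linarith
        _ = qs p (j + 1) := rfl
    · calc qs p (j + 1) = qs p j * Real.exp (-((⌈2 * p * qs p j⌉₊ : ℝ) / (2 * p * qs p j))) := rfl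
        _ ≤ Real.exp (-(j : ℝ)) * Real.exp (-1) := by
            apply mul_le_mul h2 _ (Real.exp_pos _).le (Real.exp_pos _).le
            apply Real.exp_le_exp.mpr
            linarith
        _ = Real.exp (-((j + 1 : ℕ) : ℝ)) := by
            rw [← Real.exp_add]; congr 1; push_cast; ring

/-- uniform bound for the error factor -/
noncomputable def Lbar (g K J : ℕ) : ℝ :=
  24 * g * (1 + 2 * K * J : ℝ) ^ 3 * K * Real.exp (2 * (1 + 2 * K * J)) *
    Real.exp (2 * J * (1 + 2 * K * J + 2 * K))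

end H23A1
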