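import Mathlib
import Pool.Agent.H23.A1.Defs

/-! First moment of `Ys` (row A). -/

namespace H23A1

open Finset

variable {X D V : Type} [Fintype X] [DecidableEq X] [Fintype D] [DecidableEq D]
  [DecidableEq V] (st : Stage X D V)

/-- few pairs `(x, d)` have a second atom of `R` on the same tile -/
theorem unclean_card (R : Finset X) :
    ((R ×ˢ (univ : Finset D)).filter (fun i =>
      i.2 ∈ st.P i.1 ∧ ∃ x' ∈ R, x' ≠ i.1 ∧ st.T i.2 x' = st.T i.2 i.1)).card ≤
      R.card ^ 2 * st.g := by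
  have hsub : (R ×ˢ (univ : Finset D)).filter (fun i =>
      i.2 ∈ st.P i.1 ∧ ∃ x' ∈ R, x' ≠ i.1 ∧ st.T i.2 x' = st.T i.2 i.1) ⊆
      ((R ×ˢ R).filter (fun z => z.2 ≠ z.1)).biUnion (fun z =>
        (univ.filter (fun d => st.T d z.2 = st.T d z.1)).image (fun d => (z.1, d))) := by
    intro i hi
    rw [Finset.mem_filter, Finset.mem_product] at hi
    obtain ⟨⟨h1, _⟩, _, x', hx', hne, hT⟩ := hi
    rw [Finset.mem_biUnion]
    refine ⟨(i.1, x'), ?_, ?_⟩
    · rw [Finset.mem_filter, Finset.mem_product]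
      exact ⟨⟨h1, hx'⟩, hne⟩
    · rw [Finset.mem_image]
      exact ⟨i.2, by rw [Finset.mem_filter]; exact ⟨Finset.mem_univ _, hT⟩, rfl⟩
  refine le_trans (Finset.card_le_card hsub) ?_
  refine le_trans (Finset.card_biUnion_le_card_mul _ _ st.g ?_) ?_
  · intro z hz
    rw [Finset.mem_filter] at hz
    exact le_trans Finset.card_image_le (st.cod z.2 z.1 hz.2)
  · refine Nat.mul_le_mul_right _ ?_
    refine le_trans (Finset.card_filter_le _ _) ?_
    rw [Finset.card_product, pow_two]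

private theorem sum_swap (μ : Finset X → ℝ) (q : ℝ) (R : Finset X) :
    (∑ U, if R ⊆ U then μ U * st.Ys q R U else 0) =
      ∑ x ∈ R, ∑ d ∈ st.P x, prb μ (R ∪ st.S d (st.T d x)) *
        (1 / (2 * st.p * q ^ (st.S d (st.T d x)).card)) := by
  have h1 : ∀ U : Finset X, (if R ⊆ U then μ U * st.Ys q R U else 0) =
      ∑ x ∈ R, ∑ d ∈ st.P x, (if R ∪ st.S d (st.T d x) ⊆ U then μ U else 0) *
        (1 / (2 * st.p * q ^ (st.S d (st.T d x)).card)) := by
    intro U
    by_cases hU : R ⊆ U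
    · rw [if_pos hU, Stage.Ys, Finset.mul_sum]
      refine Finset.sum_congr rfl fun x _ => ?_
      rw [Finset.mul_sum]
      refine Finset.sum_congr rfl fun d _ => ?_
      unfold Stage.y
      by_cases hS : st.S d (st.T d x) ⊆ U
      · rw [if_pos hS, if_pos (Finset.union_subset hU hS)]
      · rw [if_neg hS, if_neg (fun h => hS (Finset.union_subset_right h))]
        ring
    · rw [if_neg hU]
      symm
      refine Finset.sum_eq_zero fun x _ => Finset.sum_eq_zero fun d _ => ?_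
      rw [if_neg (fun h => hU (Finset.union_subset_left h)), zero_mul]
  rw [Finset.sum_congr rfl (fun U _ => h1 U), Finset.sum_comm]
  refine Finset.sum_congr rfl fun x _ => ?_
  rw [Finset.sum_comm]
  refine Finset.sum_congr rfl fun d _ => ?_
  rw [prb, Finset.sum_mul]

private theorem mem_tile (d : D) (x : X) : x ∈ st.S d (st.T d x) := by
  unfold Stage.S
  rw [Finset.mem_filter]
  exact ⟨Finset.mem_univ _, rfl⟩

private theorem card_tile (d : D) (v : V) : (st.S d v).card ≤ st.K := st.fib d v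

private theorem p_pos : (0 : ℝ) < 2 * st.p := by
  have h : (1 : ℝ) ≤ st.p := by exact_mod_cast st.hp
  linarith

private theorem prb_mono (μ : Finset X → ℝ) (hμ : ∀ U, 0 ≤ μ U) (S S' : Finset X)
    (h : S ⊆ S') : prb μ S' ≤ prb μ S := by
  unfold prb
  refine Finset.sum_le_sum fun U _ => ?_
  by_cases h1 : S' ⊆ U
  · rw [if_pos h1, if_pos (h.trans h1)]
  · rw [if_neg h1]
    split_ifs
    · exact hμ U
    · exact le_refl _

private theorem card_union_tile (R : Finset X) (d : D) (x : X) (hx : x ∈ R) :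
    (R ∪ st.S d (st.T d x)).card + 1 ≤ R.card + (st.S d (st.T d x)).card := by
  rw [← Finset.card_union_add_card_inter]
  have : 1 ≤ (R ∩ st.S d (st.T d x)).card :=
    Finset.card_pos.mpr ⟨x, Finset.mem_inter.mpr ⟨hx, mem_tile st d x⟩⟩
  omega

theorem mom1_lo (μ : Finset X → ℝ) (q δ : ℝ) (n : ℕ) (hq : 0 < q) (hq1 : q ≤ 1) (hδ : δ ≤ 1)
    (hL : Law μ q δ (n + 2 * st.K)) (R : Finset X) (hR : R.card ≤ n) :
    (1 - δ) * q ^ R.card * (R.card * st.N / (2 * st.p * q)) ≤
      ∑ U, if R ⊆ U then μ U * st.Ys q R U else 0 := by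
  rw [sum_swap]
  have hp := p_pos st
  have hterm : ∀ x ∈ R, ∀ d ∈ st.P x, (1 - δ) * q ^ R.card * (1 / (2 * st.p * q)) ≤
      prb μ (R ∪ st.S d (st.T d x)) * (1 / (2 * st.p * q ^ (st.S d (st.T d x)).card)) := by
    intro x hx d _
    have h1 := card_union_tile st R d x hx
    have h2 := card_tile st d (st.T d x)
    have h3 : 1 ≤ (st.S d (st.T d x)).card := Finset.card_pos.mpr ⟨x, mem_tile st d x⟩
    obtain ⟨b, hb⟩ : ∃ b, (st.S d (st.T d x)).card = b + 1 :=
      ⟨(st.S d (st.T d x)).card - 1, by omega⟩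
    have h4 := hL.lo (R ∪ st.S d (st.T d x)) (by omega)
    have h5 : q ^ (R.card + b) ≤ q ^ (R ∪ st.S d (st.T d x)).card :=
      pow_le_pow_of_le_one hq.le hq1 (by omega)
    rw [hb]
    have h6 : (1 - δ) * q ^ R.card * (1 / (2 * st.p * q)) =
        (1 - δ) * q ^ (R.card + b) * (1 / (2 * st.p * q ^ (b + 1))) := by
      rw [pow_add, pow_succ q b]
      have hq0 : q ≠ 0 := hq.ne'
      have hb0 : q ^ b ≠ 0 := pow_ne_zero _ hq0
      have hp0 : (2 * (st.p : ℝ)) ≠ 0 := hp.ne'
      field_simp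
    rw [h6]
    refine mul_le_mul_of_nonneg_right ?_ (by positivity)
    exact le_trans (mul_le_mul_of_nonneg_left h5 (by linarith)) h4
  have hs : ∑ x ∈ R, ∑ _d ∈ st.P x, (1 - δ) * q ^ R.card * (1 / (2 * st.p * q)) ≤
      ∑ x ∈ R, ∑ d ∈ st.P x, prb μ (R ∪ st.S d (st.T d x)) *
        (1 / (2 * st.p * q ^ (st.S d (st.T d x)).card)) :=
    Finset.sum_le_sum fun x hx => Finset.sum_le_sum fun d hd => hterm x hx d hd
  refine le_trans (le_of_eq ?_) hs
  have h7 : ∀ x ∈ R, ∑ _d ∈ st.P x, (1 - δ) * q ^ R.card * (1 / (2 * st.p * q)) =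
      st.N * ((1 - δ) * q ^ R.card * (1 / (2 * st.p * q))) := by
    intro x _
    rw [Finset.sum_const, st.cP x, nsmul_eq_mul]
  rw [Finset.sum_congr rfl h7, Finset.sum_const, nsmul_eq_mul]
  ring

theorem mom1_up (μ : Finset X → ℝ) (q δ : ℝ) (n : ℕ) (hq : 0 < q) (hq1 : q ≤ 1) (hδ : 0 ≤ δ)
    (hL : Law μ q δ (n + 2 * st.K)) (R : Finset X) (hR : R.card ≤ n) :
    (∑ U, if R ⊆ U then μ U * st.Ys q R U else 0) ≤
      (1 + δ) * q ^ R.card * (R.card * st.N / (2 * st.p * q) + R.card ^ 2 * st.g * st.km q) := by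
  classical
  rw [sum_swap]
  have hp := p_pos st
  have hkm : 0 ≤ st.km q := by
    unfold Stage.km
    positivity
  have hterm : ∀ x ∈ R, ∀ d ∈ st.P x,
      prb μ (R ∪ st.S d (st.T d x)) * (1 / (2 * st.p * q ^ (st.S d (st.T d x)).card)) ≤
      (1 + δ) * q ^ R.card * (1 / (2 * st.p * q)) +
        (if ∃ x' ∈ R, x' ≠ x ∧ st.T d x' = st.T d x then (1 + δ) * q ^ R.card * st.km q
          else 0) := by
    intro x hx d _
    have h1 := card_union_tile st R d x hx
    have h2 := card_tile st d (st.T d x)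
    have h3 : 1 ≤ (st.S d (st.T d x)).card := Finset.card_pos.mpr ⟨x, mem_tile st d x⟩
    by_cases hun : ∃ x' ∈ R, x' ≠ x ∧ st.T d x' = st.T d x
    · rw [if_pos hun]
      have h4 : prb μ (R ∪ st.S d (st.T d x)) ≤ (1 + δ) * q ^ R.card :=
        le_trans (prb_mono μ hL.nn _ _ Finset.subset_union_left) (hL.up R (by omega))
      have h5 : 1 / (2 * st.p * q ^ (st.S d (st.T d x)).card) ≤ st.km q := by
        unfold Stage.km
        refine one_div_le_one_div_of_le (by positivity) ?_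
        exact mul_le_mul_of_nonneg_left (pow_le_pow_of_le_one hq.le hq1 h2) hp.le
      have h6 : prb μ (R ∪ st.S d (st.T d x)) *
          (1 / (2 * st.p * q ^ (st.S d (st.T d x)).card)) ≤
          (1 + δ) * q ^ R.card * st.km q :=
        mul_le_mul h4 h5 (by positivity) (by positivity)
      have h7 : 0 ≤ (1 + δ) * q ^ R.card * (1 / (2 * st.p * q)) := by positivity
      linarith
    · rw [if_neg hun, add_zero]
      have hint : R ∩ st.S d (st.T d x) = {x} := by
        ext y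
        rw [Finset.mem_inter, Finset.mem_singleton]
        constructor
        · rintro ⟨hy1, hy2⟩
          by_contra hne
          unfold Stage.S at hy2
          rw [Finset.mem_filter] at hy2
          exact hun ⟨y, hy1, hne, hy2.2⟩
        · rintro rfl
          exact ⟨hx, mem_tile st d y⟩
      have h4 := Finset.card_union_add_card_inter R (st.S d (st.T d x))
      rw [hint, Finset.card_singleton] at h4
      obtain ⟨b, hb⟩ : ∃ b, (st.S d (st.T d x)).card = b + 1 :=
      ⟨(st.S d (st.T d x)).card - 1, by omega⟩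
      have h5 : (R ∪ st.S d (st.T d x)).card = R.card + b := by omega
      have h6 := hL.up (R ∪ st.S d (st.T d x)) (by omega)
      rw [h5] at h6
      rw [hb]
      have h8 : (1 + δ) * q ^ R.card * (1 / (2 * st.p * q)) =
          (1 + δ) * q ^ (R.card + b) * (1 / (2 * st.p * q ^ (b + 1))) := by
        rw [pow_add, pow_succ q b]
        have hq0 : q ≠ 0 := hq.ne'
        have hb0 : q ^ b ≠ 0 := pow_ne_zero _ hq0
        have hp0 : (2 * (st.p : ℝ)) ≠ 0 := hp.ne'
        field_simp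
      rw [h8]
      exact mul_le_mul_of_nonneg_right h6 (by positivity)
  have hs : ∑ x ∈ R, ∑ d ∈ st.P x, prb μ (R ∪ st.S d (st.T d x)) *
        (1 / (2 * st.p * q ^ (st.S d (st.T d x)).card)) ≤
      ∑ x ∈ R, ∑ d ∈ st.P x, ((1 + δ) * q ^ R.card * (1 / (2 * st.p * q)) +
        (if ∃ x' ∈ R, x' ≠ x ∧ st.T d x' = st.T d x then (1 + δ) * q ^ R.card * st.km q
          else 0)) :=
    Finset.sum_le_sum fun x hx => Finset.sum_le_sum fun d hd => hterm x hx d hd
  refine le_trans hs ?_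
  have h7 : ∀ x ∈ R, ∑ d ∈ st.P x, ((1 + δ) * q ^ R.card * (1 / (2 * st.p * q)) +
        (if ∃ x' ∈ R, x' ≠ x ∧ st.T d x' = st.T d x then (1 + δ) * q ^ R.card * st.km q
          else 0)) =
      st.N * ((1 + δ) * q ^ R.card * (1 / (2 * st.p * q))) +
      ∑ d : D, (if d ∈ st.P x ∧ ∃ x' ∈ R, x' ≠ x ∧ st.T d x' = st.T d x then
        (1 + δ) * q ^ R.card * st.km q else 0) := by
    intro x _
    rw [Finset.sum_add_distrib, Finset.sum_const, st.cP x, nsmul_eq_mul]
    congr 1
    rw [← Finset.sum_filter, ← Finset.sum_filter]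
    refine Finset.sum_congr ?_ fun _ _ => rfl
    ext d
    rw [Finset.mem_filter, Finset.mem_filter]
    exact ⟨fun h => ⟨Finset.mem_univ _, h.1, h.2⟩, fun h => ⟨h.2.1, h.2.2⟩⟩
  rw [Finset.sum_congr rfl h7, Finset.sum_add_distrib, Finset.sum_const, nsmul_eq_mul,
    ← Finset.sum_product' R (univ : Finset D) (fun x d =>
      if d ∈ st.P x ∧ ∃ x' ∈ R, x' ≠ x ∧ st.T d x' = st.T d x then
        (1 + δ) * q ^ R.card * st.km q else 0), ← Finset.sum_filter, Finset.sum_const,
    nsmul_eq_mul]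
  have hc := unclean_card st R
  have hc' : (((R ×ˢ (univ : Finset D)).filter (fun i =>
      i.2 ∈ st.P i.1 ∧ ∃ x' ∈ R, x' ≠ i.1 ∧ st.T i.2 x' = st.T i.2 i.1)).card : ℝ) ≤
      (R.card : ℝ) ^ 2 * st.g := by exact_mod_cast hc
  have h9 := mul_le_mul_of_nonneg_right hc'
    (show 0 ≤ (1 + δ) * q ^ R.card * st.km q by positivity)
  calc _ ≤ (R.card : ℝ) * (st.N * ((1 + δ) * q ^ R.card * (1 / (2 * st.p * q)))) +
        (R.card : ℝ) ^ 2 * st.g * ((1 + δ) * q ^ R.card * st.km q) := by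
          gcongr
    _ = _ := by ring

end H23A1
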