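import Mathlib
import Pool.Agent.H23.A1.Defs

/-! Second moment of `Ys` (row B). -/

namespace H23A1

open Finset

variable {X D V : Type} [Fintype X] [DecidableEq X] [Fintype D] [DecidableEq D]
  [DecidableEq V] (st : Stage X D V)

/-- number of parts of `E` in which the two different atoms have the same label -/
private theorem sum_cod (x x' : X) (E : Finset D) :
    (∑ d ∈ E, (if x' ≠ x ∧ st.T d x' = st.T d x then 1 else 0)) ≤ st.g := by
  by_cases h : x' = x
  · simp [h]
  · have h1 : (∑ d ∈ E, (if x' ≠ x ∧ st.T d x' = st.T d x then 1 else 0)) =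
        (E.filter (fun d => st.T d x' = st.T d x)).card := by
      rw [Finset.card_filter]
      apply sum_congr rfl
      intro d _
      simp [h]
    rw [h1]
    exact le_trans (card_le_card (filter_subset_filter _ (subset_univ _))) (st.cod x' x h)

/-- weight of a bad pair -/
private def Bd (R : Finset X) (x : X) (d : D) (x' : X) (d' : D) : ℕ :=
  (∑ z ∈ R, if z ≠ x ∧ st.T d z = st.T d x then 1 else 0) +
    (∑ z ∈ R, if z ≠ x' ∧ st.T d' z = st.T d' x' then 1 else 0) +
    ∑ z ∈ st.S d (st.T d x), if z ≠ x' ∧ st.T d' z = st.T d' x' then 1 else 0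

private theorem prb_mono (μ : Finset X → ℝ) (h : ∀ U, 0 ≤ μ U) {S T : Finset X} (hST : S ⊆ T) :
    prb μ T ≤ prb μ S := by
  unfold prb
  apply sum_le_sum
  intro U _
  by_cases hT : T ⊆ U
  · rw [if_pos hT, if_pos (hST.trans hT)]
  · rw [if_neg hT]
    split_ifs
    · exact h U
    · exact le_refl _

private theorem term_eq (μ : Finset X → ℝ) (q : ℝ) (R : Finset X) (d d' : D) (v v' : V) :
    (∑ U, if R ⊆ U then μ U * (st.y q U d v * st.y q U d' v') else 0) =
      1 / (2 * st.p * q ^ (st.S d v).card) * (1 / (2 * st.p * q ^ (st.S d' v').card)) *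
        prb μ (R ∪ st.S d v ∪ st.S d' v') := by
  unfold prb
  rw [mul_sum]
  apply sum_congr rfl
  intro U _
  unfold Stage.y
  by_cases h1 : R ⊆ U
  · by_cases h2 : st.S d v ⊆ U
    · by_cases h3 : st.S d' v' ⊆ U
      · rw [if_pos h1, if_pos h2, if_pos h3, if_pos (union_subset (union_subset h1 h2) h3)]
        ring
      · rw [if_pos h1, if_neg h3, if_neg (fun h => h3 (subset_union_right.trans h))]
        ring
    · rw [if_pos h1, if_neg h2,
        if_neg (fun h => h2 (subset_union_right.trans (subset_union_left.trans h)))]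
      ring
  · rw [if_neg h1, if_neg (fun h => h1 (subset_union_left.trans (subset_union_left.trans h)))]
    ring

private theorem card_good (R A A' : Finset X) (x x' : X) (hx : x ∈ R) (hx' : x' ∈ R)
    (hA : x ∈ A) (hA' : x' ∈ A') (h1 : ∀ z ∈ R, z ∈ A → z = x) (h2 : ∀ z ∈ R, z ∈ A' → z = x')
    (h3 : ∀ z ∈ A, z ∈ A' → z = x') :
    (R ∪ A ∪ A').card + 2 = R.card + A.card + A'.card := by
  have e : R ∪ A ∪ A' = R ∪ (A.erase x ∪ A'.erase x') := by
    ext z
    simp only [mem_union, mem_erase]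
    constructor
    · rintro ((h | h) | h)
      · exact Or.inl h
      · by_cases hz : z = x
        · subst hz
          exact Or.inl hx
        · exact Or.inr (Or.inl ⟨hz, h⟩)
      · by_cases hz : z = x'
        · subst hz
          exact Or.inl hx'
        · exact Or.inr (Or.inr ⟨hz, h⟩)
    · rintro (h | ⟨_, h⟩ | ⟨_, h⟩)
      · exact Or.inl (Or.inl h)
      · exact Or.inl (Or.inr h)
      · exact Or.inr h
  have d1 : Disjoint (A.erase x) (A'.erase x') := by
    rw [disjoint_left]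
    intro z hz hz'
    rw [mem_erase] at hz hz'
    exact hz'.1 (h3 z hz.2 hz'.2)
  have d2 : Disjoint R (A.erase x ∪ A'.erase x') := by
    rw [disjoint_left]
    intro z hz hz'
    rw [mem_union, mem_erase, mem_erase] at hz'
    rcases hz' with hz' | hz'
    · exact hz'.1 (h1 z hz hz'.2)
    · exact hz'.1 (h2 z hz hz'.2)
  have c1 := card_erase_add_one hA
  have c2 := card_erase_add_one hA'
  rw [e, card_union_of_disjoint d2, card_union_of_disjoint d1]
  omega

private theorem term_le (μ : Finset X → ℝ) (q δ : ℝ) (n : ℕ) (hq : 0 < q) (hq1 : q ≤ 1)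
    (hδ : 0 ≤ δ) (hL : Law μ q δ (n + 2 * st.K)) (R : Finset X) (hR : R.card ≤ n)
    (x x' : X) (d d' : D) (hx : x ∈ R) (hx' : x' ∈ R) :
    (∑ U, if R ⊆ U then
      μ U * (st.y q U d (st.T d x) * st.y q U d' (st.T d' x')) else 0) ≤
      (1 + δ) * q ^ R.card * ((1 / (2 * st.p * q)) ^ 2 +
        (Bd st R x d x' d' : ℝ) * st.km q ^ 2) := by
  rw [term_eq]
  set A := st.S d (st.T d x) with hAdef
  set A' := st.S d' (st.T d' x') with hAdef'
  have hp : (0 : ℝ) < st.p := by
    have := st.hp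
    exact_mod_cast this
  have hxA : x ∈ A := by simp [hAdef, Stage.S]
  have hxA' : x' ∈ A' := by simp [hAdef', Stage.S]
  have hAK : A.card ≤ st.K := st.fib d _
  have hAK' : A'.card ≤ st.K := st.fib d' _
  have hcard : (R ∪ A ∪ A').card ≤ n + 2 * st.K := by
    have e1 := card_union_le (R ∪ A) A'
    have e2 := card_union_le R A
    omega
  have w0 : 0 < 1 / (2 * (st.p : ℝ) * q ^ A.card) := by positivity
  have w0' : 0 < 1 / (2 * (st.p : ℝ) * q ^ A'.card) := by positivity
  have hkm : 0 < st.km q := by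
    unfold Stage.km
    positivity
  by_cases hB : Bd st R x d x' d' = 0
  · have hB' := hB
    unfold Bd at hB'
    have b1 : (∑ z ∈ R, if z ≠ x ∧ st.T d z = st.T d x then 1 else 0) = 0 := by omega
    have b2 : (∑ z ∈ R, if z ≠ x' ∧ st.T d' z = st.T d' x' then 1 else 0) = 0 := by omega
    have b3 : (∑ z ∈ st.S d (st.T d x), if z ≠ x' ∧ st.T d' z = st.T d' x' then 1 else 0) = 0 := by
      omega
    rw [sum_eq_zero_iff] at b1 b2 b3
    have h1 : ∀ z ∈ R, z ∈ A → z = x := by
      intro z hz hzA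
      by_contra hne
      have := b1 z hz
      have hT : st.T d z = st.T d x := by
        simpa [hAdef, Stage.S] using hzA
      rw [if_pos ⟨hne, hT⟩] at this
      exact one_ne_zero this
    have h2 : ∀ z ∈ R, z ∈ A' → z = x' := by
      intro z hz hzA
      by_contra hne
      have := b2 z hz
      have hT : st.T d' z = st.T d' x' := by
        simpa [hAdef', Stage.S] using hzA
      rw [if_pos ⟨hne, hT⟩] at this
      exact one_ne_zero this
    have h3 : ∀ z ∈ A, z ∈ A' → z = x' := by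
      intro z hz hzA
      by_contra hne
      have := b3 z hz
      have hT : st.T d' z = st.T d' x' := by
        simpa [hAdef', Stage.S] using hzA
      rw [if_pos ⟨hne, hT⟩] at this
      exact one_ne_zero this
    have hc := card_good R A A' x x' hx hx' hxA hxA' h1 h2 h3
    have ha : 1 ≤ A.card := card_pos.2 ⟨x, hxA⟩
    have ha' : 1 ≤ A'.card := card_pos.2 ⟨x', hxA'⟩
    obtain ⟨a, ha⟩ := Nat.exists_eq_add_of_le' ha
    obtain ⟨a', ha'⟩ := Nat.exists_eq_add_of_le' ha'
    have hc2 : (R ∪ A ∪ A').card = R.card + a + a' := by omega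
    have hup := hL.up (R ∪ A ∪ A') hcard
    rw [hc2] at hup
    calc 1 / (2 * (st.p : ℝ) * q ^ A.card) * (1 / (2 * (st.p : ℝ) * q ^ A'.card)) *
          prb μ (R ∪ A ∪ A')
        ≤ 1 / (2 * (st.p : ℝ) * q ^ A.card) * (1 / (2 * (st.p : ℝ) * q ^ A'.card)) *
          ((1 + δ) * q ^ (R.card + a + a')) :=
          mul_le_mul_of_nonneg_left hup (mul_pos w0 w0').le
      _ = (1 + δ) * q ^ R.card * ((1 / (2 * st.p * q)) ^ 2 +
            (Bd st R x d x' d' : ℝ) * st.km q ^ 2) := by
          rw [hB, ha, ha']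
          have hq0 : q ≠ 0 := hq.ne'
          have hp0 : (st.p : ℝ) ≠ 0 := hp.ne'
          rw [pow_add q (R.card + a) a', pow_add q R.card a, pow_succ q a, pow_succ q a']
          push_cast
          field_simp
          ring
  · have hB1 : (1 : ℝ) ≤ (Bd st R x d x' d' : ℝ) := by
      have : 1 ≤ Bd st R x d x' d' := Nat.one_le_iff_ne_zero.2 hB
      exact_mod_cast this
    have hw : ∀ m : ℕ, m ≤ st.K → 1 / (2 * (st.p : ℝ) * q ^ m) ≤ st.km q := by
      intro m hm
      unfold Stage.km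
      apply one_div_le_one_div_of_le (by positivity)
      apply mul_le_mul_of_nonneg_left _ (by positivity)
      exact pow_le_pow_of_le_one hq.le hq1 hm
    have hpr : prb μ (R ∪ A ∪ A') ≤ (1 + δ) * q ^ R.card :=
      le_trans (prb_mono μ hL.nn (subset_union_left.trans subset_union_left))
        (hL.up R (by omega))
    have hpos : 0 ≤ (1 + δ) * q ^ R.card := by positivity
    have hpr0 : 0 ≤ prb μ (R ∪ A ∪ A') := by
      unfold prb
      apply sum_nonneg
      intro U _
      split_ifs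
      · exact hL.nn U
      · exact le_refl _
    calc 1 / (2 * (st.p : ℝ) * q ^ A.card) * (1 / (2 * (st.p : ℝ) * q ^ A'.card)) *
          prb μ (R ∪ A ∪ A')
        ≤ (st.km q * st.km q) * ((1 + δ) * q ^ R.card) := by
          apply mul_le_mul _ hpr hpr0 (mul_pos hkm hkm).le
          exact mul_le_mul (hw _ hAK) (hw _ hAK') w0'.le hkm.le
      _ = (1 + δ) * q ^ R.card * (1 * st.km q ^ 2) := by ring
      _ ≤ (1 + δ) * q ^ R.card * ((1 / (2 * st.p * q)) ^ 2 +
            (Bd st R x d x' d' : ℝ) * st.km q ^ 2) := by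
          apply mul_le_mul_of_nonneg_left _ hpos
          have e1 : 1 * st.km q ^ 2 ≤ (Bd st R x d x' d' : ℝ) * st.km q ^ 2 :=
            mul_le_mul_of_nonneg_right hB1 (by positivity)
          have e2 : 0 ≤ (1 / (2 * (st.p : ℝ) * q)) ^ 2 := by positivity
          linarith

private theorem sum_U1 (R : Finset X) :
    (∑ x ∈ R, ∑ d ∈ st.P x, ∑ z ∈ R, if z ≠ x ∧ st.T d z = st.T d x then 1 else 0) ≤
      R.card * (R.card * st.g) := by
  have h : ∀ x ∈ R, (∑ d ∈ st.P x, ∑ z ∈ R, if z ≠ x ∧ st.T d z = st.T d x then 1 else 0) ≤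
      R.card * st.g := by
    intro x _
    rw [sum_comm]
    calc (∑ z ∈ R, ∑ d ∈ st.P x, if z ≠ x ∧ st.T d z = st.T d x then 1 else 0)
        ≤ ∑ _z ∈ R, st.g := sum_le_sum (fun z _ => sum_cod st x z _)
      _ = R.card * st.g := by rw [sum_const, smul_eq_mul]
  calc _ ≤ ∑ _x ∈ R, R.card * st.g := sum_le_sum h
    _ = _ := by rw [sum_const, smul_eq_mul]

private theorem sum_C (R A : Finset X) (hA : A.card ≤ st.K) :
    (∑ x ∈ R, ∑ d ∈ st.P x, ∑ z ∈ A, if z ≠ x ∧ st.T d z = st.T d x then 1 else 0) ≤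
      R.card * (st.K * st.g) := by
  have h : ∀ x ∈ R, (∑ d ∈ st.P x, ∑ z ∈ A, if z ≠ x ∧ st.T d z = st.T d x then 1 else 0) ≤
      st.K * st.g := by
    intro x _
    rw [sum_comm]
    calc (∑ z ∈ A, ∑ d ∈ st.P x, if z ≠ x ∧ st.T d z = st.T d x then 1 else 0)
        ≤ ∑ _z ∈ A, st.g := sum_le_sum (fun z _ => sum_cod st x z _)
      _ = A.card * st.g := by rw [sum_const, smul_eq_mul]
      _ ≤ st.K * st.g := Nat.mul_le_mul_right _ hA
  calc _ ≤ ∑ _x ∈ R, st.K * st.g := sum_le_sum h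
    _ = _ := by rw [sum_const, smul_eq_mul]

private theorem sum_Bd (R : Finset X) :
    (∑ x ∈ R, ∑ d ∈ st.P x, ∑ x' ∈ R, ∑ d' ∈ st.P x', Bd st R x d x' d') ≤
      R.card ^ 2 * st.N * st.g * (st.K + 2 * R.card) := by
  have hN : ∀ c : ℕ, (∑ x ∈ R, ∑ _d ∈ st.P x, c) = R.card * (st.N * c) := by
    intro c
    have : ∀ x ∈ R, (∑ _d ∈ st.P x, c) = st.N * c := by
      intro x _
      rw [sum_const, smul_eq_mul, st.cP]
    rw [sum_congr rfl this, sum_const, smul_eq_mul]
  have hin : ∀ x ∈ R, ∀ d ∈ st.P x, (∑ x' ∈ R, ∑ d' ∈ st.P x', Bd st R x d x' d') ≤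
      R.card * (st.N * ∑ z ∈ R, if z ≠ x ∧ st.T d z = st.T d x then 1 else 0) +
        R.card * (R.card * st.g) + R.card * (st.K * st.g) := by
    intro x _ d _
    unfold Bd
    simp only [sum_add_distrib]
    rw [hN]
    have e1 := sum_U1 st R
    have e2 := sum_C st R (st.S d (st.T d x)) (st.fib d _)
    omega
  calc (∑ x ∈ R, ∑ d ∈ st.P x, ∑ x' ∈ R, ∑ d' ∈ st.P x', Bd st R x d x' d')
      ≤ ∑ x ∈ R, ∑ d ∈ st.P x,
        (R.card * (st.N * ∑ z ∈ R, if z ≠ x ∧ st.T d z = st.T d x then 1 else 0) +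
          R.card * (R.card * st.g) + R.card * (st.K * st.g)) :=
        sum_le_sum (fun x hx => sum_le_sum (fun d hd => hin x hx d hd))
    _ = R.card * (st.N * ∑ x ∈ R, ∑ d ∈ st.P x, ∑ z ∈ R,
          if z ≠ x ∧ st.T d z = st.T d x then 1 else 0) +
          R.card * (st.N * (R.card * (R.card * st.g))) +
          R.card * (st.N * (R.card * (st.K * st.g))) := by
        simp only [sum_add_distrib]
        rw [hN, hN]
        simp only [mul_sum]
    _ ≤ R.card * (st.N * (R.card * (R.card * st.g))) +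
          R.card * (st.N * (R.card * (R.card * st.g))) +
          R.card * (st.N * (R.card * (st.K * st.g))) := by
        have e1 := sum_U1 st R
        gcongr
    _ = R.card ^ 2 * st.N * st.g * (st.K + 2 * R.card) := by ring

theorem mom2_up (μ : Finset X → ℝ) (q δ : ℝ) (n : ℕ) (hq : 0 < q) (hq1 : q ≤ 1) (hδ : 0 ≤ δ)
    (hL : Law μ q δ (n + 2 * st.K)) (R : Finset X) (hR : R.card ≤ n) :
    (∑ U, if R ⊆ U then μ U * (st.Ys q R U) ^ 2 else 0) ≤
      (1 + δ) * q ^ R.card * ((R.card * st.N / (2 * st.p * q)) ^ 2 +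
        R.card ^ 2 * st.N * st.g * (st.K + 2 * R.card) * st.km q ^ 2) := by
  have hsq : ∀ U : Finset X, (st.Ys q R U) ^ 2 = ∑ x ∈ R, ∑ d ∈ st.P x, ∑ x' ∈ R,
      ∑ d' ∈ st.P x', st.y q U d (st.T d x) * st.y q U d' (st.T d' x') := by
    intro U
    unfold Stage.Ys
    rw [sq, sum_mul]
    apply sum_congr rfl
    intro x _
    rw [sum_mul]
    apply sum_congr rfl
    intro d _
    rw [mul_sum]
    apply sum_congr rfl
    intro x' _
    rw [mul_sum]
  have hex : (∑ U, if R ⊆ U then μ U * (st.Ys q R U) ^ 2 else 0) =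
      ∑ x ∈ R, ∑ d ∈ st.P x, ∑ x' ∈ R, ∑ d' ∈ st.P x',
        ∑ U, if R ⊆ U then
          μ U * (st.y q U d (st.T d x) * st.y q U d' (st.T d' x')) else 0 := by
    have h1 : ∀ U : Finset X, (if R ⊆ U then μ U * (st.Ys q R U) ^ 2 else 0) =
        ∑ x ∈ R, ∑ d ∈ st.P x, ∑ x' ∈ R, ∑ d' ∈ st.P x',
          if R ⊆ U then
            μ U * (st.y q U d (st.T d x) * st.y q U d' (st.T d' x')) else 0 := by
      intro U
      split_ifs with h
      · rw [hsq U]
        simp only [mul_sum]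
      · simp
    rw [sum_congr rfl (fun U _ => h1 U), sum_comm]
    apply sum_congr rfl
    intro x _
    rw [sum_comm]
    apply sum_congr rfl
    intro d _
    rw [sum_comm]
    apply sum_congr rfl
    intro x' _
    rw [sum_comm]
  rw [hex]
  have hpos : 0 ≤ (1 + δ) * q ^ R.card := by positivity
  have hcast : ((∑ x ∈ R, ∑ d ∈ st.P x, ∑ x' ∈ R, ∑ d' ∈ st.P x',
      Bd st R x d x' d' : ℕ) : ℝ) ≤
      R.card ^ 2 * st.N * st.g * (st.K + 2 * R.card) := by
    have := sum_Bd st R
    exact_mod_cast this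
  have hcon : ∀ c : ℝ, (∑ x ∈ R, ∑ _d ∈ st.P x, c) = R.card * (st.N * c) := by
    intro c
    have : ∀ x ∈ R, (∑ _d ∈ st.P x, c) = st.N * c := by
      intro x _
      rw [sum_const, nsmul_eq_mul, st.cP]
    rw [sum_congr rfl this, sum_const, nsmul_eq_mul]
  calc (∑ x ∈ R, ∑ d ∈ st.P x, ∑ x' ∈ R, ∑ d' ∈ st.P x',
        ∑ U, if R ⊆ U then
          μ U * (st.y q U d (st.T d x) * st.y q U d' (st.T d' x')) else 0)
      ≤ ∑ x ∈ R, ∑ d ∈ st.P x, ∑ x' ∈ R, ∑ d' ∈ st.P x',
        ((1 + δ) * q ^ R.card * ((1 / (2 * st.p * q)) ^ 2 +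
          (Bd st R x d x' d' : ℝ) * st.km q ^ 2)) :=
        sum_le_sum (fun x hx => sum_le_sum (fun d _ => sum_le_sum (fun x' hx' =>
          sum_le_sum (fun d' _ => term_le st μ q δ n hq hq1 hδ hL R hR x x' d d' hx hx'))))
    _ = (1 + δ) * q ^ R.card * ((R.card * st.N / (2 * st.p * q)) ^ 2 +
          ((∑ x ∈ R, ∑ d ∈ st.P x, ∑ x' ∈ R, ∑ d' ∈ st.P x',
            Bd st R x d x' d' : ℕ) : ℝ) * st.km q ^ 2) := by
        simp only [← mul_sum, sum_add_distrib, ← sum_mul]
        rw [hcon, hcon]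
        push_cast
        ring
    _ ≤ (1 + δ) * q ^ R.card * ((R.card * st.N / (2 * st.p * q)) ^ 2 +
        R.card ^ 2 * st.N * st.g * (st.K + 2 * R.card) * st.km q ^ 2) := by
        apply mul_le_mul_of_nonneg_left _ hpos
        have : 0 ≤ st.km q ^ 2 := by positivity
        have := mul_le_mul_of_nonneg_right hcast this
        linarith

end H23A1
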