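import Mathlib
import Pool.Agent.H23.A1.Defs

/-! Few parts have too large total weight (row C). -/

namespace H23A1

open Finset

variable {X D V : Type} [Fintype X] [DecidableEq X] [Fintype D] [DecidableEq D]
  [DecidableEq V] (st : Stage X D V)

private theorem fmp : (0 : ℝ) < 2 * st.p := by
  have h : (1 : ℝ) ≤ st.p := by exact_mod_cast st.hp
  linarith

private theorem fm_disj (d : D) {v w : V} (h : v ≠ w) : Disjoint (st.S d v) (st.S d w) := by
  rw [Finset.disjoint_left]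
  intro x hx hy
  unfold Stage.S at hx hy
  rw [Finset.mem_filter] at hx hy
  exact h (hx.2.symm.trans hy.2)

/-- first moment -/
private theorem fm1 (μ : Finset X → ℝ) (q δ : ℝ) (n : ℕ) (hq : 0 < q)
    (hL : Law μ q δ (n + 2 * st.K)) (d : D) :
    (1 - δ) * (((st.B d).card : ℝ) / (2 * st.p)) ≤ ∑ U, μ U * st.Z q U d := by
  have hp := fmp st
  have h1 : ∑ U, μ U * st.Z q U d =
      ∑ v ∈ st.B d, prb μ (st.S d v) * (1 / (2 * st.p * q ^ (st.S d v).card)) := by
    unfold Stage.Z Stage.y prb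
    have h2 : ∀ U : Finset X, μ U * ∑ v ∈ st.B d,
        (if st.S d v ⊆ U then 1 / (2 * (st.p : ℝ) * q ^ (st.S d v).card) else 0) =
        ∑ v ∈ st.B d, (if st.S d v ⊆ U then μ U else 0) *
          (1 / (2 * (st.p : ℝ) * q ^ (st.S d v).card)) := by
      intro U
      rw [Finset.mul_sum]
      refine Finset.sum_congr rfl fun v _ => ?_
      split_ifs <;> ring
    rw [Finset.sum_congr rfl (fun U _ => h2 U), Finset.sum_comm]
    refine Finset.sum_congr rfl fun v _ => ?_
    rw [Finset.sum_mul]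
  rw [h1]
  have h3 : (1 - δ) * (((st.B d).card : ℝ) / (2 * st.p)) =
      ∑ _v ∈ st.B d, (1 - δ) * (1 / (2 * st.p)) := by
    rw [Finset.sum_const, nsmul_eq_mul]
    ring
  rw [h3]
  refine Finset.sum_le_sum fun v _ => ?_
  have hc : (st.S d v).card ≤ st.K := st.fib d v
  have h4 := hL.lo (st.S d v) (by omega)
  have hqv : 0 < q ^ (st.S d v).card := pow_pos hq _
  have h5 : (1 - δ) * (1 / (2 * (st.p : ℝ))) =
      ((1 - δ) * q ^ (st.S d v).card) * (1 / (2 * st.p * q ^ (st.S d v).card)) := by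
    have hp0 : (2 * (st.p : ℝ)) ≠ 0 := hp.ne'
    have hq0 : q ^ (st.S d v).card ≠ 0 := hqv.ne'
    field_simp
  rw [h5]
  exact mul_le_mul_of_nonneg_right h4 (by positivity)

/-- second moment -/
private theorem fm2 (μ : Finset X → ℝ) (q δ : ℝ) (n : ℕ) (hq : 0 < q) (hq1 : q ≤ 1) (hδ : 0 ≤ δ)
    (hL : Law μ q δ (n + 2 * st.K)) (d : D) :
    ∑ U, μ U * (st.Z q U d) ^ 2 ≤ (1 + δ) * ((((st.B d).card : ℝ) / (2 * st.p)) ^ 2 +
      (((st.B d).card : ℝ) / (2 * st.p)) * st.km q) := by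
  have hp := fmp st
  have h1 : ∑ U, μ U * (st.Z q U d) ^ 2 =
      ∑ v ∈ st.B d, ∑ w ∈ st.B d, prb μ (st.S d v ∪ st.S d w) *
        (1 / (2 * st.p * q ^ (st.S d v).card) * (1 / (2 * st.p * q ^ (st.S d w).card))) := by
    unfold Stage.Z Stage.y prb
    have h2 : ∀ U : Finset X, μ U * (∑ v ∈ st.B d,
        (if st.S d v ⊆ U then 1 / (2 * (st.p : ℝ) * q ^ (st.S d v).card) else 0)) ^ 2 =
        ∑ v ∈ st.B d, ∑ w ∈ st.B d, (if st.S d v ∪ st.S d w ⊆ U then μ U else 0) *
          (1 / (2 * (st.p : ℝ) * q ^ (st.S d v).card) *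
            (1 / (2 * (st.p : ℝ) * q ^ (st.S d w).card))) := by
      intro U
      rw [pow_two, Finset.sum_mul_sum, Finset.mul_sum]
      refine Finset.sum_congr rfl fun v _ => ?_
      rw [Finset.mul_sum]
      refine Finset.sum_congr rfl fun w _ => ?_
      by_cases hv : st.S d v ⊆ U
      · by_cases hw : st.S d w ⊆ U
        · rw [if_pos hv, if_pos hw, if_pos (Finset.union_subset hv hw)]
        · rw [if_neg hw, if_neg (fun h => hw (Finset.union_subset_right h))]
          ring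
      · rw [if_neg hv, if_neg (fun h => hv (Finset.union_subset_left h))]
        ring
    rw [Finset.sum_congr rfl (fun U _ => h2 U), Finset.sum_comm]
    refine Finset.sum_congr rfl fun v _ => ?_
    rw [Finset.sum_comm]
    refine Finset.sum_congr rfl fun w _ => ?_
    rw [Finset.sum_mul]
  rw [h1]
  have hkm : 0 ≤ st.km q := by
    unfold Stage.km
    positivity
  have hterm : ∀ v ∈ st.B d, ∀ w ∈ st.B d, prb μ (st.S d v ∪ st.S d w) *
        (1 / (2 * st.p * q ^ (st.S d v).card) * (1 / (2 * st.p * q ^ (st.S d w).card))) ≤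
      (1 + δ) * (1 / (2 * st.p)) ^ 2 +
        (if w = v then (1 + δ) * (1 / (2 * st.p)) * st.km q else 0) := by
    intro v _ w _
    have hcv : (st.S d v).card ≤ st.K := st.fib d v
    have hcw : (st.S d w).card ≤ st.K := st.fib d w
    have hqv : 0 < q ^ (st.S d v).card := pow_pos hq _
    have hqw : 0 < q ^ (st.S d w).card := pow_pos hq _
    by_cases hvw : w = v
    · subst hvw
      rw [if_pos rfl, Finset.union_idempotent]
      have h4 := hL.up (st.S d w) (by omega)
      have h5 : prb μ (st.S d w) *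
          (1 / (2 * st.p * q ^ (st.S d w).card) * (1 / (2 * st.p * q ^ (st.S d w).card))) ≤
          ((1 + δ) * q ^ (st.S d w).card) *
          (1 / (2 * st.p * q ^ (st.S d w).card) * (1 / (2 * st.p * q ^ (st.S d w).card))) :=
        mul_le_mul_of_nonneg_right h4 (by positivity)
      have h6 : ((1 + δ) * q ^ (st.S d w).card) *
          (1 / (2 * st.p * q ^ (st.S d w).card) * (1 / (2 * st.p * q ^ (st.S d w).card))) =
          (1 + δ) * (1 / (2 * st.p)) * (1 / (2 * st.p * q ^ (st.S d w).card)) := by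
        have hp0 : (2 * (st.p : ℝ)) ≠ 0 := hp.ne'
        have hq0 : q ^ (st.S d w).card ≠ 0 := hqw.ne'
        field_simp
      have h7 : 1 / (2 * (st.p : ℝ) * q ^ (st.S d w).card) ≤ st.km q := by
        unfold Stage.km
        refine one_div_le_one_div_of_le (by positivity) ?_
        exact mul_le_mul_of_nonneg_left (pow_le_pow_of_le_one hq.le hq1 hcw) hp.le
      have h8 : (1 + δ) * (1 / (2 * (st.p : ℝ))) * (1 / (2 * st.p * q ^ (st.S d w).card)) ≤
          (1 + δ) * (1 / (2 * st.p)) * st.km q :=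
        mul_le_mul_of_nonneg_left h7 (by positivity)
      have h9 : 0 ≤ (1 + δ) * (1 / (2 * (st.p : ℝ))) ^ 2 := by positivity
      linarith
    · rw [if_neg hvw, add_zero]
      have hcard : (st.S d v ∪ st.S d w).card = (st.S d v).card + (st.S d w).card :=
        Finset.card_union_of_disjoint (fm_disj st d (fun h => hvw h.symm))
      have h4 := hL.up (st.S d v ∪ st.S d w) (by omega)
      rw [hcard, pow_add] at h4
      have h5 := mul_le_mul_of_nonneg_right h4
        (show 0 ≤ (1 / (2 * (st.p : ℝ) * q ^ (st.S d v).card) *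
          (1 / (2 * (st.p : ℝ) * q ^ (st.S d w).card))) by positivity)
      refine le_trans h5 (le_of_eq ?_)
      have hp0 : (2 * (st.p : ℝ)) ≠ 0 := hp.ne'
      have hq0 : q ^ (st.S d w).card ≠ 0 := hqw.ne'
      have hq0' : q ^ (st.S d v).card ≠ 0 := hqv.ne'
      field_simp
  refine le_trans (Finset.sum_le_sum fun v hv => Finset.sum_le_sum fun w hw =>
    hterm v hv w hw) (le_of_eq ?_)
  have h10 : ∀ v ∈ st.B d, ∑ w ∈ st.B d, ((1 + δ) * (1 / (2 * (st.p : ℝ))) ^ 2 +
        (if w = v then (1 + δ) * (1 / (2 * st.p)) * st.km q else 0)) =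
      (st.B d).card * ((1 + δ) * (1 / (2 * (st.p : ℝ))) ^ 2) +
        (1 + δ) * (1 / (2 * st.p)) * st.km q := by
    intro v hv
    rw [Finset.sum_add_distrib, Finset.sum_const, nsmul_eq_mul, Finset.sum_ite_eq',
      if_pos hv]
  rw [Finset.sum_congr rfl h10, Finset.sum_const, nsmul_eq_mul]
  ring

/-- one part -/
private theorem fm3 (μ : Finset X → ℝ) (q δ : ℝ) (n : ℕ) (hq : 0 < q) (hq1 : q ≤ 1) (hδ : 0 ≤ δ)
    (hδ1 : δ ≤ 1) (hL : Law μ q δ (n + 2 * st.K)) (d : D) :
    ∑ U, μ U * (if ¬ st.Z q U d ≤ 1 then (1 : ℝ) else 0) ≤ 3 * δ + 4 * st.km q := by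
  have hp := fmp st
  have hkm : 0 ≤ st.km q := by
    unfold Stage.km
    positivity
  obtain ⟨b, hb⟩ : ∃ b : ℝ, b = ((st.B d).card : ℝ) / (2 * st.p) := ⟨_, rfl⟩
  have hb0 : 0 ≤ b := by rw [hb]; positivity
  have hb1 : b ≤ 1 / 2 := by
    rw [hb, div_le_iff₀ hp]
    have h : ((st.B d).card : ℝ) ≤ st.p := by exact_mod_cast st.cB d
    linarith
  have hm1 := fm1 st μ q δ n hq hL d
  have hm2 := fm2 st μ q δ n hq hq1 hδ hL d
  rw [← hb] at hm1 hm2
  have h1 : ∀ U : Finset X, μ U * (if ¬ st.Z q U d ≤ 1 then (1 : ℝ) else 0) ≤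
      4 * (μ U * (st.Z q U d) ^ 2) - 8 * b * (μ U * st.Z q U d) + 4 * b ^ 2 * μ U := by
    intro U
    have hU := hL.nn U
    have h2 : (if ¬ st.Z q U d ≤ 1 then (1 : ℝ) else 0) ≤ 4 * (st.Z q U d - b) ^ 2 := by
      by_cases hz : st.Z q U d ≤ 1
      · rw [if_neg (not_not.mpr hz)]
        positivity
      · rw [if_pos hz]
        have h3 : (1 : ℝ) / 2 ≤ st.Z q U d - b := by
          have := not_le.mp hz
          linarith
        nlinarith
    calc μ U * (if ¬ st.Z q U d ≤ 1 then (1 : ℝ) else 0)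
        ≤ μ U * (4 * (st.Z q U d - b) ^ 2) := mul_le_mul_of_nonneg_left h2 hU
      _ = _ := by ring
  refine le_trans (Finset.sum_le_sum fun U _ => h1 U) ?_
  rw [Finset.sum_add_distrib, Finset.sum_sub_distrib, ← Finset.mul_sum, ← Finset.mul_sum,
    ← Finset.mul_sum, hL.one, mul_one]
  have h4 : 8 * b * ((1 - δ) * b) ≤ 8 * b * ∑ U, μ U * st.Z q U d :=
    mul_le_mul_of_nonneg_left hm1 (by positivity)
  have h5 : b ^ 2 ≤ 1 / 4 := by nlinarith
  have h6 : δ * b ^ 2 ≤ δ * (1 / 4) := mul_le_mul_of_nonneg_left h5 hδ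
  have h7 : b * st.km q ≤ 1 / 2 * st.km q := mul_le_mul_of_nonneg_right hb1 hkm
  have h8 : (1 + δ) * (b * st.km q) ≤ 2 * (1 / 2 * st.km q) :=
    mul_le_mul (by linarith) h7 (by positivity) (by norm_num)
  nlinarith

theorem fail_mean (μ : Finset X → ℝ) (q δ : ℝ) (n : ℕ) (hq : 0 < q) (hq1 : q ≤ 1) (hδ : 0 ≤ δ)
    (hδ1 : δ ≤ 1) (hL : Law μ q δ (n + 2 * st.K)) :
    ∑ U, μ U * (st.F q U : ℝ) ≤ st.g * st.p * (3 * δ + 4 * st.km q) := by
  have hp := fmp st
  have hkm : 0 ≤ st.km q := by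
    unfold Stage.km
    positivity
  have h1 : ∑ U, μ U * (st.F q U : ℝ) =
      ∑ d : D, ∑ U, μ U * (if ¬ st.Z q U d ≤ 1 then (1 : ℝ) else 0) := by
    rw [Finset.sum_comm]
    refine Finset.sum_congr rfl fun U _ => ?_
    unfold Stage.F
    rw [Finset.card_filter]
    push_cast
    rw [Finset.mul_sum]
  rw [h1]
  refine le_trans (Finset.sum_le_sum fun d _ => fm3 st μ q δ n hq hq1 hδ hδ1 hL d) ?_
  rw [Finset.sum_const, nsmul_eq_mul, Finset.card_univ]
  refine mul_le_mul_of_nonneg_right ?_ (by positivity)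
  have := st.cD
  exact_mod_cast this

end H23A1
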