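import Mathlib
import Pool.Agent.H23.A1.Defs
import Pool.Agent.H23.A1.Anl

/-! The random choice of one stage, given the uncovered set (row D). -/

namespace H23A1

open Finset

variable {X D V : Type} [Fintype X] [DecidableEq X] [Fintype D] [DecidableEq D]
  [Fintype V] [DecidableEq V] (st : Stage X D V)

private theorem y_nonneg (q : ℝ) (hq : 0 < q) (U : Finset X) (d : D) (v : V) :
    0 ≤ st.y q U d v := by
  unfold Stage.y
  split_ifs
  · positivity
  · exact le_rfl

private theorem kap_nonneg (q : ℝ) (hq : 0 < q) (U : Finset X) (d : D) (v : V) :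
    0 ≤ st.kap q U d v := by
  unfold Stage.kap
  split_ifs
  · exact y_nonneg st q hq U d v
  · exact le_rfl

theorem kw_nonneg (q : ℝ) (hq : 0 < q) (U : Finset X) (d : D) (o : Option V) :
    0 ≤ st.kw q U d o := by
  cases o with
  | none =>
    show 0 ≤ 1 - ∑ v ∈ st.B d, st.kap q U d v
    by_cases h : st.Z q U d ≤ 1
    · have h1 : ∑ v ∈ st.B d, st.kap q U d v = st.Z q U d := by
        unfold Stage.Z
        refine Finset.sum_congr rfl fun v _ => ?_
        unfold Stage.kap
        rw [if_pos h]
      rw [h1]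
      linarith
    · have h1 : ∑ v ∈ st.B d, st.kap q U d v = 0 := by
        refine Finset.sum_eq_zero fun v _ => ?_
        unfold Stage.kap
        rw [if_neg h]
      rw [h1]
      norm_num
  | some v =>
    show 0 ≤ if v ∈ st.B d then st.kap q U d v else 0
    split_ifs
    · exact kap_nonneg st q hq U d v
    · exact le_rfl

private theorem kw_sum (q : ℝ) (U : Finset X) (d : D) : ∑ o : Option V, st.kw q U d o = 1 := by
  rw [Fintype.sum_option]
  show (1 - ∑ v ∈ st.B d, st.kap q U d v) + ∑ v, (if v ∈ st.B d then st.kap q U d v else 0) = 1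
  rw [Finset.sum_ite_mem, Finset.univ_inter]
  ring

theorem kw_one (q : ℝ) (U : Finset X) : ∑ e : D → Option V, ∏ d, st.kw q U d (e d) = 1 := by
  have h1 := Finset.prod_univ_sum (fun _ : D => (Finset.univ : Finset (Option V)))
    (fun d o => st.kw q U d o)
  rw [Fintype.piFinset_univ] at h1
  rw [← h1]
  exact Finset.prod_eq_one fun d _ => kw_sum st q U d

private theorem sub_rem_iff {U R : Finset X} (hRU : R ⊆ U) (e : D → Option V) :
    R ⊆ st.rem U e ↔ ∀ d ∈ (Finset.univ : Finset D), ∀ v ∈ st.lab R d, e d ≠ some v := by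
  constructor
  · intro h d _ v hv
    unfold Stage.lab at hv
    rw [Finset.mem_image] at hv
    obtain ⟨x, hx, rfl⟩ := hv
    rw [Finset.mem_filter] at hx
    have h1 := h hx.1
    unfold Stage.rem at h1
    rw [Finset.mem_filter] at h1
    exact h1.2 d hx.2
  · intro h x hx
    unfold Stage.rem
    rw [Finset.mem_filter]
    refine ⟨hRU hx, fun d hd => h d (Finset.mem_univ d) _ ?_⟩
    unfold Stage.lab
    rw [Finset.mem_image]
    exact ⟨x, Finset.mem_filter.mpr ⟨hx, hd⟩, rfl⟩

private theorem lab_sub (R : Finset X) (d : D) : st.lab R d ⊆ st.B d := by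
  intro v hv
  unfold Stage.lab at hv
  rw [Finset.mem_image] at hv
  obtain ⟨x, hx, rfl⟩ := hv
  rw [Finset.mem_filter] at hx
  exact st.PB x d hx.2

private theorem factor (q : ℝ) (U R : Finset X) (d : D) :
    (∑ o : Option V, if (∀ v ∈ st.lab R d, o ≠ some v) then st.kw q U d o else 0) =
      1 - ∑ v ∈ st.lab R d, st.kap q U d v := by
  have h1 := kw_sum st q U d
  rw [Fintype.sum_option] at h1 ⊢
  have h2 : (∑ v : V, if (∀ v' ∈ st.lab R d, some v ≠ some v') then st.kw q U d (some v) else 0) =
      ∑ v, st.kw q U d (some v) - ∑ v ∈ st.lab R d, st.kap q U d v := by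
    have h3 : ∑ v ∈ st.lab R d, st.kap q U d v =
        ∑ v, if v ∈ st.lab R d then st.kw q U d (some v) else 0 := by
      rw [Finset.sum_ite_mem, Finset.univ_inter]
      refine Finset.sum_congr rfl fun v hv => ?_
      show _ = if v ∈ st.B d then st.kap q U d v else 0
      rw [if_pos (lab_sub st R d hv)]
    rw [h3, ← Finset.sum_sub_distrib]
    refine Finset.sum_congr rfl fun v _ => ?_
    by_cases hv : v ∈ st.lab R d
    · rw [if_pos hv, sub_self, if_neg]
      intro h4
      exact h4 v hv rfl
    · rw [if_neg hv, sub_zero, if_pos]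
      intro v' hv' h4
      apply hv
      rw [Option.some_injective _ h4]
      exact hv'
  rw [h2, if_pos (fun v _ => by simp)]
  linarith

theorem sel_prob (q : ℝ) (U R : Finset X) (hRU : R ⊆ U) :
    (∑ e : D → Option V, if R ⊆ st.rem U e then ∏ d, st.kw q U d (e d) else 0) =
      ∏ d, (1 - ∑ v ∈ st.lab R d, st.kap q U d v) := by
  have h1 := Finset.prod_univ_sum (fun _ : D => (Finset.univ : Finset (Option V)))
    (fun d o => if (∀ v ∈ st.lab R d, o ≠ some v) then st.kw q U d o else 0)
  rw [Fintype.piFinset_univ] at h1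
  have h2 : ∏ d, (1 - ∑ v ∈ st.lab R d, st.kap q U d v) =
      ∏ d, ∑ o : Option V, if (∀ v ∈ st.lab R d, o ≠ some v) then st.kw q U d o else 0 :=
    Finset.prod_congr rfl fun d _ => (factor st q U R d).symm
  rw [h2, h1]
  refine Finset.sum_congr rfl fun e _ => ?_
  rw [Finset.prod_ite_zero]
  by_cases h3 : R ⊆ st.rem U e
  · rw [if_pos h3, if_pos ((sub_rem_iff st hRU e).mp h3)]
  · rw [if_neg h3, if_neg (fun h4 => h3 ((sub_rem_iff st hRU e).mpr h4))]

end H23A1
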