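import Mathlib
import Pool.Agent.H23.A1.Defs
import Pool.Agent.H23.A1.Anl

/-! The random choice of one stage, given the uncovered set (row E). -/

namespace H23A1

open Finset

variable {X D V : Type} [Fintype X] [DecidableEq X] [Fintype D] [DecidableEq D]
  [DecidableEq V] (st : Stage X D V)

private theorem se_km_nn (q : ℝ) (hq : 0 < q) : 0 ≤ st.km q := by
  unfold Stage.km
  positivity

private theorem se_y_nn (q : ℝ) (hq : 0 < q) (U : Finset X) (d : D) (v : V) :
    0 ≤ st.y q U d v := by
  unfold Stage.y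
  split_ifs
  · positivity
  · exact le_rfl

private theorem se_y_le (q : ℝ) (hq : 0 < q) (hq1 : q ≤ 1) (U : Finset X) (d : D) (v : V) :
    st.y q U d v ≤ st.km q := by
  unfold Stage.y
  split_ifs
  · unfold Stage.km
    have h1 : (st.S d v).card ≤ st.K := st.fib d v
    have h2 : q ^ st.K ≤ q ^ (st.S d v).card := pow_le_pow_of_le_one hq.le hq1 h1
    have h3 : (0 : ℝ) < 2 * st.p := by
      have := st.hp
      have h4 : (1 : ℝ) ≤ (st.p : ℝ) := by exact_mod_cast this
      linarith
    exact one_div_le_one_div_of_le (mul_pos h3 (pow_pos hq _))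
      (mul_le_mul_of_nonneg_left h2 h3.le)
  · exact se_km_nn st q hq

private theorem se_kap_nn (q : ℝ) (hq : 0 < q) (U : Finset X) (d : D) (v : V) :
    0 ≤ st.kap q U d v := by
  unfold Stage.kap
  split_ifs
  · exact se_y_nn st q hq U d v
  · exact le_rfl

private theorem se_kap_le (q : ℝ) (hq : 0 < q) (U : Finset X) (d : D) (v : V) :
    st.kap q U d v ≤ st.y q U d v := by
  unfold Stage.kap
  split_ifs
  · exact le_rfl
  · exact se_y_nn st q hq U d v

/-- total weight through the atoms which count in `d` -/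
private noncomputable def seB (q : ℝ) (U R : Finset X) (d : D) : ℝ :=
  ∑ x ∈ R.filter (fun x => d ∈ st.P x), st.y q U d (st.T d x)

private theorem se_sum_b (q : ℝ) (U R : Finset X) :
    ∑ d, seB st q U R d = st.Ys q R U := by
  unfold seB Stage.Ys
  symm
  apply Finset.sum_comm'
  intro x d
  simp only [mem_filter, mem_univ, and_true]

private theorem se_b_nn (q : ℝ) (hq : 0 < q) (U R : Finset X) (d : D) :
    0 ≤ seB st q U R d :=
  Finset.sum_nonneg (fun x _ => se_y_nn st q hq U d _)

private theorem se_b_le (q : ℝ) (hq : 0 < q) (hq1 : q ≤ 1) (U R : Finset X) (d : D) :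
    seB st q U R d ≤ R.card * st.km q := by
  unfold seB
  calc ∑ x ∈ R.filter (fun x => d ∈ st.P x), st.y q U d (st.T d x)
      ≤ ∑ x ∈ R.filter (fun x => d ∈ st.P x), st.km q :=
        Finset.sum_le_sum (fun x _ => se_y_le st q hq hq1 U d _)
    _ = (R.filter (fun x => d ∈ st.P x)).card * st.km q := by
        rw [Finset.sum_const, nsmul_eq_mul]
    _ ≤ R.card * st.km q := by
        apply mul_le_mul_of_nonneg_right _ (se_km_nn st q hq)
        exact_mod_cast Finset.card_filter_le _ _

private theorem se_img (f : X → V) (h : V → ℝ) (hh : ∀ v, 0 ≤ h v) (s : Finset X) :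
    ∑ v ∈ s.image f, h v ≤ ∑ x ∈ s, h (f x) := by
  rw [← Finset.sum_fiberwise_of_maps_to (g := f) (t := s.image f)
    (fun x hx => Finset.mem_image_of_mem f hx)]
  apply Finset.sum_le_sum
  intro v hv
  obtain ⟨x, hx, hxv⟩ := Finset.mem_image.mp hv
  have h1 : x ∈ s.filter (fun i => f i = v) := Finset.mem_filter.mpr ⟨hx, hxv⟩
  have h2 := Finset.single_le_sum (f := fun i => h (f i)) (fun i _ => hh (f i)) h1
  rw [← hxv]
  rw [← hxv] at h2
  exact h2

private theorem se_al_le (q : ℝ) (hq : 0 < q) (U R : Finset X) (d : D) :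
    ∑ v ∈ st.lab R d, st.kap q U d v ≤ seB st q U R d := by
  unfold Stage.lab seB
  refine le_trans (se_img (st.T d) (fun v => st.kap q U d v)
    (fun v => se_kap_nn st q hq U d v) _) ?_
  exact Finset.sum_le_sum (fun x _ => se_kap_le st q hq U d _)

private theorem se_al_nn (q : ℝ) (hq : 0 < q) (U R : Finset X) (d : D) :
    0 ≤ ∑ v ∈ st.lab R d, st.kap q U d v :=
  Finset.sum_nonneg (fun v _ => se_kap_nn st q hq U d v)

theorem prod_lo (q : ℝ) (hq : 0 < q) (hq1 : q ≤ 1) (U R : Finset X) (hc : R.card * st.km q ≤ 1 / 2) :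
    Real.exp (-((1 + 2 * (R.card * st.km q)) * st.Ys q R U)) ≤
      ∏ d, (1 - ∑ v ∈ st.lab R d, st.kap q U d v) := by
  rw [← se_sum_b st q U R, Finset.mul_sum, ← Finset.sum_neg_distrib, Real.exp_sum]
  apply Finset.prod_le_prod
  · intro d _
    exact (Real.exp_pos _).le
  · intro d _
    have h1 := one_sub_ge_exp (seB st q U R d) (R.card * st.km q) (se_b_nn st q hq U R d)
      (se_b_le st q hq hq1 U R d) hc
    have h2 := se_al_le st q hq U R d
    linarith

/-- the parts in which two atoms of `R` have the same label -/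
private def seW (R : Finset X) : Finset D :=
  (R ×ˢ R).biUnion (fun z => if z.1 = z.2 then ∅ else
    univ.filter (fun d => st.T d z.1 = st.T d z.2))

private theorem se_cardW (R : Finset X) : (seW st R).card ≤ R.card ^ 2 * st.g := by
  unfold seW
  refine le_trans Finset.card_biUnion_le ?_
  have h1 : ∀ z ∈ R ×ˢ R, (if z.1 = z.2 then (∅ : Finset D) else
      univ.filter (fun d => st.T d z.1 = st.T d z.2)).card ≤ st.g := by
    intro z _
    split_ifs with hz
    · simp
    · exact st.cod z.1 z.2 hz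
  refine le_trans (Finset.sum_le_sum h1) ?_
  rw [Finset.sum_const, Finset.card_product, smul_eq_mul, sq]

private theorem se_eq (q : ℝ) (U R : Finset X) (d : D) (hZ : st.Z q U d ≤ 1)
    (hW : d ∉ seW st R) :
    ∑ v ∈ st.lab R d, st.kap q U d v = seB st q U R d := by
  unfold Stage.lab seB
  rw [Finset.sum_image]
  · apply Finset.sum_congr rfl
    intro x _
    unfold Stage.kap
    rw [if_pos hZ]
  · intro x hx x' hx' hxx
    by_contra hne
    apply hW
    unfold seW
    rw [Finset.mem_biUnion]
    have hx1 : x ∈ R := (Finset.mem_filter.mp (Finset.mem_coe.mp hx)).1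
    have hx2 : x' ∈ R := (Finset.mem_filter.mp (Finset.mem_coe.mp hx')).1
    refine ⟨(x, x'), Finset.mem_product.mpr ⟨hx1, hx2⟩, ?_⟩
    rw [if_neg hne]
    exact Finset.mem_filter.mpr ⟨Finset.mem_univ d, hxx⟩

private theorem se_sum_al (q : ℝ) (hq : 0 < q) (hq1 : q ≤ 1) (U R : Finset X) :
    st.Ys q R U - (R.card ^ 3 * st.g * st.km q + R.card * st.km q * st.F q U) ≤
      ∑ d, ∑ v ∈ st.lab R d, st.kap q U d v := by
  have hkm := se_km_nn st q hq
  set c : ℝ := R.card * st.km q with hcdef
  have hc0 : 0 ≤ c := by positivity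
  set Wz : Finset D := univ.filter (fun d => ¬ st.Z q U d ≤ 1) with hWz
  have h1 : ∀ d, seB st q U R d - ∑ v ∈ st.lab R d, st.kap q U d v ≤
      (if d ∈ seW st R then c else 0) + (if d ∈ Wz then c else 0) := by
    intro d
    have hb := se_b_le st q hq hq1 U R d
    have ha := se_al_nn st q hq U R d
    by_cases hz : d ∈ Wz
    · rw [if_pos hz]
      have h0 : (0 : ℝ) ≤ (if d ∈ seW st R then c else 0) := by
        split_ifs
        · exact hc0
        · exact le_rfl
      linarith
    · rw [if_neg hz]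
      by_cases hw : d ∈ seW st R
      · rw [if_pos hw]
        linarith
      · rw [if_neg hw]
        have hZ : st.Z q U d ≤ 1 := by
          by_contra hn
          exact hz (Finset.mem_filter.mpr ⟨Finset.mem_univ d, hn⟩)
        rw [se_eq st q U R d hZ hw]
        linarith
  have h2 : ∑ d, (seB st q U R d - ∑ v ∈ st.lab R d, st.kap q U d v) ≤
      ∑ d, ((if d ∈ seW st R then c else 0) + (if d ∈ Wz then c else 0)) :=
    Finset.sum_le_sum (fun d _ => h1 d)
  rw [Finset.sum_sub_distrib, se_sum_b st q U R, Finset.sum_add_distrib] at h2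
  have h3 : ∑ d : D, (if d ∈ seW st R then c else 0) = (seW st R).card * c := by
    rw [Finset.sum_ite_mem, Finset.univ_inter, Finset.sum_const, nsmul_eq_mul]
  have h4 : ∑ d : D, (if d ∈ Wz then c else 0) = Wz.card * c := by
    rw [Finset.sum_ite_mem, Finset.univ_inter, Finset.sum_const, nsmul_eq_mul]
  rw [h3, h4] at h2
  have h5 : ((seW st R).card : ℝ) ≤ (R.card : ℝ) ^ 2 * st.g := by
    exact_mod_cast se_cardW st R
  have h6 : ((seW st R).card : ℝ) * c ≤ (R.card : ℝ) ^ 2 * st.g * c :=
    mul_le_mul_of_nonneg_right h5 hc0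
  have h7 : (R.card : ℝ) ^ 2 * st.g * c = R.card ^ 3 * st.g * st.km q := by
    rw [hcdef]; ring
  have h8 : (Wz.card : ℝ) = (st.F q U : ℝ) := by
    rw [hWz]; rfl
  rw [h8] at h2
  have h9 : (st.F q U : ℝ) * c = c * st.F q U := mul_comm _ _
  linarith

theorem prod_up (q : ℝ) (hq : 0 < q) (hq1 : q ≤ 1) (U R : Finset X) (hc : R.card * st.km q ≤ 1 / 2) :
    ∏ d, (1 - ∑ v ∈ st.lab R d, st.kap q U d v) ≤
      Real.exp (-(st.Ys q R U)) + (R.card ^ 3 * st.g * st.km q + R.card * st.km q * st.F q U) := by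
  have hkm := se_km_nn st q hq
  have h1 : ∏ d, (1 - ∑ v ∈ st.lab R d, st.kap q U d v) ≤
      ∏ d, Real.exp (-(∑ v ∈ st.lab R d, st.kap q U d v)) := by
    apply Finset.prod_le_prod
    · intro d _
      have h2 := se_al_le st q hq U R d
      have h3 := se_b_le st q hq hq1 U R d
      linarith
    · intro d _
      have h2 := Real.add_one_le_exp (-(∑ v ∈ st.lab R d, st.kap q U d v))
      linarith
  refine le_trans h1 ?_
  rw [← Real.exp_sum, Finset.sum_neg_distrib]
  apply exp_lip
  · exact Finset.sum_nonneg (fun d _ => se_al_nn st q hq U R d)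
  · unfold Stage.Ys
    exact Finset.sum_nonneg (fun x _ => Finset.sum_nonneg (fun d _ => se_y_nn st q hq U d _))
  · positivity
  · exact se_sum_al st q hq hq1 U R

end H23A1
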