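import Mathlib

/-! One stage: numerical part (row F). -/

namespace H23A1

/-- numerical part of the lower bound -/
theorem num_lo (s n g K p δ m κ R Λ q' P E1 C : ℝ) (hs0 : 0 ≤ s) (hsn : s ≤ n) (hn : 1 ≤ n)
    (hg : 1 ≤ g) (hK : 1 ≤ K) (hp : 0 < p) (hδ : 0 ≤ δ) (hδ1 : δ ≤ 1) (hm0 : 0 ≤ m)
    (hm : m ≤ 2 * n) (hR : 1 ≤ R) (hκ : κ = R / (2 * p)) (hc : s * κ ≤ 1 / 2)
    (hC : C = 1 + 2 * (s * κ)) (hq' : 0 < q')
    (hΛ : 24 * g * n ^ 3 * K * R ^ 2 ≤ Λ)
    (hP : (1 - δ) * q' ≤ P) (hE1 : E1 ≤ (1 + δ) * q' * (m + s ^ 2 * g * κ)) :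
    (1 - Λ * (δ + 1 / p)) * (q' * Real.exp (-m)) ≤
      Real.exp (-(C * m)) * (P * (1 + C * m) - C * E1) := by
  have hκ0 : 0 ≤ κ := by rw [hκ]; positivity
  have hc0 : 0 ≤ s * κ := by positivity
  have hC1 : 1 ≤ C := by rw [hC]; linarith
  have hC2 : C ≤ 2 := by rw [hC]; linarith
  set t : ℝ := s ^ 2 * g * κ with ht
  have ht0 : 0 ≤ t := by positivity
  set B : ℝ := 1 - δ * (1 + 4 * m) - 4 * t with hB
  have hB1 : B ≤ 1 := by
    have : 0 ≤ δ * (1 + 4 * m) := by positivity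
    linarith
  have h1 : q' * B ≤ P * (1 + C * m) - C * E1 := by
    have h2 : (1 - δ) * q' * (1 + C * m) ≤ P * (1 + C * m) :=
      mul_le_mul_of_nonneg_right hP (by positivity)
    have h3 : C * E1 ≤ C * ((1 + δ) * q' * (m + t)) := mul_le_mul_of_nonneg_left hE1 (by linarith)
    have h4 : B ≤ (1 - δ) * (1 + C * m) - C * ((1 + δ) * (m + t)) := by
      have h5 : (1 - δ) * (1 + C * m) - C * ((1 + δ) * (m + t)) =
          1 - δ - 2 * (C * (δ * m)) - C * ((1 + δ) * t) := by ring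
      have h6 : C * (δ * m) ≤ 2 * (δ * m) := mul_le_mul_of_nonneg_right hC2 (by positivity)
      have h7 : C * ((1 + δ) * t) ≤ 2 * (2 * t) := by
        apply mul_le_mul hC2 _ (by positivity) (by norm_num)
        exact mul_le_mul_of_nonneg_right (by linarith) ht0
      rw [h5, hB]
      linarith
    have h8 := mul_le_mul_of_nonneg_left h4 hq'.le
    have h9 : q' * ((1 - δ) * (1 + C * m) - C * ((1 + δ) * (m + t))) =
        (1 - δ) * q' * (1 + C * m) - C * ((1 + δ) * q' * (m + t)) := by ring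
    linarith
  have h2 : Real.exp (-(C * m)) = Real.exp (-m) * Real.exp (-(2 * (s * κ) * m)) := by
    rw [← Real.exp_add]; congr 1; rw [hC]; ring
  have hem : 0 < Real.exp (-m) := Real.exp_pos _
  have hu0 : 0 ≤ 2 * (s * κ) * m := by positivity
  have h3 : B - 2 * (s * κ) * m ≤ Real.exp (-(2 * (s * κ) * m)) * B := by
    rcases le_total 0 B with hb | hb
    · have h4 := Real.add_one_le_exp (-(2 * (s * κ) * m))
      have h5 := mul_le_mul_of_nonneg_right h4 hb
      have h6 : (2 * (s * κ) * m) * B ≤ (2 * (s * κ) * m) * 1 := mul_le_mul_of_nonneg_left hB1 hu0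
      linarith
    · have h4 : Real.exp (-(2 * (s * κ) * m)) ≤ 1 := Real.exp_le_one_iff.mpr (by linarith)
      have h5 := mul_le_mul_of_nonpos_right h4 hb
      linarith
  have h4 : 1 - Λ * (δ + 1 / p) ≤ B - 2 * (s * κ) * m := by
    have hn0 : 0 ≤ n := by linarith
    have hg0 : 0 ≤ g := by linarith
    have hR2 : R ≤ R ^ 2 := by nlinarith
    have hn2 : n ≤ n ^ 2 := by nlinarith
    have hn3 : n ^ 2 ≤ n ^ 3 := by nlinarith [sq_nonneg n]
    have hgn : (1 : ℝ) ≤ g * n ^ 3 * K * R ^ 2 := by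
      have h5 : (1 : ℝ) ≤ n ^ 3 := by linarith
      have h6 : (1 : ℝ) ≤ R ^ 2 := by linarith
      have h7 : (1 : ℝ) ≤ g * n ^ 3 := by nlinarith
      have h8 : (1 : ℝ) ≤ g * n ^ 3 * K := by nlinarith
      nlinarith
    have h5 : 1 + 8 * n ≤ 24 * g * n ^ 3 * K * R ^ 2 := by
      have h6 : n ^ 3 ≤ g * n ^ 3 := by nlinarith [pow_nonneg hn0 3]
      have h7 : g * n ^ 3 ≤ g * n ^ 3 * K := by
        have : 0 ≤ g * n ^ 3 := by positivity
        nlinarith
      have h8 : g * n ^ 3 * K ≤ g * n ^ 3 * K * R ^ 2 := by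
        have : 0 ≤ g * n ^ 3 * K := by positivity
        nlinarith
      linarith
    have h6 : δ * (1 + 4 * m) ≤ Λ * δ := by
      have h7 : 1 + 4 * m ≤ Λ := by linarith
      nlinarith
    have h7 : 4 * t + 2 * (s * κ) * m ≤ Λ * (1 / p) := by
      have hs2 : s ^ 2 ≤ n ^ 2 := pow_le_pow_left₀ hs0 hsn 2
      have h8 : 4 * t ≤ 4 * (n ^ 2 * g * κ) := by
        rw [ht]
        have : s ^ 2 * g * κ ≤ n ^ 2 * g * κ :=
          mul_le_mul_of_nonneg_right (mul_le_mul_of_nonneg_right hs2 hg0) hκ0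
        linarith
      have h9 : 2 * (s * κ) * m ≤ 2 * (n * κ) * (2 * n) := by
        apply mul_le_mul _ hm hm0 (by positivity)
        have : s * κ ≤ n * κ := mul_le_mul_of_nonneg_right hsn hκ0
        linarith
      have h10 : 2 * (n * κ) * (2 * n) ≤ 4 * (n ^ 2 * g * κ) := by
        have h11 : n ^ 2 * 1 * κ ≤ n ^ 2 * g * κ :=
          mul_le_mul_of_nonneg_right (mul_le_mul_of_nonneg_left hg (by positivity)) hκ0
        nlinarith
      have h12 : 8 * (n ^ 2 * g * κ) ≤ Λ * (1 / p) := by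
        rw [hκ, mul_one_div, ← mul_div_assoc, ← mul_div_assoc, div_le_div_iff₀ (by positivity) hp]
        have h13 : n ^ 2 * g * R ≤ 24 * g * n ^ 3 * K * R ^ 2 := by
          have h14 : n ^ 2 * g * R ≤ n ^ 3 * g * R ^ 2 := by
            apply mul_le_mul (mul_le_mul_of_nonneg_right hn3 hg0) hR2 (by linarith) (by positivity)
          have h15 : n ^ 3 * g * R ^ 2 ≤ n ^ 3 * g * R ^ 2 * K := by
            have : 0 ≤ n ^ 3 * g * R ^ 2 := by positivity
            nlinarith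
          have h16 : n ^ 3 * g * R ^ 2 * K = g * n ^ 3 * K * R ^ 2 := by ring
          have h17 : 0 ≤ g * n ^ 3 * K * R ^ 2 := by linarith
          linarith
        have h14 : 4 * (n ^ 2 * g * R) ≤ Λ := by
          have h15 : 4 * (n ^ 2 * g * R) ≤ 24 * g * n ^ 3 * K * R ^ 2 := by
            have h14 : n ^ 2 * g * R ≤ n ^ 3 * g * R ^ 2 := by
              apply mul_le_mul (mul_le_mul_of_nonneg_right hn3 hg0) hR2 (by linarith) (by positivity)
            have h15 : n ^ 3 * g * R ^ 2 ≤ n ^ 3 * g * R ^ 2 * K := by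
              have : 0 ≤ n ^ 3 * g * R ^ 2 := by positivity
              nlinarith
            have h16 : n ^ 3 * g * R ^ 2 * K = g * n ^ 3 * K * R ^ 2 := by ring
            linarith
          linarith
        have h15 := mul_le_mul_of_nonneg_right h14 hp.le
        linarith
      linarith
    have h8 : Λ * (δ + 1 / p) = Λ * δ + Λ * (1 / p) := by ring
    rw [h8, hB]
    linarith
  calc (1 - Λ * (δ + 1 / p)) * (q' * Real.exp (-m))
      ≤ (B - 2 * (s * κ) * m) * (q' * Real.exp (-m)) :=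
        mul_le_mul_of_nonneg_right h4 (by positivity)
    _ ≤ (Real.exp (-(2 * (s * κ) * m)) * B) * (q' * Real.exp (-m)) :=
        mul_le_mul_of_nonneg_right h3 (by positivity)
    _ = Real.exp (-(C * m)) * (q' * B) := by rw [h2]; ring
    _ ≤ _ := mul_le_mul_of_nonneg_left h1 (Real.exp_pos _).le

/-- numerical part of the upper bound -/
theorem num_up (s n g K p δ m κ R G Λ q' P E1 E2 EF N : ℝ) (hs0 : 0 ≤ s) (hsn : s ≤ n)
    (hn : 1 ≤ n) (hg : 1 ≤ g) (hK : 1 ≤ K) (hp : 0 < p) (hδ : 0 ≤ δ) (hδ1 : δ ≤ 1) (hm0 : 0 ≤ m)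
    (hm : m ≤ 2 * n) (hR : 1 ≤ R) (hκ : κ = R / (2 * p)) (hN0 : 0 ≤ N) (hN : N ≤ 4 * p)
    (hq' : 0 < q') (hG : 1 ≤ G * (q' * Real.exp (-m))) (hG1 : 1 ≤ G * Real.exp (-m)) (hG2 : 1 ≤ G)
    (hΛ : 24 * g * n ^ 3 * K * R ^ 2 * G ≤ Λ)
    (hP : P ≤ (1 + δ) * q') (hE1 : (1 - δ) * q' * m ≤ E1)
    (hE2 : E2 ≤ (1 + δ) * q' * (m ^ 2 + s ^ 2 * N * g * (K + 2 * s) * κ ^ 2))
    (hEF : EF ≤ g * p * (3 * δ + 4 * κ)) :
    ((Real.exp (-m) * (1 + m) + m ^ 2) * P - (Real.exp (-m) + 2 * m) * E1 + E2) +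
      (s ^ 3 * g * κ + s * κ * EF) ≤ (1 + Λ * (δ + 1 / p)) * (q' * Real.exp (-m)) := by
  have hκ0 : 0 ≤ κ := by rw [hκ]; positivity
  have hn0 : 0 ≤ n := by linarith
  have hg0 : 0 ≤ g := by linarith
  have hem : 0 < Real.exp (-m) := Real.exp_pos _
  set X2 : ℝ := s ^ 2 * N * g * (K + 2 * s) * κ ^ 2 with hX2
  have hX20 : 0 ≤ X2 := by positivity
  set w : ℝ := q' * Real.exp (-m) with hw
  have hw0 : 0 < w := by positivity
  -- step 1
  have h1 : (Real.exp (-m) * (1 + m) + m ^ 2) * P - (Real.exp (-m) + 2 * m) * E1 + E2 ≤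
      w * (1 + δ * (1 + 2 * m)) + q' * (4 * δ * m ^ 2 + 2 * X2) := by
    have h2 := mul_le_mul_of_nonneg_left hP (show 0 ≤ Real.exp (-m) * (1 + m) + m ^ 2 by positivity)
    have h3 := mul_le_mul_of_nonneg_left hE1 (show 0 ≤ Real.exp (-m) + 2 * m by positivity)
    have h4 : (1 + δ) * q' * (m ^ 2 + X2) ≤ (1 + δ) * q' * m ^ 2 + 2 * q' * X2 := by
      have : (1 + δ) * (q' * X2) ≤ 2 * (q' * X2) := mul_le_mul_of_nonneg_right (by linarith) (by positivity)
      linarith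
    have h5 : (Real.exp (-m) * (1 + m) + m ^ 2) * ((1 + δ) * q') -
        (Real.exp (-m) + 2 * m) * ((1 - δ) * q' * m) + ((1 + δ) * q' * m ^ 2 + 2 * q' * X2) =
        w * (1 + δ * (1 + 2 * m)) + q' * (4 * δ * m ^ 2 + 2 * X2) := by rw [hw]; ring
    linarith
  -- bounds in units of G w
  have hq1 : q' ≤ G * w := by
    rw [hw]
    have := mul_le_mul_of_nonneg_left hG1 hq'.le
    calc q' = q' * 1 := (mul_one _).symm
      _ ≤ q' * (G * Real.exp (-m)) := this
      _ = _ := by ring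
  have hw1 : w ≤ G * w := by nlinarith
  set D1 : ℝ := 1 + 2 * m + 4 * m ^ 2 + 3 * s * g * (p * κ) with hD1
  set D2 : ℝ := 2 * X2 + s ^ 3 * g * κ + 4 * s * g * p * κ ^ 2 with hD2
  have h6 : s * κ * EF ≤ s * κ * (g * p * (3 * δ + 4 * κ)) :=
    mul_le_mul_of_nonneg_left hEF (by positivity)
  have h7 : w * (δ * (1 + 2 * m)) + q' * (4 * δ * m ^ 2 + 2 * X2) +
      (s ^ 3 * g * κ + s * κ * (g * p * (3 * δ + 4 * κ))) ≤ (G * w) * (δ * D1 + D2) := by
    have h8 : w * (δ * (1 + 2 * m)) ≤ (G * w) * (δ * (1 + 2 * m)) :=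
      mul_le_mul_of_nonneg_right hw1 (by positivity)
    have h9 : q' * (4 * δ * m ^ 2 + 2 * X2) ≤ (G * w) * (4 * δ * m ^ 2 + 2 * X2) :=
      mul_le_mul_of_nonneg_right hq1 (by positivity)
    have h10 : 1 * (s ^ 3 * g * κ + s * κ * (g * p * (3 * δ + 4 * κ))) ≤
        (G * w) * (s ^ 3 * g * κ + s * κ * (g * p * (3 * δ + 4 * κ))) :=
      mul_le_mul_of_nonneg_right hG (by positivity)
    have h11 : (G * w) * (δ * D1 + D2) = (G * w) * (δ * (1 + 2 * m)) +
        (G * w) * (4 * δ * m ^ 2 + 2 * X2) +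
        (G * w) * (s ^ 3 * g * κ + s * κ * (g * p * (3 * δ + 4 * κ))) := by
      rw [hD1, hD2]; ring
    linarith
  -- D1 and D2
  have hR2 : R ≤ R ^ 2 := by nlinarith
  have hn2 : n ≤ n ^ 2 := by nlinarith
  have hn3 : n ^ 2 ≤ n ^ 3 := by nlinarith [sq_nonneg n]
  set Y : ℝ := g * n ^ 3 * K * R ^ 2 with hY
  have hb1 : n ^ 3 ≤ g * n ^ 3 := by nlinarith [pow_nonneg hn0 3]
  have hb2 : g * n ^ 3 ≤ g * n ^ 3 * K := by
    have : 0 ≤ g * n ^ 3 := by positivity
    nlinarith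
  have hb3 : g * n ^ 3 * K ≤ Y := by
    have : 0 ≤ g * n ^ 3 * K := by positivity
    rw [hY]; nlinarith
  have hb4 : g * n ^ 3 * R ≤ Y := by
    have h8 : g * n ^ 3 * R ≤ g * n ^ 3 * R ^ 2 := mul_le_mul_of_nonneg_left hR2 (by positivity)
    have h9 : g * n ^ 3 * R ^ 2 ≤ g * n ^ 3 * R ^ 2 * K := by
      have : 0 ≤ g * n ^ 3 * R ^ 2 := by positivity
      nlinarith
    have h10 : g * n ^ 3 * R ^ 2 * K = Y := by rw [hY]; ring
    linarith
  have hb5 : g * n ^ 3 * R ^ 2 ≤ Y := by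
    have h9 : g * n ^ 3 * R ^ 2 ≤ g * n ^ 3 * R ^ 2 * K := by
      have : 0 ≤ g * n ^ 3 * R ^ 2 := by positivity
      nlinarith
    have h10 : g * n ^ 3 * R ^ 2 * K = Y := by rw [hY]; ring
    linarith
  have hY1 : 1 ≤ Y := by linarith
  have hpκ : p * κ = R / 2 := by rw [hκ]; field_simp
  have hD1le : D1 ≤ 24 * Y := by
    have h8 : m ^ 2 ≤ 4 * n ^ 2 := by
      have : m ^ 2 ≤ (2 * n) ^ 2 := pow_le_pow_left₀ hm0 hm 2
      nlinarith
    have h9 : 3 * s * g * (p * κ) ≤ 3 * (g * n ^ 3 * R) := by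
      rw [hpκ]
      have h10 : s * g * R ≤ n ^ 3 * g * R := by
        apply mul_le_mul_of_nonneg_right _ (by linarith)
        apply mul_le_mul_of_nonneg_right _ hg0
        linarith
      have h11 : 0 ≤ s * g * R := by positivity
      nlinarith
    rw [hD1]
    linarith
  have hD2le : D2 ≤ 24 * Y / p := by
    have hs2 : s ^ 2 ≤ n ^ 2 := pow_le_pow_left₀ hs0 hsn 2
    have hs3 : s ^ 3 ≤ n ^ 3 := pow_le_pow_left₀ hs0 hsn 3
    have hκ2 : κ ^ 2 = R ^ 2 / (4 * p ^ 2) := by rw [hκ]; field_simp; ring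
    have h8 : X2 ≤ 3 * Y / p := by
      have h9 : s ^ 2 * N * g * (K + 2 * s) ≤ n ^ 2 * (4 * p) * g * (3 * n * K) := by
        apply mul_le_mul _ _ (by positivity) (by positivity)
        · apply mul_le_mul_of_nonneg_right _ hg0
          exact mul_le_mul hs2 hN hN0 (by positivity)
        · nlinarith
      have h10 : X2 ≤ n ^ 2 * (4 * p) * g * (3 * n * K) * κ ^ 2 := by
        rw [hX2]; exact mul_le_mul_of_nonneg_right h9 (by positivity)
      refine h10.trans (le_of_eq ?_)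
      rw [hκ2, hY]; field_simp
    have h9 : s ^ 3 * g * κ ≤ Y / p := by
      have h10 : s ^ 3 * g * κ ≤ n ^ 3 * g * κ :=
        mul_le_mul_of_nonneg_right (mul_le_mul_of_nonneg_right hs3 hg0) hκ0
      refine h10.trans ?_
      rw [hκ, ← mul_div_assoc, div_le_div_iff₀ (by positivity) hp]
      have h11 : n ^ 3 * g * R ≤ Y := by
        have : n ^ 3 * g * R = g * n ^ 3 * R := by ring
        linarith
      have h12 := mul_le_mul_of_nonneg_right h11 hp.le
      have h13 : 0 ≤ Y * p := by positivity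
      linarith
    have h10 : 4 * s * g * p * κ ^ 2 ≤ Y / p := by
      rw [hκ2]
      have h11 : 4 * s * g * p * (R ^ 2 / (4 * p ^ 2)) = s * g * R ^ 2 / p := by field_simp
      rw [h11]
      apply div_le_div_of_nonneg_right _ hp.le
      have h12 : s * g * R ^ 2 ≤ n ^ 3 * g * R ^ 2 := by
        apply mul_le_mul_of_nonneg_right _ (by positivity)
        apply mul_le_mul_of_nonneg_right _ hg0
        linarith
      have h13 : n ^ 3 * g * R ^ 2 = g * n ^ 3 * R ^ 2 := by ring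
      linarith
    rw [hD2]
    have h11 : 24 * Y / p = 24 * (Y / p) := by ring
    have h12 : 3 * Y / p = 3 * (Y / p) := by ring
    have h13 : 0 ≤ Y / p := by positivity
    rw [h11]
    rw [h12] at h8
    linarith
  have h8 : δ * D1 + D2 ≤ 24 * Y * (δ + 1 / p) := by
    have h9 := mul_le_mul_of_nonneg_left hD1le hδ
    have h10 : 24 * Y * (δ + 1 / p) = δ * (24 * Y) + 24 * Y / p := by ring
    linarith
  have h9 : (G * w) * (δ * D1 + D2) ≤ Λ * (δ + 1 / p) * w := by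
    have h10 : (G * w) * (δ * D1 + D2) ≤ (G * w) * (24 * Y * (δ + 1 / p)) :=
      mul_le_mul_of_nonneg_left h8 (by positivity)
    have h11 : (G * w) * (24 * Y * (δ + 1 / p)) = (24 * Y * G) * ((δ + 1 / p) * w) := by ring
    have h12 : 24 * Y * G ≤ Λ := by
      have : 24 * Y * G = 24 * g * n ^ 3 * K * R ^ 2 * G := by rw [hY]; ring
      linarith
    have h13 := mul_le_mul_of_nonneg_right h12 (show 0 ≤ (δ + 1 / p) * w by positivity)
    linarith
  have h10 : (1 + Λ * (δ + 1 / p)) * w = w + Λ * (δ + 1 / p) * w := by ring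
  rw [h10]
  linarith

end H23A1
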