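import Mathlib
import Pool.Agent.H23.A1.MomA
import Pool.Agent.H23.A1.MomB
import Pool.Agent.H23.A1.MomC
import Pool.Agent.H23.A1.SelD
import Pool.Agent.H23.A1.SelE
import Pool.Agent.H23.A1.StpN

/-! One stage: the law (row F). -/

namespace H23A1

open Finset

variable {X D V : Type} [Fintype X] [DecidableEq X] [Fintype D] [DecidableEq D]
  [Fintype V] [DecidableEq V] (st : Stage X D V)

private theorem push_nn (q : ℝ) (hq : 0 < q) (μ : Finset X → ℝ) (hnn : ∀ U, 0 ≤ μ U) (A : Finset X) :
    0 ≤ push st q μ A := by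
  unfold push
  apply Finset.sum_nonneg
  intro U _
  apply Finset.sum_nonneg
  intro e _
  split_ifs
  · exact mul_nonneg (hnn U) (Finset.prod_nonneg (fun d _ => kw_nonneg st q hq U d (e d)))
  · exact le_refl _

private theorem push_sum (q : ℝ) (μ : Finset X → ℝ) (R : Finset X → Prop) [DecidablePred R] :
    (∑ A, if R A then push st q μ A else 0) =
      ∑ U, ∑ e : D → Option V, if R (st.rem U e) then μ U * ∏ d, st.kw q U d (e d) else 0 := by
  unfold push
  have h1 : ∀ A, (if R A then (∑ U, ∑ e : D → Option V,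
      if st.rem U e = A then μ U * ∏ d, st.kw q U d (e d) else 0) else 0) =
      ∑ U, ∑ e : D → Option V, if st.rem U e = A then
        (if R A then μ U * ∏ d, st.kw q U d (e d) else 0) else 0 := by
    intro A
    by_cases h : R A
    · simp [h]
    · simp [h]
  simp_rw [h1]
  rw [Finset.sum_comm]
  apply Finset.sum_congr rfl
  intro U _
  rw [Finset.sum_comm]
  apply Finset.sum_congr rfl
  intro e _
  rw [Finset.sum_ite_eq]
  simp

private theorem prb_push (q : ℝ) (μ : Finset X → ℝ) (R : Finset X) :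
    prb (push st q μ) R = ∑ U, if R ⊆ U then
      μ U * ∏ d, (1 - ∑ v ∈ st.lab R d, st.kap q U d v) else 0 := by
  unfold prb
  rw [push_sum st q μ (fun A => R ⊆ A)]
  apply Finset.sum_congr rfl
  intro U _
  by_cases h : R ⊆ U
  · rw [if_pos h, ← sel_prob st q U R h, Finset.mul_sum]
    apply Finset.sum_congr rfl
    intro e _
    split_ifs <;> simp
  · rw [if_neg h]
    apply Finset.sum_eq_zero
    intro e _
    rw [if_neg]
    intro h2
    exact h (h2.trans (Finset.filter_subset _ _))

private theorem lin1 (μ : Finset X → ℝ) (R : Finset X) (f : Finset X → ℝ) (a b : ℝ) :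
    (∑ U, if R ⊆ U then μ U * (a - b * f U) else 0) =
      a * prb μ R - b * ∑ U, (if R ⊆ U then μ U * f U else 0) := by
  unfold prb
  rw [Finset.mul_sum, Finset.mul_sum, ← Finset.sum_sub_distrib]
  apply Finset.sum_congr rfl
  intro U _
  split_ifs
  · ring
  · ring

private theorem lin2 (μ : Finset X → ℝ) (R : Finset X) (f : Finset X → ℝ) (a b : ℝ) :
    (∑ U, if R ⊆ U then μ U * (a - b * f U + f U ^ 2) else 0) =
      a * prb μ R - b * ∑ U, (if R ⊆ U then μ U * f U else 0) +
        ∑ U, (if R ⊆ U then μ U * f U ^ 2 else 0) := by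
  rw [← lin1, ← Finset.sum_add_distrib]
  apply Finset.sum_congr rfl
  intro U _
  split_ifs
  · ring
  · ring

theorem step_law (μ : Finset X → ℝ) (q δ : ℝ) (n : ℕ) (hn : 1 ≤ n) (hq : 0 < q) (hq1 : q ≤ 1)
    (hδ : 0 ≤ δ) (hδ1 : δ ≤ 1) (hN : (st.N : ℝ) ≤ 4 * st.p * q) (hsm : (n : ℝ) ≤ st.p * q ^ st.K)
    (hL : Law μ q δ (n + 2 * st.K)) :
    Law (push st q μ) (q * Real.exp (-(st.N / (2 * st.p * q))))
      (Lam st.g st.K n q * (δ + 1 / st.p)) n := by
  have hpR : (0 : ℝ) < st.p := by exact_mod_cast st.hp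
  have hgR : (1 : ℝ) ≤ st.g := by exact_mod_cast st.hg
  have hKR : (1 : ℝ) ≤ st.K := by exact_mod_cast st.hK
  have hnR : (1 : ℝ) ≤ n := by exact_mod_cast hn
  set κ : ℝ := st.km q with hκd
  set Q : ℝ := (1 / q) ^ st.K with hQ
  have hQ1 : 1 ≤ 1 / q := by rw [le_div_iff₀ hq]; linarith
  have hR1 : 1 ≤ Q := one_le_pow₀ hQ1
  have hκ : κ = Q / (2 * st.p) := by
    rw [hκd, hQ]; unfold Stage.km
    rw [one_div_pow]; field_simp
  have hκ0 : 0 ≤ κ := by rw [hκ]; positivity
  have hnκ : (n : ℝ) * κ ≤ 1 / 2 := by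
    rw [hκd]; unfold Stage.km
    rw [mul_one_div, div_le_div_iff₀ (by positivity) (by norm_num)]
    linarith
  set a : ℝ := st.N / (2 * st.p * q) with ha
  have ha0 : 0 ≤ a := by positivity
  have ha2 : a ≤ 2 := by
    rw [ha, div_le_iff₀ (by positivity)]; linarith
  have hΛ : Lam st.g st.K n q = 24 * st.g * (n : ℝ) ^ 3 * st.K * Q ^ 2 *
      (Real.exp (2 * n) * (1 / q) ^ n) := by
    unfold Lam
    rw [hQ, ← pow_mul, pow_add, mul_comm st.K 2]; ring
  have hE1 : 1 ≤ Real.exp (2 * n) := Real.one_le_exp (by positivity)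
  have hG2 : 1 ≤ Real.exp (2 * n) * (1 / q) ^ n := by
    have := one_le_pow₀ (n := n) hQ1
    nlinarith
  constructor
  · exact push_nn st q hq μ hL.nn
  · have h := push_sum st q μ (fun _ => True)
    simp only [if_true] at h
    rw [h]
    simp_rw [← Finset.mul_sum, kw_one, mul_one]
    exact hL.one
  · intro R hR
    have hRR : (R.card : ℝ) ≤ n := by exact_mod_cast hR
    have hc : R.card * st.km q ≤ 1 / 2 := by
      have : (R.card : ℝ) * κ ≤ n * κ := mul_le_mul_of_nonneg_right hRR hκ0
      linarith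
    have hm : R.card * a ≤ 2 * (n : ℝ) := by
      have : (R.card : ℝ) * a ≤ n * 2 := mul_le_mul hRR ha2 ha0 (by positivity)
      linarith
    set C : ℝ := 1 + 2 * (R.card * κ) with hC
    have hqq : (q * Real.exp (-a)) ^ R.card = q ^ R.card * Real.exp (-(R.card * a)) := by
      rw [mul_pow, ← Real.exp_nat_mul]; congr 2; ring
    rw [hqq, prb_push]
    have h1 := num_lo (R.card : ℝ) n st.g st.K st.p δ (R.card * a) κ Q (Lam st.g st.K n q)
      (q ^ R.card) (prb μ R) (∑ U, if R ⊆ U then μ U * st.Ys q R U else 0) C (by positivity) hRR hnR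
      hgR hKR hpR hδ hδ1 (by positivity) hm hR1 hκ hc hC (by positivity)
      (by
        rw [hΛ]
        have : 0 ≤ 24 * (st.g : ℝ) * (n : ℝ) ^ 3 * st.K * Q ^ 2 := by positivity
        nlinarith)
      (hL.lo R (by omega))
      (by
        have h2 := mom1_up st μ q δ n hq hq1 hδ hL R hR
        have h3 : (R.card : ℝ) * st.N / (2 * st.p * q) = R.card * a := by rw [ha]; ring
        rw [h3] at h2
        exact h2)
    refine h1.trans ?_
    have h2 : Real.exp (-(C * (R.card * a))) * (prb μ R * (1 + C * (R.card * a)) -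
        C * ∑ U, (if R ⊆ U then μ U * st.Ys q R U else 0)) =
        ∑ U, if R ⊆ U then μ U * (Real.exp (-(C * (R.card * a))) * (1 + C * (R.card * a)) -
          (Real.exp (-(C * (R.card * a))) * C) * st.Ys q R U) else 0 := by
      rw [lin1]; ring
    rw [h2]
    apply Finset.sum_le_sum
    intro U _
    split_ifs with hU
    · apply mul_le_mul_of_nonneg_left _ (hL.nn U)
      refine le_trans ?_ (prod_lo st q hq hq1 U R hc)
      have h3 := exp_tangent (C * (R.card * a)) (C * st.Ys q R U)
      have h4 : Real.exp (-(C * (R.card * a))) * (1 - (C * st.Ys q R U - C * (R.card * a))) =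
          Real.exp (-(C * (R.card * a))) * (1 + C * (R.card * a)) -
          (Real.exp (-(C * (R.card * a))) * C) * st.Ys q R U := by ring
      rw [h4] at h3
      exact h3
    · exact le_refl _
  · intro R hR
    have hRR : (R.card : ℝ) ≤ n := by exact_mod_cast hR
    have hc : R.card * st.km q ≤ 1 / 2 := by
      have : (R.card : ℝ) * κ ≤ n * κ := mul_le_mul_of_nonneg_right hRR hκ0
      linarith
    have hm : R.card * a ≤ 2 * (n : ℝ) := by
      have : (R.card : ℝ) * a ≤ n * 2 := mul_le_mul hRR ha2 ha0 (by positivity)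
      linarith
    have hm0 : 0 ≤ R.card * a := by positivity
    set m : ℝ := R.card * a with hmd
    have hqq : (q * Real.exp (-a)) ^ R.card = q ^ R.card * Real.exp (-m) := by
      rw [mul_pow, ← Real.exp_nat_mul]; congr 2; rw [hmd]; ring
    rw [hqq, prb_push]
    have hYs0 : ∀ U, 0 ≤ st.Ys q R U := by
      intro U
      unfold Stage.Ys
      apply Finset.sum_nonneg; intro x _
      apply Finset.sum_nonneg; intro d _
      unfold Stage.y
      split_ifs
      · positivity
      · exact le_refl _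
    -- pointwise
    have h1 : (∑ U, if R ⊆ U then
        μ U * ∏ d, (1 - ∑ v ∈ st.lab R d, st.kap q U d v) else 0) ≤
        (∑ U, if R ⊆ U then μ U * ((Real.exp (-m) * (1 + m) + m ^ 2) -
          (Real.exp (-m) + 2 * m) * st.Ys q R U + st.Ys q R U ^ 2) else 0) +
        (R.card ^ 3 * st.g * κ + R.card * κ * ∑ U, μ U * (st.F q U : ℝ)) := by
      have h2 : (R.card : ℝ) ^ 3 * st.g * κ + R.card * κ * ∑ U, μ U * (st.F q U : ℝ) =
          ∑ U, μ U * (R.card ^ 3 * st.g * κ + R.card * κ * st.F q U) := by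
        simp_rw [mul_add]
        rw [Finset.sum_add_distrib, ← Finset.sum_mul, hL.one, one_mul, Finset.mul_sum]
        congr 1
        apply Finset.sum_congr rfl
        intro U _
        ring
      rw [h2, ← Finset.sum_add_distrib]
      apply Finset.sum_le_sum
      intro U _
      have hF0 : 0 ≤ (R.card : ℝ) ^ 3 * st.g * κ + R.card * κ * st.F q U := by positivity
      split_ifs with hU
      · rw [← mul_add]
        apply mul_le_mul_of_nonneg_left _ (hL.nn U)
        refine (prod_up st q hq hq1 U R hc).trans ?_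
        apply add_le_add _ (le_refl _)
        have h3 := exp_second m (st.Ys q R U) hm0 (hYs0 U)
        have h4 : Real.exp (-m) * (1 - (st.Ys q R U - m)) + (st.Ys q R U - m) ^ 2 =
            (Real.exp (-m) * (1 + m) + m ^ 2) -
          (Real.exp (-m) + 2 * m) * st.Ys q R U + st.Ys q R U ^ 2 := by ring
        rw [h4] at h3
        exact h3
      · rw [zero_add]
        exact mul_nonneg (hL.nn U) hF0
    refine h1.trans ?_
    rw [lin2]
    have h3 : (R.card : ℝ) * st.N / (2 * st.p * q) = m := by rw [hmd, ha]; ring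
    apply num_up (R.card : ℝ) n st.g st.K st.p δ m κ Q (Real.exp (2 * n) * (1 / q) ^ n)
      (Lam st.g st.K n q) (q ^ R.card) (prb μ R) _ _ (∑ U, μ U * (st.F q U : ℝ)) st.N
      (by positivity) hRR hnR hgR hKR hpR hδ hδ1 hm0 hm hR1 hκ (by positivity)
    · have : 4 * (st.p : ℝ) * q ≤ 4 * st.p * 1 := mul_le_mul_of_nonneg_left hq1 (by positivity)
      linarith
    · positivity
    · have h4 : Real.exp (2 * n) * (1 / q) ^ n * (q ^ R.card * Real.exp (-m)) =
          (Real.exp (2 * n) * Real.exp (-m)) * ((1 / q) ^ n * q ^ R.card) := by ring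
      rw [h4]
      have h5 : 1 ≤ Real.exp (2 * n) * Real.exp (-m) := by
        rw [← Real.exp_add]; exact Real.one_le_exp (by linarith)
      have h6 : 1 ≤ (1 / q) ^ n * q ^ R.card := by
        have h7 : q ^ n ≤ q ^ R.card := pow_le_pow_of_le_one hq.le hq1 hR
        have h8 : (1 / q) ^ n * q ^ n = 1 := by
          rw [← mul_pow, one_div_mul_cancel hq.ne', one_pow]
        have h9 := mul_le_mul_of_nonneg_left h7 (show 0 ≤ (1 / q) ^ n by positivity)
        linarith
      nlinarith
    · have h5 : 1 ≤ Real.exp (2 * n) * Real.exp (-m) := by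
        rw [← Real.exp_add]; exact Real.one_le_exp (by linarith)
      have h6 := one_le_pow₀ (n := n) hQ1
      have h7 : Real.exp (2 * n) * (1 / q) ^ n * Real.exp (-m) =
        (Real.exp (2 * n) * Real.exp (-m)) * (1 / q) ^ n := by ring
      rw [h7]
      nlinarith
    · exact hG2
    · rw [hΛ]
    · exact hL.up R (by omega)
    · have h2 := mom1_lo st μ q δ n hq hq1 hδ1 hL R hR
      rw [h3] at h2
      exact h2
    · have h2 := mom2_up st μ q δ n hq hq1 hδ hL R hR
      rw [h3] at h2
      exact h2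
    · exact fail_mean st μ q δ n hq hq1 hδ hδ1 hL

end H23A1
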