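import Mathlib
import Pool.Agent.H23.A1.SelD

/-! One stage: the support of the new law is realisable (row D). -/

namespace H23A1

open Finset

variable {X D V : Type} [Fintype X] [DecidableEq X] [Fintype D] [DecidableEq D]
  [Fintype V] [DecidableEq V] (st : Stage X D V)

theorem step_real (μ : Finset X → ℝ) (q : ℝ) (hq : 0 < q) (hnn : ∀ U, 0 ≤ μ U) (A : Finset X)
    (hA : 0 < push st q μ A) :
    ∃ U, 0 < μ U ∧ ∃ e : D → Option V, (∀ d v, e d = some v → v ∈ st.B d) ∧
      ∀ x ∈ U, x ∉ A → ∃ d, e d = some (st.T d x) := by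
  have _ := hq
  unfold push at hA
  obtain ⟨U, -, hU⟩ := Finset.exists_ne_zero_of_sum_ne_zero hA.ne'
  obtain ⟨e, -, he⟩ := Finset.exists_ne_zero_of_sum_ne_zero hU
  have h1 : st.rem U e = A := by
    by_contra h2
    rw [if_neg h2] at he
    exact he rfl
  rw [if_pos h1] at he
  have h2 : μ U ≠ 0 := left_ne_zero_of_mul he
  have h3 : ∏ d, st.kw q U d (e d) ≠ 0 := right_ne_zero_of_mul he
  rw [Finset.prod_ne_zero_iff] at h3
  refine ⟨U, lt_of_le_of_ne (hnn U) (Ne.symm h2), e, ?_, ?_⟩
  · intro d v hd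
    have h4 := h3 d (Finset.mem_univ d)
    rw [hd] at h4
    by_contra h5
    apply h4
    show (if v ∈ st.B d then st.kap q U d v else 0) = 0
    rw [if_neg h5]
  · intro x hx hxA
    rw [← h1] at hxA
    unfold Stage.rem at hxA
    rw [Finset.mem_filter, not_and] at hxA
    have h4 := hxA hx
    push Not at h4
    obtain ⟨d, -, hd⟩ := h4
    exact ⟨d, hd⟩

end H23A1
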