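import Mathlib
import Pool.Agent.H23.A1.Stp
import Pool.Agent.H23.A1.StpR
import Pool.Agent.H23.A1.Qs

/-! All stages (row G2). -/

namespace H23A1

open Finset

/-- elementary facts on the uniform bound -/
private theorem Lbar_ge (g K J : ℕ) (hg : 1 ≤ g) (hK : 1 ≤ K) :
    (1 + 2 * K * J : ℝ) * Real.exp (2 * J * (1 + 2 * K * J + 2 * K)) ≤ Lbar g K J := by
  have hg' : (1 : ℝ) ≤ g := by exact_mod_cast hg
  have hK' : (1 : ℝ) ≤ K := by exact_mod_cast hK
  have hJ' : (0 : ℝ) ≤ J := Nat.cast_nonneg J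
  have ha : (1 : ℝ) ≤ 1 + 2 * K * J := by nlinarith [mul_nonneg (zero_le_one.trans hK') hJ']
  have hE : (1 : ℝ) ≤ Real.exp (2 * (1 + 2 * K * J)) := by
    apply Real.one_le_exp
    linarith
  have ha3 : (1 + 2 * K * J : ℝ) ≤ (1 + 2 * K * J : ℝ) ^ 3 := by
    nlinarith [mul_nonneg (sub_nonneg.mpr ha) (sub_nonneg.mpr ha),
      mul_nonneg (mul_nonneg (sub_nonneg.mpr ha) (sub_nonneg.mpr ha)) (sub_nonneg.mpr ha)]
  have hgK : (1 : ℝ) ≤ 24 * g * K := by nlinarith
  unfold Lbar
  apply mul_le_mul_of_nonneg_right _ (Real.exp_pos _).le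
  calc (1 + 2 * K * J : ℝ) ≤ (1 + 2 * K * J : ℝ) ^ 3 := ha3
    _ = 1 * (1 + 2 * K * J : ℝ) ^ 3 * 1 := by ring
    _ ≤ (24 * g * K) * (1 + 2 * K * J : ℝ) ^ 3 * Real.exp (2 * (1 + 2 * K * J)) := by
        apply mul_le_mul _ hE zero_le_one _
        · apply mul_le_mul_of_nonneg_right hgK
          positivity
        · positivity
    _ = 24 * g * (1 + 2 * K * J : ℝ) ^ 3 * K * Real.exp (2 * (1 + 2 * K * J)) := by ring

private theorem Lam_le (g K J n : ℕ) (hK : 1 ≤ K) (hn : n ≤ 1 + 2 * K * J) (q : ℝ)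
    (hq : Real.exp (-(2 * J : ℝ)) ≤ q) : Lam g K n q ≤ Lbar g K J := by
  have hq0 : 0 < q := lt_of_lt_of_le (Real.exp_pos _) hq
  have hn' : (n : ℝ) ≤ 1 + 2 * K * J := by exact_mod_cast hn
  have h1 : 1 / q ≤ Real.exp (2 * J) := by
    rw [div_le_iff₀ hq0]
    calc (1 : ℝ) = Real.exp (2 * J) * Real.exp (-(2 * J : ℝ)) := by
          rw [← Real.exp_add]; simp
      _ ≤ Real.exp (2 * J) * q := mul_le_mul_of_nonneg_left hq (Real.exp_pos _).le
  have h2 : (1 / q) ^ (n + 2 * K) ≤ Real.exp (2 * J * (1 + 2 * K * J + 2 * K)) := by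
    calc (1 / q) ^ (n + 2 * K) ≤ Real.exp (2 * J) ^ (n + 2 * K) :=
          pow_le_pow_left₀ (by positivity) h1 _
      _ = Real.exp (((n + 2 * K : ℕ) : ℝ) * (2 * J)) := by
          rw [← Real.exp_nat_mul]
      _ ≤ Real.exp (2 * J * (1 + 2 * K * J + 2 * K)) := by
          apply Real.exp_le_exp.mpr
          push_cast
          have : (0 : ℝ) ≤ 2 * J := by positivity
          nlinarith
  have h3 : Real.exp (2 * n) ≤ Real.exp (2 * (1 + 2 * K * J)) := by
    apply Real.exp_le_exp.mpr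
    linarith
  have h4 : (n : ℝ) ^ 3 ≤ (1 + 2 * K * J : ℝ) ^ 3 := pow_le_pow_left₀ (by positivity) hn' _
  unfold Lam Lbar
  apply mul_le_mul _ h2 (by positivity) (by positivity)
  apply mul_le_mul _ h3 (by positivity) (by positivity)
  apply mul_le_mul_of_nonneg_right _ (by positivity)
  apply mul_le_mul_of_nonneg_left h4 (by positivity)

private theorem Law_mono {X : Type} [Fintype X] [DecidableEq X] {μ : Finset X → ℝ} {q δ δ' : ℝ}
    {n : ℕ} (hq : 0 ≤ q) (h : Law μ q δ n) (hd : δ ≤ δ') : Law μ q δ' n := by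
  refine ⟨h.nn, h.one, ?_, ?_⟩
  · intro S hS
    refine le_trans ?_ (h.lo S hS)
    apply mul_le_mul_of_nonneg_right _ (pow_nonneg hq _)
    linarith
  · intro S hS
    refine le_trans (h.up S hS) ?_
    apply mul_le_mul_of_nonneg_right _ (pow_nonneg hq _)
    linarith

/-- the point mass at the full set -/
private theorem Law_zero {X : Type} [Fintype X] [DecidableEq X] (δ : ℝ) (hδ : 0 ≤ δ) (n : ℕ) :
    Law (fun U : Finset X => if U = univ then (1 : ℝ) else 0) 1 δ n := by
  have hp : ∀ S : Finset X, prb (fun U : Finset X => if U = univ then (1 : ℝ) else 0) S = 1 := by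
    intro S
    unfold prb
    rw [Finset.sum_eq_single univ]
    · simp
    · intro U _ hU
      simp [hU]
    · intro h
      exact absurd (Finset.mem_univ _) h
  refine ⟨?_, ?_, ?_, ?_⟩
  · intro U
    split_ifs <;> norm_num
  · simp
  · intro S _
    rw [hp S, one_pow]
    linarith
  · intro S _
    rw [hp S, one_pow]
    linarith

/-- one stage -/
private theorem one_stage {X D V : Type} [Fintype X] [DecidableEq X] [Fintype D] [DecidableEq D]
    [Fintype V] [DecidableEq V] (T : D → X → V) (G : D → Finset V) (s : D → ℕ) (p g K J : ℕ)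
    (hg : 1 ≤ g) (hK : 1 ≤ K) (hJ : 1 ≤ J)
    (fib : ∀ d v, (univ.filter (fun x => T d x = v)).card ≤ K)
    (cod : ∀ x x', x ≠ x' → (univ.filter (fun d => T d x = T d x')).card ≤ g)
    (cV : Fintype.card V ≤ p) (cD : Fintype.card D ≤ g * p)
    (hN : ∀ x, ∀ j < J, Ns p j ≤ (univ.filter (fun d => s d = j ∧ T d x ∈ G d)).card)
    (hbig : (2 * Lbar g K J) ^ J ≤ p) (j : ℕ) (hj : j < J) (μ : Finset X → ℝ)
    (hL : Law μ (qs p j) ((2 * Lbar g K J) ^ j / p) (1 + 2 * K * (J - j))) :
    ∃ μ' : Finset X → ℝ,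
      Law μ' (qs p (j + 1)) ((2 * Lbar g K J) ^ (j + 1) / p) (1 + 2 * K * (J - (j + 1))) ∧
      ∀ A, 0 < μ' A → ∃ U, 0 < μ U ∧ ∃ e : D → Option V,
        (∀ d v, e d = some v → s d = j ∧ v ∈ G d) ∧
        ∀ x ∈ U, x ∉ A → ∃ d, e d = some (T d x) := by
  have hLb := Lbar_ge g K J hg hK
  have hK' : (1 : ℝ) ≤ K := by exact_mod_cast hK
  have hJ' : (1 : ℝ) ≤ J := by exact_mod_cast hJ
  have hKJ : (1 : ℝ) ≤ (K : ℝ) * J := by nlinarith
  have hexp1 : (1 : ℝ) ≤ Real.exp (2 * J * (1 + 2 * K * J + 2 * K)) := by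
    apply Real.one_le_exp
    positivity
  have hLb1 : (1 : ℝ) ≤ Lbar g K J := by
    refine le_trans ?_ hLb
    nlinarith
  have hbase : (1 : ℝ) ≤ 2 * Lbar g K J := by linarith
  have hp2 : 2 * Lbar g K J ≤ p := by
    refine le_trans ?_ hbig
    calc 2 * Lbar g K J = (2 * Lbar g K J) ^ 1 := (pow_one _).symm
      _ ≤ (2 * Lbar g K J) ^ J := pow_le_pow_right₀ hbase hJ
  have hp1 : (1 : ℝ) ≤ p := by linarith
  have hp0 : (0 : ℝ) < p := by linarith
  have hp1' : 1 ≤ p := by exact_mod_cast hp1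
  have hexpJ : Real.exp (2 * J) ≤ p := by
    calc Real.exp (2 * J) ≤ Real.exp (2 * J * (1 + 2 * K * J + 2 * K)) := by
          apply Real.exp_le_exp.mpr
          nlinarith
      _ = 1 * Real.exp (2 * J * (1 + 2 * K * J + 2 * K)) := (one_mul _).symm
      _ ≤ (1 + 2 * K * J : ℝ) * Real.exp (2 * J * (1 + 2 * K * J + 2 * K)) := by
          apply mul_le_mul_of_nonneg_right _ (Real.exp_pos _).le
          nlinarith
      _ ≤ Lbar g K J := hLb
      _ ≤ p := by linarith
  obtain ⟨hq1, hq2⟩ := qs_bounds p J hexpJ j hj.le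
  have hjJ : (j : ℝ) ≤ J := by exact_mod_cast hj.le
  have hq0 : 0 < qs p j := lt_of_lt_of_le (Real.exp_pos _) hq1
  have hqJ : Real.exp (-(2 * J : ℝ)) ≤ qs p j := by
    refine le_trans ?_ hq1
    apply Real.exp_le_exp.mpr
    linarith
  have hqle1 : qs p j ≤ 1 := by
    refine le_trans hq2 ?_
    apply Real.exp_le_one_iff.mpr
    have : (0 : ℝ) ≤ j := Nat.cast_nonneg j
    linarith
  have hpq : 1 ≤ (p : ℝ) * qs p j := by
    calc (1 : ℝ) = Real.exp (2 * J) * Real.exp (-(2 * J : ℝ)) := by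
          rw [← Real.exp_add]; simp
      _ ≤ (p : ℝ) * qs p j := mul_le_mul hexpJ hqJ (Real.exp_pos _).le hp0.le
  -- the parts in which an atom counts
  have hPex : ∀ x : X, ∃ P : Finset D, P ⊆ univ.filter (fun d => s d = j ∧ T d x ∈ G d) ∧
      P.card = Ns p j := by
    intro x
    exact Finset.exists_subset_card_eq (hN x j hj)
  choose P hP1 hP2 using hPex
  let st : Stage X D V :=
    { T := T
      P := P
      B := fun d => if s d = j then G d else ∅
      p := p
      g := g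
      K := K
      N := Ns p j
      hp := hp1'
      hg := hg
      hK := hK
      fib := fib
      cod := cod
      cP := hP2
      PB := by
        intro x d hd
        have := hP1 x hd
        rw [Finset.mem_filter] at this
        rw [if_pos this.2.1]
        exact this.2.2
      cB := by
        intro d
        refine le_trans ?_ cV
        exact Finset.card_le_univ _
      cD := cD }
  have hδ0 : 0 ≤ (2 * Lbar g K J) ^ j / (p : ℝ) := by positivity
  have hpowj : (2 * Lbar g K J) ^ j ≤ p := by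
    refine le_trans ?_ hbig
    exact pow_le_pow_right₀ hbase hj.le
  have hδ1 : (2 * Lbar g K J) ^ j / (p : ℝ) ≤ 1 := by
    rw [div_le_one hp0]
    exact hpowj
  have hNle : ((Ns p j : ℕ) : ℝ) ≤ 4 * p * qs p j := by
    unfold Ns
    have h0 : 0 ≤ 2 * (p : ℝ) * qs p j := by positivity
    have := (Nat.ceil_lt_add_one h0).le
    nlinarith
  have hnle : 1 + 2 * K * (J - (j + 1)) ≤ 1 + 2 * K * J := by
    have : J - (j + 1) ≤ J := Nat.sub_le _ _
    have := Nat.mul_le_mul_left (2 * K) this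
    omega
  have hsm : ((1 + 2 * K * (J - (j + 1)) : ℕ) : ℝ) ≤ p * qs p j ^ K := by
    have h1 : ((1 + 2 * K * (J - (j + 1)) : ℕ) : ℝ) ≤ 1 + 2 * K * J := by
      exact_mod_cast hnle
    have h2 : Real.exp (-(2 * J * K : ℝ)) ≤ qs p j ^ K := by
      calc Real.exp (-(2 * J * K : ℝ)) = Real.exp (-(2 * J : ℝ)) ^ K := by
            rw [← Real.exp_nat_mul]; congr 1; ring
        _ ≤ qs p j ^ K := pow_le_pow_left₀ (Real.exp_pos _).le hqJ _
    calc ((1 + 2 * K * (J - (j + 1)) : ℕ) : ℝ) ≤ 1 + 2 * K * J := h1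
      _ = (1 + 2 * K * J) * (Real.exp (2 * J * K) * Real.exp (-(2 * J * K : ℝ))) := by
          rw [← Real.exp_add]; simp
      _ = ((1 + 2 * K * J) * Real.exp (2 * J * K)) * Real.exp (-(2 * J * K : ℝ)) := by ring
      _ ≤ p * qs p j ^ K := by
          apply mul_le_mul _ h2 (Real.exp_pos _).le hp0.le
          refine le_trans ?_ (le_trans hLb (by linarith))
          apply mul_le_mul_of_nonneg_left _ (by positivity)
          apply Real.exp_le_exp.mpr
          nlinarith
  have hn2 : 1 + 2 * K * (J - (j + 1)) + 2 * K = 1 + 2 * K * (J - j) := by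
    have : J - j = (J - (j + 1)) + 1 := by omega
    rw [this]; ring
  have hstep := step_law st μ (qs p j) ((2 * Lbar g K J) ^ j / p) (1 + 2 * K * (J - (j + 1)))
    (by omega) hq0 hqle1 hδ0 hδ1 hNle hsm (by
      change Law μ (qs p j) ((2 * Lbar g K J) ^ j / p) (1 + 2 * K * (J - (j + 1)) + 2 * K)
      rw [hn2]
      exact hL)
  refine ⟨push st (qs p j) μ, ?_, ?_⟩
  · have hlam : Lam g K (1 + 2 * K * (J - (j + 1))) (qs p j) ≤ Lbar g K J :=
      Lam_le g K J _ hK hnle _ hqJ
    have hq' : qs p (j + 1) = qs p j * Real.exp (-(((Ns p j : ℕ) : ℝ) / (2 * p * qs p j))) := rfl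
    have hstep' : Law (push st (qs p j) μ) (qs p (j + 1))
      (Lam g K (1 + 2 * K * (J - (j + 1))) (qs p j) * ((2 * Lbar g K J) ^ j / p + 1 / p))
      (1 + 2 * K * (J - (j + 1))) := hstep
    refine Law_mono ?_ hstep' ?_
    · rw [hq']
      positivity
    · have h1 : (1 : ℝ) ≤ (2 * Lbar g K J) ^ j := one_le_pow₀ hbase
      calc Lam g K (1 + 2 * K * (J - (j + 1))) (qs p j) * ((2 * Lbar g K J) ^ j / p + 1 / p)
          ≤ Lbar g K J * ((2 * Lbar g K J) ^ j / p + (2 * Lbar g K J) ^ j / p) := by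
            apply mul_le_mul hlam _ (by positivity) (by linarith)
            have := div_le_div_of_nonneg_right h1 hp0.le
            linarith
        _ = (2 * Lbar g K J) ^ (j + 1) / p := by
            rw [pow_succ]; ring
  · intro A hA
    obtain ⟨U, hU, e, he1, he2⟩ := step_real st μ (qs p j) hq0 hL.nn A hA
    refine ⟨U, hU, e, ?_, he2⟩
    intro d v hdv
    have h := he1 d v hdv
    change v ∈ (if s d = j then G d else ∅) at h
    by_cases hs : s d = j
    · rw [if_pos hs] at h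
      exact ⟨hs, h⟩
    · rw [if_neg hs] at h
      exact absurd h (Finset.notMem_empty _)

theorem iterate {X D V : Type} [Fintype X] [DecidableEq X] [Fintype D] [DecidableEq D]
    [Fintype V] [DecidableEq V] (T : D → X → V) (G : D → Finset V) (s : D → ℕ) (p g K J : ℕ)
    (hg : 1 ≤ g) (hK : 1 ≤ K) (hJ : 1 ≤ J)
    (fib : ∀ d v, (univ.filter (fun x => T d x = v)).card ≤ K)
    (cod : ∀ x x', x ≠ x' → (univ.filter (fun d => T d x = T d x')).card ≤ g)
    (cV : Fintype.card V ≤ p) (cD : Fintype.card D ≤ g * p)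
    (hN : ∀ x, ∀ j < J, Ns p j ≤ (univ.filter (fun d => s d = j ∧ T d x ∈ G d)).card)
    (hbig : (2 * Lbar g K J) ^ J ≤ p) :
    ∃ e : D → Option V, (∀ d v, e d = some v → v ∈ G d) ∧
      ((univ.filter (fun x => ∀ d, e d ≠ some (T d x))).card : ℝ) ≤
        2 * Real.exp (-(J : ℝ)) * Fintype.card X := by
  have hLb := Lbar_ge g K J hg hK
  have hK' : (1 : ℝ) ≤ K := by exact_mod_cast hK
  have hJ' : (1 : ℝ) ≤ J := by exact_mod_cast hJ
  have hKJ : (1 : ℝ) ≤ (K : ℝ) * J := by nlinarith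
  have hexp1 : (1 : ℝ) ≤ Real.exp (2 * J * (1 + 2 * K * J + 2 * K)) := by
    apply Real.one_le_exp
    positivity
  have hLb1 : (1 : ℝ) ≤ Lbar g K J := by
    refine le_trans ?_ hLb
    nlinarith
  have hbase : (1 : ℝ) ≤ 2 * Lbar g K J := by linarith
  have hp2 : 2 * Lbar g K J ≤ p := by
    refine le_trans ?_ hbig
    calc 2 * Lbar g K J = (2 * Lbar g K J) ^ 1 := (pow_one _).symm
      _ ≤ (2 * Lbar g K J) ^ J := pow_le_pow_right₀ hbase hJ
  have hp1 : (1 : ℝ) ≤ p := by linarith
  have hp0 : (0 : ℝ) < p := by linarith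
  have hexpJ : Real.exp (2 * J) ≤ p := by
    calc Real.exp (2 * J) ≤ Real.exp (2 * J * (1 + 2 * K * J + 2 * K)) := by
          apply Real.exp_le_exp.mpr
          nlinarith
      _ = 1 * Real.exp (2 * J * (1 + 2 * K * J + 2 * K)) := (one_mul _).symm
      _ ≤ (1 + 2 * K * J : ℝ) * Real.exp (2 * J * (1 + 2 * K * J + 2 * K)) := by
          apply mul_le_mul_of_nonneg_right _ (Real.exp_pos _).le
          nlinarith
      _ ≤ Lbar g K J := hLb
      _ ≤ p := by linarith
  have main : ∀ j, j ≤ J → ∃ μ : Finset X → ℝ,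
      Law μ (qs p j) ((2 * Lbar g K J) ^ j / p) (1 + 2 * K * (J - j)) ∧
      ∀ U, 0 < μ U → ∃ e : D → Option V, (∀ d v, e d = some v → s d < j ∧ v ∈ G d) ∧
        ∀ x, x ∉ U → ∃ d, e d = some (T d x) := by
    intro j
    induction j with
    | zero =>
      intro _
      refine ⟨fun U => if U = univ then 1 else 0, Law_zero _ (by positivity) _, ?_⟩
      intro U hU
      have hUe : U = univ := by
        by_contra h
        simp [h] at hU
      refine ⟨fun _ => none, ?_, ?_⟩
      · intro d v h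
        exact absurd h (by simp)
      · intro x hx
        exact absurd (hUe ▸ Finset.mem_univ x) hx
    | succ j ih =>
      intro hj
      obtain ⟨μ, hL, hμ⟩ := ih (by omega)
      obtain ⟨μ', hL', hμ'⟩ := one_stage T G s p g K J hg hK hJ fib cod cV cD hN hbig j
        (by omega) μ hL
      refine ⟨μ', hL', ?_⟩
      intro A hA
      obtain ⟨U, hU, e1, he1, he1'⟩ := hμ' A hA
      obtain ⟨e0, he0, he0'⟩ := hμ U hU
      refine ⟨fun d => if s d = j then e1 d else e0 d, ?_, ?_⟩
      · intro d v h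
        dsimp only at h
        by_cases hs : s d = j
        · rw [if_pos hs] at h
          exact ⟨by omega, (he1 d v h).2⟩
        · rw [if_neg hs] at h
          have := he0 d v h
          exact ⟨by omega, this.2⟩
      · intro x hx
        by_cases hxU : x ∈ U
        · obtain ⟨d, hd⟩ := he1' x hxU hx
          refine ⟨d, ?_⟩
          dsimp only
          rw [if_pos (he1 d _ hd).1]
          exact hd
        · obtain ⟨d, hd⟩ := he0' x hxU
          refine ⟨d, ?_⟩
          dsimp only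
          have := (he0 d _ hd).1
          rw [if_neg (by omega)]
          exact hd
  obtain ⟨μ, hL, hμ⟩ := main J le_rfl
  obtain ⟨hq1, hq2⟩ := qs_bounds p J hexpJ J le_rfl
  have hq0 : 0 < qs p J := lt_of_lt_of_le (Real.exp_pos _) hq1
  have hδ1 : (2 * Lbar g K J) ^ J / (p : ℝ) ≤ 1 := by
    rw [div_le_one hp0]
    exact hbig
  have hsing : ∀ x : X, prb μ {x} ≤ 2 * Real.exp (-(J : ℝ)) := by
    intro x
    have h := hL.up {x} (by rw [Finset.card_singleton]; omega)
    rw [Finset.card_singleton, pow_one] at h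
    calc prb μ {x} ≤ (1 + (2 * Lbar g K J) ^ J / (p : ℝ)) * qs p J := h
      _ ≤ 2 * Real.exp (-(J : ℝ)) := by
          apply mul_le_mul (by linarith) hq2 hq0.le (by norm_num)
  have hswap : ∑ U, μ U * (U.card : ℝ) = ∑ x : X, prb μ {x} := by
    unfold prb
    rw [Finset.sum_comm]
    refine Finset.sum_congr rfl ?_
    intro U _
    have : ∀ x : X, (if ({x} : Finset X) ⊆ U then μ U else 0) = if x ∈ U then μ U else 0 := by
      intro x
      simp only [Finset.singleton_subset_iff]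
    rw [Finset.sum_congr rfl (fun x _ => this x), ← Finset.sum_filter, Finset.sum_const,
      nsmul_eq_mul, mul_comm]
    have hfU : Finset.univ.filter (fun x => x ∈ U) = U := by
      ext x; simp
    rw [hfU]
  have hbound : ∑ U, μ U * (U.card : ℝ) ≤ 2 * Real.exp (-(J : ℝ)) * Fintype.card X := by
    rw [hswap]
    calc ∑ x : X, prb μ {x} ≤ ∑ _x : X, 2 * Real.exp (-(J : ℝ)) :=
          Finset.sum_le_sum (fun x _ => hsing x)
      _ = 2 * Real.exp (-(J : ℝ)) * Fintype.card X := by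
          rw [Finset.sum_const, nsmul_eq_mul, mul_comm]
          rfl
  have hex : ∃ U, 0 < μ U ∧ (U.card : ℝ) ≤ 2 * Real.exp (-(J : ℝ)) * Fintype.card X := by
    by_contra hno
    push Not at hno
    have hnn := hL.nn
    have hone := hL.one
    obtain ⟨U0, hU0⟩ : ∃ U, 0 < μ U := by
      by_contra hz
      push Not at hz
      have : ∑ U, μ U ≤ 0 := Finset.sum_nonpos (fun U _ => hz U)
      linarith
    have hlt : ∑ U, μ U * (2 * Real.exp (-(J : ℝ)) * Fintype.card X) <
        ∑ U, μ U * (U.card : ℝ) := by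
      apply Finset.sum_lt_sum
      · intro U _
        rcases (hnn U).lt_or_eq with h | h
        · exact mul_le_mul_of_nonneg_left (hno U h).le h.le
        · rw [← h, zero_mul, zero_mul]
      · exact ⟨U0, Finset.mem_univ _, mul_lt_mul_of_pos_left (hno U0 hU0) hU0⟩
    rw [← Finset.sum_mul, hone, one_mul] at hlt
    linarith
  obtain ⟨U, hU, hUc⟩ := hex
  obtain ⟨e, he1, he2⟩ := hμ U hU
  refine ⟨e, fun d v h => (he1 d v h).2, le_trans ?_ hUc⟩
  have hsub : univ.filter (fun x => ∀ d, e d ≠ some (T d x)) ⊆ U := by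
    intro x hx
    rw [Finset.mem_filter] at hx
    by_contra hxU
    obtain ⟨d, hd⟩ := he2 x hxU
    exact hx.2 d hd
  exact_mod_cast Finset.card_le_card hsub

end H23A1
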