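import Mathlib
import Pool.Agent.H23.A1.Itr
import Pool.Agent.H23.A1.Col
import Pool.Agent.H19.RPProduct

/-! The gadget with bounded cost (row I). -/

namespace H23A1

open Finset H19RP

/-- the prime is larger than `K exp (2 J)` -/
private theorem big (K J p : ℕ) (hK : 1 ≤ K) (hJ : 1 ≤ J)
    (hbig : (2 * Lbar 32 K J) ^ J ≤ p) :
    (K : ℝ) * Real.exp (2 * J) ≤ p := by
  have hK' : (1 : ℝ) ≤ K := by exact_mod_cast hK
  have hJ' : (1 : ℝ) ≤ J := by exact_mod_cast hJ
  have hKJ : (1 : ℝ) ≤ (K : ℝ) * J := by nlinarith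
  have h1 : (1 : ℝ) ≤ (1 + 2 * K * J : ℝ) ^ 3 := by
    apply one_le_pow₀
    nlinarith
  have h2 : (1 : ℝ) ≤ Real.exp (2 * (1 + 2 * K * J)) := by
    apply Real.one_le_exp
    nlinarith
  have h3 : Real.exp (2 * J) ≤ Real.exp (2 * J * (1 + 2 * K * J + 2 * K)) := by
    apply Real.exp_le_exp.mpr
    nlinarith
  have h4 : (K : ℝ) * Real.exp (2 * J) ≤ Lbar 32 K J := by
    unfold Lbar
    have h5 : (K : ℝ) ≤ 24 * (32 : ℕ) * (1 + 2 * K * J : ℝ) ^ 3 * K *
        Real.exp (2 * (1 + 2 * K * J)) := by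
      have h6 : (1 : ℝ) ≤ 24 * (32 : ℕ) * (1 + 2 * K * J : ℝ) ^ 3 := by
        push_cast
        linarith
      have h7 : (K : ℝ) ≤ 24 * (32 : ℕ) * (1 + 2 * K * J : ℝ) ^ 3 * K := by
        nlinarith
      have h8 : (0 : ℝ) ≤ 24 * (32 : ℕ) * (1 + 2 * K * J : ℝ) ^ 3 * K := by linarith
      nlinarith
    exact mul_le_mul h5 h3 (Real.exp_pos _).le (by linarith)
  have h9 : (1 : ℝ) ≤ Real.exp (2 * J) := by
    apply Real.one_le_exp
    linarith
  have h10 : (1 : ℝ) ≤ Lbar 32 K J := by nlinarith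
  calc (K : ℝ) * Real.exp (2 * J) ≤ 2 * Lbar 32 K J := by linarith
    _ = (2 * Lbar 32 K J) ^ 1 := (pow_one _).symm
    _ ≤ (2 * Lbar 32 K J) ^ J := pow_le_pow_right₀ (by linarith) hJ
    _ ≤ p := hbig

/-- enough parts for the stage `j` -/
private theorem enough (p J j N : ℕ) (hp : Real.exp (2 * J) ≤ p) (hj : j < J)
    (hN : 16 * p ≤ 2 ^ (j + 2) * N) : Ns p j ≤ N := by
  unfold Ns
  apply Nat.ceil_le.mpr
  have h1 := (qs_bounds p J hp j hj.le).2
  have h2 : (2 : ℝ) ^ j * Real.exp (-(j : ℝ)) ≤ 1 := by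
    have h3 : (2 : ℝ) ≤ Real.exp 1 := by
      have := Real.add_one_le_exp (1 : ℝ)
      linarith
    have h4 : (2 : ℝ) ^ j ≤ Real.exp j := by
      calc (2 : ℝ) ^ j ≤ Real.exp 1 ^ j := pow_le_pow_left₀ (by norm_num) h3 _
        _ = Real.exp j := by rw [← Real.exp_nat_mul, mul_one]
    calc (2 : ℝ) ^ j * Real.exp (-(j : ℝ)) ≤ Real.exp j * Real.exp (-(j : ℝ)) :=
          mul_le_mul_of_nonneg_right h4 (Real.exp_pos _).le
      _ = 1 := by rw [← Real.exp_add]; simp
  have h5 : (16 : ℝ) * p ≤ 2 ^ (j + 2) * N := by exact_mod_cast hN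
  have h6 : (0 : ℝ) ≤ p := Nat.cast_nonneg p
  have h7 : (0 : ℝ) < 2 ^ j := by positivity
  have h8 : (2 : ℝ) ^ j * qs p j ≤ 1 := le_trans (mul_le_mul_of_nonneg_left h1 h7.le) h2
  have h9 : (2 : ℝ) ^ j * (2 * p * qs p j) ≤ 2 ^ j * N := by
    have h10 : (2 : ℝ) ^ (j + 2) = 4 * 2 ^ j := by rw [pow_add]; ring
    rw [h10] at h5
    calc (2 : ℝ) ^ j * (2 * p * qs p j) = 2 * p * (2 ^ j * qs p j) := by ring
      _ ≤ 2 * p * 1 := mul_le_mul_of_nonneg_left h8 (by positivity)
      _ ≤ 2 ^ j * N := by linarith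
  exact le_of_mul_le_mul_left h9 h7

/-- a tile has at most one atom in each layer -/
private theorem fib_le (K p : ℕ) [NeZero p] (d : Dir p 32) (v : ZMod p) :
    (univ.filter (fun x : Atom p K => lin d x = v)).card ≤ K := by
  classical
  calc (univ.filter (fun x : Atom p K => lin d x = v)).card ≤ (univ : Finset (Fin K)).card := by
        apply Finset.card_le_card_of_injOn (fun x => x.1)
        · intro x _
          exact Finset.mem_coe.mpr (Finset.mem_univ _)
        · intro x hx y hy hxy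
          have hx1 := (Finset.mem_filter.mp hx).2
          have hy1 := (Finset.mem_filter.mp hy).2
          simp only [lin] at hx1 hy1
          have hxy' : x.1 = y.1 := hxy
          refine Prod.ext hxy' ?_
          rw [hxy'] at hx1
          linear_combination hx1 - hy1
    _ = K := by simp

theorem gadget32 (K J p : ℕ) (hp : p.Prime) [NeZero p] (hp5 : 5 ≤ p) (hK : 1 ≤ K) (hJ : 1 ≤ J)
    (hbig : (2 * Lbar 32 K J) ^ J ≤ p) :
    GadgetProp 32 K p (1 / (2 * K) + 2 ^ J / (2 * p) + 2 * Real.exp (-(J : ℝ))) := by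
  classical
  intro W₁ W₂ hW
  have hK' : (1 : ℝ) ≤ K := by exact_mod_cast hK
  have hJ' : (1 : ℝ) ≤ J := by exact_mod_cast hJ
  have hb := big K J p hK hJ hbig
  have hE1 : (1 : ℝ) ≤ Real.exp (2 * J) := by
    apply Real.one_le_exp
    linarith
  have hexp : Real.exp (2 * J) ≤ p := by nlinarith
  have hKp : K ≤ p := by
    have : (K : ℝ) ≤ p := by nlinarith
    exact_mod_cast this
  have hp0 : (0 : ℝ) < p := by linarith
  have hcD : Fintype.card (Dir p 32) = p * 32 := by
    rw [Fintype.card_prod, ZMod.card, Fintype.card_fin]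
  -- bad atoms
  have hbad := bad_count (K := K) hp hp5 hKp (by norm_num : 0 < 32) W₁ (by omega)
  set Bad : Finset (Atom p K) := univ.filter (fun x : Atom p K =>
      32 * p < 2 * (univ.filter (fun d : Dir p 32 => lin d x ∈ W₁ d)).card) with hBad
  let A : Atom p K → Finset (Dir p 32) := fun x => univ.filter (fun d => lin d x ∉ W₁ d)
  have hA : ∀ x, x ∉ Bad → 16 * p ≤ (A x).card := by
    intro x hx
    have h1 : ¬ (32 * p < 2 * (univ.filter (fun d : Dir p 32 => lin d x ∈ W₁ d)).card) := by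
      intro h
      exact hx (Finset.mem_filter.mpr ⟨Finset.mem_univ _, h⟩)
    have h2 := Finset.card_filter_add_card_filter_not (s := (univ : Finset (Dir p 32)))
      (fun d => lin d x ∈ W₁ d)
    rw [Finset.card_univ, hcD] at h2
    have h3 : (A x).card = (univ.filter (fun d : Dir p 32 => ¬ lin d x ∈ W₁ d)).card := rfl
    omega
  obtain ⟨s, hs⟩ := colour (X := {x : Atom p K // x ∉ Bad}) (D := Dir p 32) J (16 * p)
    (by omega) (fun x => A x.1) (fun x => hA x.1 x.2)
  let good : Atom p K → Prop := fun x => x ∉ Bad ∧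
    ∀ j < J, 16 * p ≤ 2 ^ (j + 2) * ((A x).filter (fun d => s d = j)).card
  obtain ⟨e, he, hec⟩ := iterate (X := {x : Atom p K // good x}) (D := Dir p 32) (V := ZMod p)
    (fun d x => lin d x.1) (fun d => univ.filter (fun v => v ∉ W₁ d)) s p 32 K J
    (by norm_num) hK hJ
    (by
      intro d v
      refine le_trans ?_ (fib_le K p d v)
      apply Finset.card_le_card_of_injOn (fun x => x.1)
      · intro x hx
        have := (Finset.mem_filter.mp hx).2
        exact Finset.mem_coe.mpr (Finset.mem_filter.mpr ⟨Finset.mem_univ _, this⟩)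
      · intro x _ y _ hxy
        exact Subtype.ext hxy)
    (by
      intro x x' hx
      exact agree_le hp hKp (fun h => hx (Subtype.ext h)))
    (by rw [ZMod.card])
    (by rw [hcD, mul_comm])
    (by
      intro x j hj
      have h1 := x.2.2 j hj
      refine le_trans (enough p J j _ hexp hj h1) (le_of_eq ?_)
      congr 1
      ext d
      simp only [A, Finset.mem_filter, Finset.mem_univ, true_and]
      tauto)
    hbig
  refine ⟨e, fun _ => none, ?_, ?_, ?_⟩
  · intro d v hdv
    exact (Finset.mem_filter.mp (he d v hdv)).2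
  · intro d v hdv
    exact absurd hdv (by simp)
  · have hX : (Fintype.card (Atom p K) : ℝ) = K * p := by
      rw [Fintype.card_prod, ZMod.card, Fintype.card_fin]
      push_cast
      ring
    set U : Finset (Atom p K) := univ.filter (fun x : Atom p K => (∀ d, e d ≠ some (lin d x)) ∧
        ∀ d, (none : Option (ZMod p)) ≠ some (lin d x)) with hU
    set B1 : Finset {x : Atom p K // x ∉ Bad} := univ.filter (fun x => ∃ j < J,
        2 ^ (j + 2) * ((A x.1).filter (fun d => s d = j)).card < 16 * p) with hB1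
    set B2 : Finset {x : Atom p K // good x} :=
      univ.filter (fun x => ∀ d, e d ≠ some (lin d x.1)) with hB2
    have hsub : U ⊆ Bad ∪ (B1.map (Function.Embedding.subtype _) ∪
        B2.map (Function.Embedding.subtype _)) := by
      intro x hx
      have hx1 := (Finset.mem_filter.mp hx).2.1
      by_cases h1 : x ∈ Bad
      · exact Finset.mem_union_left _ h1
      · refine Finset.mem_union_right _ ?_
        by_cases h2 : ∀ j < J, 16 * p ≤ 2 ^ (j + 2) * ((A x).filter (fun d => s d = j)).card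
        · refine Finset.mem_union_right _ ?_
          rw [Finset.mem_map]
          exact ⟨⟨x, h1, h2⟩, Finset.mem_filter.mpr ⟨Finset.mem_univ _, hx1⟩, rfl⟩
        · refine Finset.mem_union_left _ ?_
          rw [Finset.mem_map]
          push Not at h2
          exact ⟨⟨x, h1⟩, Finset.mem_filter.mpr ⟨Finset.mem_univ _, h2⟩, rfl⟩
    have hcard : U.card ≤ Bad.card + (B1.card + B2.card) := by
      refine le_trans (Finset.card_le_card hsub) (le_trans (Finset.card_union_le _ _) ?_)
      refine Nat.add_le_add_left (le_trans (Finset.card_union_le _ _) ?_) _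
      rw [Finset.card_map, Finset.card_map]
    have hcard' : (U.card : ℝ) ≤ Bad.card + (B1.card + B2.card) := by exact_mod_cast hcard
    have h1 : (Bad.card : ℝ) ≤ p / 2 := by
      have h2 : (2 * Bad.card : ℕ) ≤ p := hbad.le
      have h3 : (2 : ℝ) * Bad.card ≤ p := by exact_mod_cast h2
      linarith
    have hc1 : (Fintype.card {x : Atom p K // x ∉ Bad} : ℝ) ≤ K * p := by
      rw [← hX]
      exact_mod_cast Fintype.card_subtype_le _
    have hc2 : (Fintype.card {x : Atom p K // good x} : ℝ) ≤ K * p := by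
      rw [← hX]
      exact_mod_cast Fintype.card_subtype_le _
    have h4 : (B1.card : ℝ) ≤ K * 2 ^ J / 2 := by
      refine le_trans hs ?_
      calc 8 * 2 ^ J / ((16 * p : ℕ) : ℝ) * (Fintype.card {x : Atom p K // x ∉ Bad} : ℝ)
          ≤ 8 * 2 ^ J / ((16 * p : ℕ) : ℝ) * (K * p) :=
            mul_le_mul_of_nonneg_left hc1 (by positivity)
        _ = K * 2 ^ J / 2 := by
            push_cast
            field_simp
            ring
    have h5 : (B2.card : ℝ) ≤ 2 * Real.exp (-(J : ℝ)) * (K * p) :=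
      le_trans hec (mul_le_mul_of_nonneg_left hc2 (by positivity))
    rw [hX]
    have h6 : (K : ℝ) * p * (1 / (2 * K) + 2 ^ J / (2 * p) + 2 * Real.exp (-(J : ℝ))) =
        p / 2 + (K * 2 ^ J / 2 + 2 * Real.exp (-(J : ℝ)) * (K * p)) := by
      have h7 : (K : ℝ) ≠ 0 := by linarith
      have h8 : (p : ℝ) ≠ 0 := hp0.ne'
      have h9 : (K : ℝ) * p * (1 / (2 * K)) = p / 2 := by field_simp
      have h10 : (K : ℝ) * p * (2 ^ J / (2 * p)) = K * 2 ^ J / 2 := by field_simp
      rw [mul_add, mul_add, h9, h10]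
      ring
    rw [h6]
    linarith

end H23A1
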