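import Mathlib
import Pool.Agent.H23.A1.Gad
import Pool.Agent.H23.CB.Par
import Pool.Agent.H19.RPNear

/-! The lower bound (row J). -/

namespace H23A1

open Finset H19RP

private theorem gp_mono {g K p : ℕ} [NeZero p] {ε ε' : ℝ} (h : ε ≤ ε') (hG : GadgetProp g K p ε) :
    GadgetProp g K p ε' := by
  intro W₁ W₂ hW
  obtain ⟨e₁, e₂, h1, h2, h3⟩ := hG W₁ W₂ hW
  exact ⟨e₁, e₂, h1, h2, h3.trans (mul_le_mul_of_nonneg_left h (Nat.cast_nonneg _))⟩

private theorem le_exp_self (y : ℝ) : y ≤ Real.exp y := by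
  have := Real.add_one_le_exp y
  linarith

private theorem exp_nat_ge (n : ℕ) : (27 / 10 : ℝ) ^ n ≤ Real.exp n := by
  have h1 : (27 / 10 : ℝ) ≤ Real.exp 1 := by
    have := Real.exp_one_gt_d9
    linarith
  calc (27 / 10 : ℝ) ^ n ≤ Real.exp 1 ^ n := pow_le_pow_left₀ (by norm_num) h1 n
    _ = Real.exp n := by rw [← Real.exp_nat_mul, mul_one]

private theorem lbar_bound (E : ℝ) (hE : 1 ≤ E) (K J : ℕ) (hK : (K : ℝ) ≤ 5 * E) (hJ : (J : ℝ) ≤ 3 * E) :
    (2 * Lbar 32 K J) ^ J ≤ Real.exp (1242 * E ^ 4) := by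
  have hK0 : (0 : ℝ) ≤ K := Nat.cast_nonneg _
  have hJ0 : (0 : ℝ) ≤ J := Nat.cast_nonneg _
  set m : ℝ := 1 + 2 * K * J with hm
  have hm0 : 0 ≤ m := by positivity
  have hE0 : 0 ≤ E := by linarith
  have hE2 : 1 ≤ E ^ 2 := one_le_pow₀ hE
  have hE23 : E ^ 2 ≤ E ^ 3 := pow_le_pow_right₀ hE (by norm_num)
  have hE13 : E ≤ E ^ 3 := by
    calc E = E ^ 1 := (pow_one _).symm
      _ ≤ E ^ 3 := pow_le_pow_right₀ hE (by norm_num)
  have hm1 : m ≤ 31 * E ^ 2 := by
    have h1 : (K : ℝ) * J ≤ 5 * E * (3 * E) := mul_le_mul hK hJ hJ0 (by positivity)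
    rw [hm]
    nlinarith
  have h8 : (1536 : ℝ) ≤ Real.exp 8 := by
    have := exp_nat_ge 8
    norm_num at this
    linarith
  have e1 : 2 * Lbar 32 K J ≤ Real.exp (414 * E ^ 3) := by
    have e2 : 2 * Lbar 32 K J = 1536 * m ^ 3 * K * Real.exp (2 * m) * Real.exp (2 * J * (m + 2 * K)) := by
      unfold Lbar
      rw [hm]
      push_cast
      ring
    rw [e2]
    have e3 : m ^ 3 ≤ Real.exp (3 * m) := by
      calc m ^ 3 ≤ Real.exp m ^ 3 := pow_le_pow_left₀ hm0 (le_exp_self m) 3
        _ = Real.exp (3 * m) := by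
          rw [← Real.exp_nat_mul]
          norm_num
    have e4 : (1536 : ℝ) * m ^ 3 * K ≤ Real.exp 8 * Real.exp (3 * m) * Real.exp K := by
      apply mul_le_mul (mul_le_mul h8 e3 (by positivity) (Real.exp_pos _).le) (le_exp_self _) hK0
      positivity
    have e5 : 1536 * m ^ 3 * K * Real.exp (2 * m) * Real.exp (2 * J * (m + 2 * K)) ≤
        Real.exp 8 * Real.exp (3 * m) * Real.exp K * Real.exp (2 * m) * Real.exp (2 * J * (m + 2 * K)) :=
      mul_le_mul_of_nonneg_right (mul_le_mul_of_nonneg_right e4 (Real.exp_pos _).le) (Real.exp_pos _).le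
    refine e5.trans ?_
    rw [← Real.exp_add, ← Real.exp_add, ← Real.exp_add, ← Real.exp_add]
    apply Real.exp_le_exp.mpr
    have e6 : 2 * (J : ℝ) * (m + 2 * K) ≤ 2 * (3 * E) * (31 * E ^ 2 + 2 * (5 * E)) := by
      apply mul_le_mul _ _ (by positivity) (by positivity)
      · linarith
      · linarith
    have e7 : 2 * (3 * E) * (31 * E ^ 2 + 2 * (5 * E)) = 186 * E ^ 3 + 60 * E ^ 2 := by ring
    rw [e7] at e6
    linarith
  have hL0 : 0 ≤ 2 * Lbar 32 K J := by
    unfold Lbar
    positivity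
  calc (2 * Lbar 32 K J) ^ J ≤ Real.exp (414 * E ^ 3) ^ J := pow_le_pow_left₀ hL0 e1 J
    _ = Real.exp (J * (414 * E ^ 3)) := by rw [← Real.exp_nat_mul]
    _ ≤ Real.exp (1242 * E ^ 4) := by
      apply Real.exp_le_exp.mpr
      calc (J : ℝ) * (414 * E ^ 3) ≤ 3 * E * (414 * E ^ 3) := mul_le_mul_of_nonneg_right hJ (by positivity)
        _ = 1242 * E ^ 4 := by ring

private theorem large_case (r k : ℕ) (hr : 2 ≤ r) (hrk : r ≤ k) (A : ℝ) (hA1 : 1 ≤ A)
    (hAl : A ≤ 1 + Real.log (k / r)) (x : ℝ) (hx : x = r / (1 + Real.log (k / r)))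
    (hx0 : Real.exp (1243 ^ 2) ≤ x) (hAx : Real.exp A ^ 4 ≤ Real.sqrt (Real.log x)) :
    ∃ H : Finset (Fin r → ℕ), IntersectinglyCovered k H ∧
      (r : ℝ) ^ 2 * A / (73728 * (32 : ℕ) * (1 + Real.log (k / r))) ≤ tau H := by
  set E : ℝ := Real.exp A with hE
  have hEA : A + 1 ≤ E := Real.add_one_le_exp A
  have hE1 : 2 ≤ E := by linarith
  have hEpos : 0 < E := by linarith
  set K : ℕ := ⌈4 * E⌉₊ with hKdef
  set J : ℕ := ⌈A⌉₊ + 3 with hJdef
  have hK : (K : ℝ) ≤ 5 * E := by
    have := Nat.ceil_lt_add_one (a := 4 * E) (by positivity)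
    rw [hKdef]
    linarith
  have hK' : 4 * E ≤ K := Nat.le_ceil _
  have hK1 : 1 ≤ K := by
    have : (1 : ℝ) ≤ K := by linarith
    exact_mod_cast this
  have hJ : (J : ℝ) ≤ 3 * E := by
    have := Nat.ceil_lt_add_one (a := A) (by linarith)
    rw [hJdef]
    push_cast
    linarith
  have hJ' : A + 3 ≤ J := by
    have := Nat.le_ceil A
    rw [hJdef]
    push_cast
    linarith
  have hJ1 : 1 ≤ J := by omega
  have hlogx : (1243 : ℝ) ^ 2 ≤ Real.log x := by
    rw [Real.le_log_iff_exp_le (lt_of_lt_of_le (Real.exp_pos _) hx0)]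
    exact hx0
  have hxpos : 0 < x := lt_of_lt_of_le (Real.exp_pos _) hx0
  set s : ℝ := Real.sqrt (Real.log x) with hs
  have hs1 : 1243 ≤ s := by
    rw [hs]
    exact Real.le_sqrt_of_sq_le hlogx
  have hss : s ^ 2 = Real.log x := Real.sq_sqrt (by linarith [sq_nonneg (1243 : ℝ)])
  set B : ℝ := Real.exp (1242 * s) with hB
  have hB1 : 1 ≤ B := Real.one_le_exp (by linarith)
  have hE4 : 1242 * E ^ 4 ≤ 1242 * s := by linarith
  have b1 : (2 * Lbar 32 K J) ^ J ≤ B :=
    (lbar_bound E (by linarith) K J hK hJ).trans (Real.exp_le_exp.mpr hE4)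
  have b2 : (2 : ℝ) ^ J * E ≤ B := by
    have h1 : (2 : ℝ) ^ J ≤ Real.exp J := by
      calc (2 : ℝ) ^ J ≤ (27 / 10 : ℝ) ^ J := pow_le_pow_left₀ (by norm_num) (by norm_num) J
        _ ≤ Real.exp J := exp_nat_ge J
    have h2 : (2 : ℝ) ^ J * E ≤ Real.exp J * Real.exp E :=
      mul_le_mul h1 (le_exp_self E) hEpos.le (Real.exp_pos _).le
    refine h2.trans ?_
    rw [← Real.exp_add]
    apply Real.exp_le_exp.mpr
    have h3 : E ≤ E ^ 4 := by
      calc E = E ^ 1 := (pow_one _).symm
        _ ≤ E ^ 4 := pow_le_pow_right₀ (by linarith) (by norm_num)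
    linarith
  have b3 : (5 : ℝ) ≤ B := by
    have := le_exp_self (1242 * s)
    linarith
  set P₀ : ℕ := ⌈B⌉₊ with hP₀
  have hP1 : (P₀ : ℝ) ≤ B + 1 := (Nat.ceil_lt_add_one (by linarith)).le
  have hP2 : B ≤ P₀ := Nat.le_ceil _
  have hl1 : 1 ≤ 1 + Real.log (k / r) := by linarith
  have hlpos : (0 : ℝ) < 1 + Real.log (k / r) := by linarith
  apply lower_param_rest 32 K P₀ A (by norm_num) hK1 (by linarith) r k hr hrk hAl
  · have h1 : 28672 * B ≤ x := by
      have h2 : (28672 : ℝ) ≤ Real.exp 11 := by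
        have := exp_nat_ge 11
        norm_num at this
        linarith
      calc 28672 * B ≤ Real.exp 11 * B := mul_le_mul_of_nonneg_right h2 (by linarith)
        _ = Real.exp (11 + 1242 * s) := by rw [hB, ← Real.exp_add]
        _ ≤ Real.exp (s ^ 2) := Real.exp_le_exp.mpr (by nlinarith)
        _ = x := by rw [hss, Real.exp_log hxpos]
    have h3 : 128 * ((32 : ℕ) : ℝ) * (P₀ + 5) ≤ x := by
      push_cast
      linarith
    have h4 : x * (1 + Real.log (k / r)) = r := by
      rw [hx]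
      field_simp
    calc 128 * ((32 : ℕ) : ℝ) * (P₀ + 5) * (1 + Real.log (k / r)) ≤ x * (1 + Real.log (k / r)) :=
          mul_le_mul_of_nonneg_right h3 hlpos.le
      _ = r := h4
      _ = 1 * r := (one_mul _).symm
      _ ≤ A * r := mul_le_mul_of_nonneg_right hA1 (Nat.cast_nonneg _)
  · intro p hp hpp hne
    have hBp : B ≤ p := hP2.trans (by exact_mod_cast hp)
    have hp5 : 5 ≤ p := by
      have : (5 : ℝ) ≤ p := b3.trans hBp
      exact_mod_cast this
    have hp0 : (0 : ℝ) < p := by linarith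
    refine gp_mono ?_ (gadget32 K J p hpp hp5 hK1 hJ1 (b1.trans hBp))
    have hEi : Real.exp (-A) = 1 / E := by rw [Real.exp_neg, one_div]
    rw [hEi]
    have c1 : (1 : ℝ) / (2 * K) ≤ 1 / 8 * (1 / E) := by
      rw [one_div_mul_one_div]
      apply one_div_le_one_div_of_le (by positivity)
      linarith
    have c2 : (2 : ℝ) ^ J / (2 * p) ≤ 1 / 2 * (1 / E) := by
      rw [div_le_iff₀ (by positivity)]
      have : 1 / 2 * (1 / E) * (2 * (p : ℝ)) = p / E := by
        field_simp
      rw [this, le_div_iff₀ hEpos]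
      exact b2.trans hBp
    have c3 : 2 * Real.exp (-(J : ℝ)) ≤ 1 / 8 * (1 / E) := by
      have h1 : Real.exp (-(J : ℝ)) ≤ Real.exp (-A) * Real.exp (-3) := by
        rw [← Real.exp_add]
        exact Real.exp_le_exp.mpr (by linarith)
      have h2 : Real.exp (-3) ≤ 1 / 16 := by
        rw [Real.exp_neg, ← one_div]
        apply one_div_le_one_div_of_le (by norm_num)
        have := exp_nat_ge 3
        norm_num at this
        linarith
      rw [hEi] at h1
      have h3 : 1 / E * Real.exp (-3) ≤ 1 / E * (1 / 16) := mul_le_mul_of_nonneg_left h2 (by positivity)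
      linarith
    have : 0 ≤ 1 / E := by positivity
    linarith

theorem final_lower : ∃ c : ℝ, 0 < c ∧ ∀ r k : ℕ, 2 ≤ r → r ≤ k →
    ∃ H : Finset (Fin r → ℕ), IntersectinglyCovered k H ∧
      c * ((r : ℝ) ^ 2 / (1 + Real.log (k / r))) *
        min (1 + Real.log (k / r)) (1 + Real.log (Real.log (3 + r / (1 + Real.log (k / r))))) ≤
        tau H := by
  set x₀ : ℝ := Real.exp (1243 ^ 2) with hx₀
  have hx₀pos : 0 < x₀ := Real.exp_pos _
  set M : ℝ := 1 + Real.log (Real.log (3 + x₀)) with hM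
  have log3 : ∀ y : ℝ, 0 ≤ y → 1 ≤ Real.log (3 + y) := by
    intro y hy
    rw [Real.le_log_iff_exp_le (by linarith)]
    have := Real.exp_one_lt_d9
    linarith
  have hM1 : 1 ≤ M := by
    have := Real.log_nonneg (log3 x₀ hx₀pos.le)
    linarith
  refine ⟨min (1 / (1024 * M)) (1 / 23592960), lt_min (by positivity) (by norm_num), ?_⟩
  intro r k hr hrk
  have hrpos : (0 : ℝ) < r := by
    have : 0 < r := by omega
    exact_mod_cast this
  have hlog : 0 ≤ Real.log ((k : ℝ) / r) := by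
    apply Real.log_nonneg
    rw [le_div_iff₀ hrpos, one_mul]
    exact_mod_cast hrk
  set l : ℝ := 1 + Real.log (k / r) with hl
  have hl1 : 1 ≤ l := by linarith
  have hlpos : 0 < l := by linarith
  set x : ℝ := r / l with hx
  have hxpos : 0 < x := by positivity
  have hq0 : 0 ≤ (r : ℝ) ^ 2 / l := by positivity
  have hmin0 : 0 ≤ min l (1 + Real.log (Real.log (3 + x))) := by
    apply le_min hlpos.le
    have := Real.log_nonneg (log3 x hxpos.le)
    linarith
  rcases lt_or_ge x x₀ with h | h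
  · obtain ⟨H, hH, ht⟩ := near_main r k hr hrk
    refine ⟨H, hH, le_trans ?_ ht⟩
    have h1 : min l (1 + Real.log (Real.log (3 + x))) ≤ M := by
      refine (min_le_right _ _).trans ?_
      have h2 : Real.log (3 + x) ≤ Real.log (3 + x₀) := Real.log_le_log (by linarith) (by linarith)
      have h3 : Real.log (Real.log (3 + x)) ≤ Real.log (Real.log (3 + x₀)) :=
        Real.log_le_log (by linarith [log3 x hxpos.le]) h2
      linarith
    calc min (1 / (1024 * M)) (1 / 23592960) * ((r : ℝ) ^ 2 / l) * min l (1 + Real.log (Real.log (3 + x))) ≤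
        1 / (1024 * M) * ((r : ℝ) ^ 2 / l) * M :=
          mul_le_mul (mul_le_mul_of_nonneg_right (min_le_left _ _) hq0) h1 hmin0 (by positivity)
      _ = 1 / 1024 * (r : ℝ) ^ 2 / l := by
        field_simp
  · have hx3 : 3 ≤ x := by
      have h1 : (1243 : ℝ) ^ 2 ≤ x := (le_exp_self ((1243 : ℝ) ^ 2)).trans h
      have h2 : (3 : ℝ) ≤ 1243 ^ 2 := by norm_num
      exact h2.trans h1
    have hlogx : (1243 : ℝ) ^ 2 ≤ Real.log x := by
      rw [Real.le_log_iff_exp_le hxpos]
      exact h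
    have hll : 8 ≤ Real.log (Real.log x) := by
      rw [Real.le_log_iff_exp_le (by linarith [sq_nonneg (1243 : ℝ)])]
      have h1 : Real.exp 8 ≤ 3 ^ 8 := by
        calc Real.exp 8 = Real.exp 1 ^ 8 := by rw [← Real.exp_nat_mul]; norm_num
          _ ≤ 3 ^ 8 := pow_le_pow_left₀ (Real.exp_pos _).le (by linarith [Real.exp_one_lt_d9]) 8
      norm_num at h1 hlogx ⊢
      linarith
    set A : ℝ := min l (Real.log (Real.log x) / 8) with hA
    have hA1 : 1 ≤ A := le_min hl1 (by linarith)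
    have hlogpos : 0 < Real.log x := by linarith [sq_nonneg (1243 : ℝ)]
    have hAx : Real.exp A ^ 4 ≤ Real.sqrt (Real.log x) := by
      apply Real.le_sqrt_of_sq_le
      rw [← pow_mul, ← Real.exp_nat_mul]
      calc Real.exp (((4 * 2 : ℕ) : ℝ) * A) ≤ Real.exp (Real.log (Real.log x)) := by
            apply Real.exp_le_exp.mpr
            have := min_le_right l (Real.log (Real.log x) / 8)
            push_cast
            linarith
        _ = Real.log x := Real.exp_log hlogpos
    obtain ⟨H, hH, ht⟩ := large_case r k hr hrk A hA1 (min_le_left _ _) x hx h hAx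
    refine ⟨H, hH, le_trans ?_ ht⟩
    have h10 : min l (1 + Real.log (Real.log (3 + x))) ≤ 10 * A := by
      rw [hA]
      rcases le_total l (Real.log (Real.log x) / 8) with h1 | h1
      · rw [min_eq_left h1]
        exact (min_le_left _ _).trans (by linarith)
      · rw [min_eq_right h1]
        refine (min_le_right _ _).trans ?_
        have h2 : Real.log (3 + x) ≤ 2 * Real.log x := by
          have h3 : Real.log (3 + x) ≤ Real.log (x ^ 2) := Real.log_le_log (by linarith) (by nlinarith)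
          rw [Real.log_pow] at h3
          push_cast at h3
          exact h3
        have h4 : Real.log (Real.log (3 + x)) ≤ Real.log 2 + Real.log (Real.log x) := by
          rw [← Real.log_mul (by norm_num) hlogpos.ne']
          exact Real.log_le_log (by linarith [log3 x hxpos.le]) h2
        have h5 : Real.log 2 ≤ 1 := by
          have := Real.log_two_lt_d9
          linarith
        linarith
    calc min (1 / (1024 * M)) (1 / 23592960) * ((r : ℝ) ^ 2 / l) * min l (1 + Real.log (Real.log (3 + x))) ≤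
        1 / 23592960 * ((r : ℝ) ^ 2 / l) * (10 * A) :=
          mul_le_mul (mul_le_mul_of_nonneg_right (min_le_right _ _) hq0) h10 hmin0 (by positivity)
      _ = (r : ℝ) ^ 2 * A / (73728 * (32 : ℕ) * l) := by
        push_cast
        field_simp
        norm_num

end H23A1
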