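import Mathlib
import Pool.Agent.H19.RPDefs

/-! The trivial upper bound `f_r(k) <= r^2` for `k >= r`. -/

namespace H23A1

open Finset H19RP

private theorem tau_le {r : ℕ} (H : Finset (Fin r → ℕ)) (W : Finset (Fin r × ℕ))
    (hW : IsCover W H) : tau H ≤ W.card := Nat.sInf_le ⟨W, hW, rfl⟩

theorem trivial_upper (r k : ℕ) (hrk : r ≤ k) (H : Finset (Fin r → ℕ))
    (hH : IntersectinglyCovered k H) : tau H ≤ r ^ 2 := by
  classical
  by_contra hcon
  push Not at hcon
  obtain ⟨C, hC⟩ := hH
  set T := C ∅ with hT
  -- a family of pairwise disjoint edges, disjoint from `T`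
  have key : ∀ i ≤ r, ∃ S : Finset (Fin r → ℕ), S ⊆ H ∧ S.card = i ∧
      (∀ e ∈ S, ¬ Meets T e) ∧ ∀ e ∈ S, ∀ e' ∈ S, e ≠ e' → ¬ Meets e e' := by
    intro i
    induction i with
    | zero => intro _; exact ⟨∅, by simp, by simp, by simp, by simp⟩
    | succ i ih =>
      intro hi
      obtain ⟨S, hS, hcard, hT1, hd⟩ := ih (by omega)
      set W : Finset (Fin r × ℕ) := (insert T S).biUnion
        (fun e => (univ : Finset (Fin r)).image (fun j => (j, e j))) with hW
      have hWc : W.card ≤ r ^ 2 := by
        calc W.card ≤ ∑ e ∈ insert T S, ((univ : Finset (Fin r)).image (fun j => (j, e j))).card :=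
              Finset.card_biUnion_le
          _ ≤ ∑ e ∈ insert T S, r := by
              apply Finset.sum_le_sum
              intro e _
              exact Finset.card_image_le.trans (by simp)
          _ = (insert T S).card * r := by rw [Finset.sum_const, smul_eq_mul]
          _ ≤ (i + 1) * r := by
              apply Nat.mul_le_mul_right
              have := Finset.card_insert_le T S
              omega
          _ ≤ r * r := Nat.mul_le_mul_right _ hi
          _ = r ^ 2 := by ring
      have hnc : ¬ IsCover W H := by
        intro h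
        have := tau_le H W h
        omega
      unfold IsCover at hnc
      push Not at hnc
      obtain ⟨e, he, hmiss⟩ := hnc
      have hno : ∀ f ∈ insert T S, ¬ Meets f e := by
        rintro f hf ⟨j, hj⟩
        apply hmiss j
        rw [hW, Finset.mem_biUnion]
        exact ⟨f, hf, Finset.mem_image.mpr ⟨j, Finset.mem_univ _, by rw [hj]⟩⟩
      have hr0 : 0 < r := by omega
      have heS : e ∉ S := by
        intro h
        exact hno e (Finset.mem_insert_of_mem h) ⟨⟨0, hr0⟩, rfl⟩
      refine ⟨insert e S, ?_, ?_, ?_, ?_⟩
      · intro f hf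
        rcases Finset.mem_insert.mp hf with rfl | h
        · exact he
        · exact hS h
      · rw [Finset.card_insert_of_notMem heS, hcard]
      · intro f hf
        rcases Finset.mem_insert.mp hf with rfl | h
        · exact hno T (Finset.mem_insert_self _ _)
        · exact hT1 f h
      · intro f hf f' hf' hne
        rcases Finset.mem_insert.mp hf with rfl | h
        · rcases Finset.mem_insert.mp hf' with rfl | h'
          · exact absurd rfl hne
          · rintro ⟨j, hj⟩
            exact hno f' (Finset.mem_insert_of_mem h') ⟨j, hj.symm⟩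
        · rcases Finset.mem_insert.mp hf' with rfl | h'
          · exact hno f (Finset.mem_insert_of_mem h)
          · exact hd f h f' h' hne
  obtain ⟨S, hS, hcard, hT1, hd⟩ := key r le_rfl
  obtain ⟨h1, h2, h3⟩ := hC S hS (by omega)
  have h4 : Meets (C S) T := h3 ∅ (Finset.empty_subset _) (by simp)
  obtain ⟨j, hj⟩ := h4
  have hch : ∀ e : S, ∃ i, C S i = e.1 i := fun e => h1 e.1 e.2
  choose f hf using hch
  have hinj : Function.Injective f := by
    intro e e' hee
    by_contra hne
    apply hd e.1 e.2 e'.1 e'.2 (fun h => hne (Subtype.ext h))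
    exact ⟨f e, by rw [← hf e, hee, hf e']⟩
  have hsurj : Function.Surjective f := by
    have hc : Fintype.card S = Fintype.card (Fin r) := by
      rw [Fintype.card_coe, hcard, Fintype.card_fin]
    exact ((Fintype.bijective_iff_injective_and_card f).mpr ⟨hinj, hc⟩).2
  obtain ⟨e, he⟩ := hsurj j
  apply hT1 e.1 e.2
  refine ⟨j, ?_⟩
  rw [← hj, ← he]
  exact hf e

end H23A1
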