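import Mathlib

/-! The window `r <= k <= r (log r)^C`: the bound of `final_lower` is of order `r^2` there. -/

namespace H23A1

theorem window (C : ℝ) : ∃ c : ℝ, 0 < c ∧ ∀ r k : ℕ, 3 ≤ r → r ≤ k →
    (k : ℝ) ≤ r * Real.log r ^ C →
    c * (r : ℝ) ^ 2 ≤ ((r : ℝ) ^ 2 / (1 + Real.log (k / r))) *
        min (1 + Real.log (k / r)) (1 + Real.log (Real.log (3 + r / (1 + Real.log (k / r))))) := by
  set D : ℝ := max C 0 + 1 with hD
  have hD1 : 1 ≤ D := by rw [hD]; linarith [le_max_right C 0]
  have hlog2D : 0 < Real.log (2 * D) := Real.log_pos (by linarith)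
  refine ⟨min 1 (min (1 / (3 * D)) (1 / (4 * D * Real.log (2 * D)))), by positivity, ?_⟩
  intro r k hr hrk hk
  have hr3 : (3 : ℝ) ≤ r := by exact_mod_cast hr
  have hrk' : (r : ℝ) ≤ k := by exact_mod_cast hrk
  have hr0 : (0 : ℝ) < r := by linarith
  have hlogr : 1 ≤ Real.log r := by
    rw [Real.le_log_iff_exp_le hr0]
    have := Real.exp_one_lt_d9
    linarith
  have hll : 0 ≤ Real.log (Real.log r) := Real.log_nonneg hlogr
  set l : ℝ := 1 + Real.log (k / r) with hl
  have hkr1 : (1 : ℝ) ≤ k / r := by rw [le_div_iff₀ hr0]; linarith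
  have hl1 : 1 ≤ l := by have := Real.log_nonneg hkr1; linarith
  have hl0 : 0 < l := by linarith
  -- upper bound for l
  have hlD : l ≤ D * (1 + Real.log (Real.log r)) := by
    have h1 : (k : ℝ) / r ≤ Real.log r ^ C := by rw [div_le_iff₀ hr0]; linarith
    have h2 : Real.log (k / r) ≤ C * Real.log (Real.log r) := by
      have := Real.log_le_log (by linarith) h1
      rwa [Real.log_rpow (by linarith)] at this
    have h3 : C * Real.log (Real.log r) ≤ max C 0 * Real.log (Real.log r) :=
      mul_le_mul_of_nonneg_right (le_max_left _ _) hll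
    have h4 : 0 ≤ max C 0 := le_max_right _ _
    rw [hl, hD]
    nlinarith
  have hll1 : 1 + Real.log (Real.log r) ≤ Real.log r := by
    have := Real.log_le_sub_one_of_pos (show 0 < Real.log r by linarith)
    linarith
  have hsq : Real.log r ≤ 2 * Real.sqrt r := by
    have h1 : Real.log (Real.sqrt r) ≤ Real.sqrt r - 1 :=
      Real.log_le_sub_one_of_pos (Real.sqrt_pos.mpr hr0)
    rw [Real.log_sqrt hr0.le] at h1
    linarith
  have hl2 : l ≤ 2 * D * Real.sqrt r := by nlinarith
  have hx : Real.sqrt r / (2 * D) ≤ 3 + r / l := by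
    have h1 : Real.sqrt r / (2 * D) ≤ r / l := by
      rw [div_le_div_iff₀ (by positivity) hl0]
      have h2 : Real.sqrt r * l ≤ Real.sqrt r * (2 * D * Real.sqrt r) :=
        mul_le_mul_of_nonneg_left hl2 (Real.sqrt_nonneg _)
      have h3 : Real.sqrt r * Real.sqrt r = r := Real.mul_self_sqrt hr0.le
      nlinarith
    linarith
  set M : ℝ := 1 + Real.log (Real.log (3 + r / l)) with hM
  have hlog3 : 1 ≤ Real.log (3 + r / l) := by
    have h0 : 0 ≤ (r : ℝ) / l := by positivity
    rw [Real.le_log_iff_exp_le (by linarith)]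
    have := Real.exp_one_lt_d9
    linarith
  have hM1 : 1 ≤ M := by have := Real.log_nonneg hlog3; linarith
  -- l is at most a constant times M
  have key : l * min (1 / (3 * D)) (1 / (4 * D * Real.log (2 * D))) ≤ M := by
    by_cases h : 4 * Real.log (2 * D) ≤ Real.log r
    · have h1 : Real.log (Real.sqrt r / (2 * D)) ≤ Real.log (3 + r / l) :=
        Real.log_le_log (by positivity) hx
      rw [Real.log_div (by positivity) (by positivity), Real.log_sqrt hr0.le] at h1
      have h2 : Real.log r / 4 ≤ Real.log (3 + r / l) := by linarith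
      have h3 : Real.log (Real.log r / 4) ≤ Real.log (Real.log (3 + r / l)) :=
        Real.log_le_log (by linarith) h2
      rw [Real.log_div (by linarith) (by norm_num)] at h3
      have h4 : Real.log 4 ≤ 2 := by
        have h5 : Real.log 4 = 2 * Real.log 2 := by
          rw [show (4 : ℝ) = 2 ^ 2 by norm_num, Real.log_pow]; norm_num
        have := Real.log_two_lt_d9
        linarith
      have h5 : 1 + Real.log (Real.log r) ≤ 3 * M := by linarith
      have h6 : l ≤ 3 * D * M := by nlinarith
      have h7 : l * min (1 / (3 * D)) (1 / (4 * D * Real.log (2 * D))) ≤ l * (1 / (3 * D)) :=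
        mul_le_mul_of_nonneg_left (min_le_left _ _) hl0.le
      refine h7.trans ?_
      rw [mul_one_div, div_le_iff₀ (by positivity)]
      linarith
    · push Not at h
      have h1 : l ≤ 4 * D * Real.log (2 * D) := by nlinarith
      have h7 : l * min (1 / (3 * D)) (1 / (4 * D * Real.log (2 * D))) ≤
          l * (1 / (4 * D * Real.log (2 * D))) :=
        mul_le_mul_of_nonneg_left (min_le_right _ _) hl0.le
      refine h7.trans (le_trans ?_ hM1)
      rw [mul_one_div, div_le_iff₀ (by positivity)]
      linarith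
  have h1 : min 1 (min (1 / (3 * D)) (1 / (4 * D * Real.log (2 * D)))) * l ≤ min l M := by
    apply le_min
    · have := mul_le_mul_of_nonneg_right (min_le_left 1
        (min (1 / (3 * D)) (1 / (4 * D * Real.log (2 * D))))) hl0.le
      linarith
    · have := mul_le_mul_of_nonneg_right (min_le_right 1
        (min (1 / (3 * D)) (1 / (4 * D * Real.log (2 * D))))) hl0.le
      linarith
  have h2 : (r : ℝ) ^ 2 / l * (min 1 (min (1 / (3 * D)) (1 / (4 * D * Real.log (2 * D)))) * l) ≤
      (r : ℝ) ^ 2 / l * min l M := mul_le_mul_of_nonneg_left h1 (by positivity)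
  refine le_trans (le_of_eq ?_) h2
  field_simp

end H23A1
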